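import Pool.Agent.PFlow.StmtsPX
import Pool.Agent.PFlow.P.API2

/-!
# Block PX, module XBYP: integration by parts for the first derivatives
-/

open MeasureTheory Filter Topology Set
open scoped ContDiff RealInnerProductSpace

namespace Pool.Agent.PFlow.PB

open Pool.Agent.PenroseSph Pool.Agent.PFlow

namespace PXByp

theorem inner_le (W Z : E3) : |∑ i, W i * Z i| ≤ ‖W‖ * ‖Z‖ := by
  have h := abs_real_inner_le_norm Z W
  rw [PiLp.inner_apply] at h
  have e : ∑ i, ⟪Z i, W i⟫ = ∑ i, W i * Z i := Finset.sum_congr rfl fun i _ => by simp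
  rw [e, mul_comm] at h
  exact h

theorem tr_sq (N : Fin 3 → E3) : (∑ i, N i i) ^ 2 ≤ 3 * ∑ i, ‖N i‖ ^ 2 := by
  have h1 : ∀ i, (N i i) ^ 2 ≤ ‖N i‖ ^ 2 := fun i => by
    rw [← sq_abs (N i i)]
    have := abs_comp_le (N i) i
    have := abs_nonneg (N i i)
    gcongr
  have h2 : (∑ i, N i i) ^ 2 ≤ 3 * ∑ i, (N i i) ^ 2 := by
    have := sq_sum_le_card_mul_sum_sq (s := (Finset.univ : Finset (Fin 3))) (f := fun i => N i i)
    simpa using this
  refine h2.trans ?_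
  have := Finset.sum_le_sum fun i (_ : i ∈ Finset.univ) => h1 i
  linarith

/-- the pointwise inequality -/
theorem pw {z w s k : ℝ} (W Z : E3) (N : Fin 3 → E3) (hs : 0 < s) (hz : 0 ≤ z) (hw : |w| ≤ 2)
    (hk : z ≠ 0 → k = 1) (hk0 : 0 ≤ k) :
    -∑ i, (z ^ 2 • N i + W i • ((2 * z) • Z)) i * w ≤
      3 * s * (z ^ 4 * ∑ i, ‖N i‖ ^ 2) + s⁻¹ * k + (1 / 2 * (z ^ 2 * ‖W‖ ^ 2) + 8 * ‖Z‖ ^ 2) := by
  have e : -∑ i, (z ^ 2 • N i + W i • ((2 * z) • Z)) i * w
      = -(z ^ 2 * ∑ i, N i i) * w + -(2 * z * ∑ i, W i * Z i) * w := by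
    have h1 : ∀ i, (z ^ 2 • N i + W i • ((2 * z) • Z)) i * w
        = (z ^ 2 * N i i) * w + (2 * z * (W i * Z i)) * w := fun i => by
      simp only [PiLp.add_apply, PiLp.smul_apply, smul_eq_mul]
      ring
    rw [Finset.sum_congr rfl fun i _ => h1 i, Finset.sum_add_distrib, ← Finset.sum_mul,
      ← Finset.sum_mul, ← Finset.mul_sum, ← Finset.mul_sum]
    ring
  rw [e]
  set T := ∑ i, N i i with hT
  set D := ∑ i, W i * Z i with hD
  have hw' := abs_le.1 hw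
  have h1 : -(z ^ 2 * T) * w ≤ 2 * |z ^ 2 * T| := by
    have h : |-(z ^ 2 * T) * w| ≤ |z ^ 2 * T| * 2 := by
      rw [abs_mul, abs_neg]
      exact mul_le_mul_of_nonneg_left hw (abs_nonneg _)
    have := le_abs_self (-(z ^ 2 * T) * w)
    linarith
  have h2 : 2 * |z ^ 2 * T| ≤ s * (z ^ 2 * T) ^ 2 + s⁻¹ * k := by
    by_cases h0 : z = 0
    · have : z ^ 2 * T = 0 := by rw [h0]; ring
      rw [this]
      simp only [abs_zero, mul_zero, ne_eq, OfNat.ofNat_ne_zero, not_false_eq_true, zero_pow,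
        zero_add]
      positivity
    · rw [hk h0, mul_one]
      have h3 : 0 ≤ (s * |z ^ 2 * T| - 1) ^ 2 := sq_nonneg _
      have h4 : s * (s * (z ^ 2 * T) ^ 2 + s⁻¹ - 2 * |z ^ 2 * T|) = (s * |z ^ 2 * T| - 1) ^ 2 := by
        have h5 : (z ^ 2 * T) ^ 2 = |z ^ 2 * T| ^ 2 := (sq_abs _).symm
        rw [h5]
        field_simp
        ring
      have h6 : 0 ≤ s * (z ^ 2 * T) ^ 2 + s⁻¹ - 2 * |z ^ 2 * T| := by
        by_contra hc
        push Not at hc
        have := mul_neg_of_pos_of_neg hs hc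
        linarith
      linarith
  have h3 : s * (z ^ 2 * T) ^ 2 ≤ 3 * s * (z ^ 4 * ∑ i, ‖N i‖ ^ 2) := by
    have h4 := tr_sq N
    rw [← hT] at h4
    have h5 : s * (z ^ 2 * T) ^ 2 = s * z ^ 4 * T ^ 2 := by ring
    have h6 : 3 * s * (z ^ 4 * ∑ i, ‖N i‖ ^ 2) = s * z ^ 4 * (3 * ∑ i, ‖N i‖ ^ 2) := by ring
    rw [h5, h6]
    exact mul_le_mul_of_nonneg_left h4 (by positivity)
  have h4 : -(2 * z * D) * w ≤ 4 * (z * (‖W‖ * ‖Z‖)) := by
    have h : |-(2 * z * D) * w| ≤ (2 * z * (‖W‖ * ‖Z‖)) * 2 := by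
      rw [abs_mul, abs_neg, abs_mul, abs_of_nonneg (by positivity : (0 : ℝ) ≤ 2 * z)]
      have := inner_le W Z
      gcongr
    have := le_abs_self (-(2 * z * D) * w)
    linarith
  have h5 : 4 * (z * (‖W‖ * ‖Z‖)) ≤ 1 / 2 * (z ^ 2 * ‖W‖ ^ 2) + 8 * ‖Z‖ ^ 2 := by
    have : 0 ≤ (z * ‖W‖ - 4 * ‖Z‖) ^ 2 := sq_nonneg _
    nlinarith
  linarith

end PXByp

open PXByp

/-- XBYP: integration by parts for the first derivatives. -/
theorem xbyp_thm (h1 : API1) (h2 : API2) : XBYP := by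
  intro ζ hζ h01
  -- the data of the test function
  have hζ1 : ContDiff ℝ 1 ζ := hζ.one
  have hζc : Continuous ζ := hζ1.continuous
  set K : Set E3 := tsupport ζ with hK
  have hKc : IsCompact K := hζ.cpt
  have hKm : MeasurableSet K := hKc.measurableSet
  have hKf : volume K ≠ ⊤ := hKc.measure_lt_top.ne
  have hz2 : ContDiff ℝ 1 (fun x => ζ x ^ 2) := hζ1.pow 2
  have hg2 : ∀ x, gr (fun x => ζ x ^ 2) x = (2 * ζ x) • gr ζ x := by
    intro x
    have e : (fun x => ζ x ^ 2) = fun x => ζ x * ζ x := by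
      ext y
      ring
    rw [e, gr_mul ζ ζ x (hζ.diff x) (hζ.diff x), ← add_smul]
    congr 1
    ring
  obtain ⟨C₁, hC₁⟩ := (gr_cpt ζ hζ.cpt).exists_bound_of_continuous (gr_cont ζ hζ1)
  have hC₁0 : 0 ≤ C₁ := (norm_nonneg _).trans (hC₁ 0)
  have hb1 : ∀ x, |ζ x ^ 2| ≤ 1 + 2 * C₁ := by
    intro x
    rw [abs_of_nonneg (by positivity)]
    have := pow_le_one₀ (n := 2) (h01 x).1 (h01 x).2
    linarith
  have hb2 : ∀ x, ‖gr (fun x => ζ x ^ 2) x‖ ≤ 1 + 2 * C₁ := by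
    intro x
    rw [hg2, norm_smul, Real.norm_eq_abs, abs_of_nonneg (by linarith [(h01 x).1])]
    have h3 := hC₁ x
    have h4 := (h01 x).2
    have h5 := (h01 x).1
    calc 2 * ζ x * ‖gr ζ x‖ ≤ 2 * 1 * C₁ := by gcongr
      _ ≤ _ := by linarith
  set D : ℝ := ∫ x, ‖gr ζ x‖ ^ 2 with hD
  have hD0 : 0 ≤ D := integral_nonneg fun x => by positivity
  set v : ℝ := (volume K).toReal with hv
  have hv0 : 0 ≤ v := ENNReal.toReal_nonneg
  refine ⟨2 * (3 + v) + 16 * D, by positivity, ?_⟩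
  intro w W N hH hw
  have hW : MemLp W 2 := hH.h1.memG
  have hN : ∀ i, MemLp (N i) 2 := fun i => (hH.h2 i).memG
  set a : ℝ := √(∫ x, ζ x ^ 4 * ∑ i, ‖N i x‖ ^ 2) with ha
  have ha0 : 0 ≤ a := Real.sqrt_nonneg _
  set b : ℝ := ∫ x, ζ x ^ 2 * ‖W x‖ ^ 2 with hb
  -- integrability
  have i1 : Integrable (fun x => ζ x ^ 2 * ‖W x‖ ^ 2) := by
    refine (int_sq W hW).bdd_mul (c := 1 + 2 * C₁) (hz2.continuous.aestronglyMeasurable)
      (Eventually.of_forall fun x => ?_)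
    rw [Real.norm_eq_abs]
    exact hb1 x
  have i2 : Integrable (fun x => ζ x ^ 4 * ∑ i, ‖N i x‖ ^ 2) := by
    refine (integrable_finsetSum _ fun i _ => int_sq (N i) (hN i)).bdd_mul (c := 1)
      ((hζc.pow 4).aestronglyMeasurable) (Eventually.of_forall fun x => ?_)
    rw [Real.norm_eq_abs, abs_of_nonneg (by positivity)]
    exact pow_le_one₀ (h01 x).1 (h01 x).2
  have i3 : Integrable (fun x => K.indicator (fun _ => (1 : ℝ)) x) := by
    rw [integrable_indicator_iff hKm]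
    exact integrableOn_const hKf
  have i4 : Integrable (fun x => ‖gr ζ x‖ ^ 2) := int_sq _ (gr_memLp ζ hζ1 hζ.cpt)
  have e2 : ∫ x, ζ x ^ 4 * ∑ i, ‖N i x‖ ^ 2 = a ^ 2 := by
    rw [ha, Real.sq_sqrt]
    exact integral_nonneg fun x => by positivity
  have e3 : ∫ x, K.indicator (fun _ => (1 : ℝ)) x = v := by
    rw [integral_indicator hKm]
    simp [hv, Measure.real]
  -- integration by parts
  set F : Fin 3 → E3 → E3 := fun i x => ζ x ^ 2 • N i x + W x i • gr (fun x => ζ x ^ 2) x with hF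
  have hHF : ∀ i, H1 (fun x => ζ x ^ 2 * W x i) (F i) := fun i =>
    h2.mul _ _ _ _ (hH.h2 i) hz2 hb1 hb2
  have hibp : ∀ i, ∫ x, ζ x ^ 2 * W x i * W x i = -∫ x, F i x i * w x := fun i =>
    h2.ibp _ _ _ _ (hHF i) hH.h1 i
  have j1 : ∀ i, Integrable (fun x => ζ x ^ 2 * W x i * W x i) := fun i =>
    int_mul _ _ (hHF i).memf (memLp_comp W hW i)
  have j2 : ∀ i, Integrable (fun x => F i x i * w x) := fun i =>
    int_mul _ _ (memLp_comp (F i) (hHF i).memG i) hH.h1.memf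
  have hbe : b = ∫ x, -∑ i, F i x i * w x := by
    rw [integral_neg, integral_finsetSum _ fun i _ => j2 i, ← Finset.sum_neg_distrib]
    rw [← Finset.sum_congr rfl fun i _ => hibp i, ← integral_finsetSum _ fun i _ => j1 i, hb]
    congr 1
    ext x
    rw [norm_sq_eq, Finset.mul_sum]
    exact Finset.sum_congr rfl fun i _ => by ring
  set s : ℝ := (1 + a)⁻¹ with hs
  have hs0 : 0 < s := by positivity
  have hmain : b ≤ ∫ x, (3 * s * (ζ x ^ 4 * ∑ i, ‖N i x‖ ^ 2)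
      + s⁻¹ * K.indicator (fun _ => (1 : ℝ)) x
      + (1 / 2 * (ζ x ^ 2 * ‖W x‖ ^ 2) + 8 * ‖gr ζ x‖ ^ 2)) := by
    rw [hbe]
    refine integral_mono_ae (integrable_finsetSum _ fun i _ => j2 i).neg
      (((i2.const_mul _).add (i3.const_mul _)).add ((i1.const_mul _).add (i4.const_mul _))) ?_
    filter_upwards [hw] with x hx
    have := pw (z := ζ x) (w := w x) (s := s) (k := K.indicator (fun _ => (1 : ℝ)) x) (W x)
      (gr ζ x) (fun i => N i x) hs0 (h01 x).1 hx (fun h => by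
        rw [Set.indicator_of_mem (subset_tsupport _ h)])
      (Set.indicator_nonneg (fun _ _ => zero_le_one) _)
    simpa only [hF, hg2] using this
  have hval : ∫ x, (3 * s * (ζ x ^ 4 * ∑ i, ‖N i x‖ ^ 2)
      + s⁻¹ * K.indicator (fun _ => (1 : ℝ)) x
      + (1 / 2 * (ζ x ^ 2 * ‖W x‖ ^ 2) + 8 * ‖gr ζ x‖ ^ 2))
      = 3 * s * a ^ 2 + s⁻¹ * v + (1 / 2 * b + 8 * D) := by
    have k2 : Integrable (fun x => 3 * s * (ζ x ^ 4 * ∑ i, ‖N i x‖ ^ 2)) := i2.const_mul _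
    have k3 : Integrable (fun x => s⁻¹ * K.indicator (fun _ => (1 : ℝ)) x) := i3.const_mul _
    have k1 : Integrable (fun x => 1 / 2 * (ζ x ^ 2 * ‖W x‖ ^ 2)) := i1.const_mul _
    have k4 : Integrable (fun x => 8 * ‖gr ζ x‖ ^ 2) := i4.const_mul _
    have k23 : Integrable (fun x => 3 * s * (ζ x ^ 4 * ∑ i, ‖N i x‖ ^ 2)
      + s⁻¹ * K.indicator (fun _ => (1 : ℝ)) x) := k2.add k3
    have k14 : Integrable (fun x => 1 / 2 * (ζ x ^ 2 * ‖W x‖ ^ 2) + 8 * ‖gr ζ x‖ ^ 2) :=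
      k1.add k4
    rw [integral_add k23 k14, integral_add k2 k3, integral_add k1 k4, integral_const_mul,
      integral_const_mul, integral_const_mul, integral_const_mul, e2, e3]
  rw [hval] at hmain
  have hsa : 3 * s * a ^ 2 ≤ 3 * (1 + a) := by
    have h5 : s * a ^ 2 ≤ 1 + a := by
      rw [hs, inv_mul_le_iff₀ (by positivity)]
      nlinarith
    linarith
  have hsi : s⁻¹ * v = (1 + a) * v := by rw [hs, inv_inv]
  rw [hsi] at hmain
  have h6 : 0 ≤ D * a := mul_nonneg hD0 ha0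
  nlinarith

end Pool.Agent.PFlow.PB
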