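import Pool.Agent.PFlow.StmtsPX
import Pool.Agent.PFlow.P.CCpt

/-!
# Block PX: comparison on a compact set
-/

open MeasureTheory Filter Topology Set
open scoped ContDiff RealInnerProductSpace Manifold

namespace Pool.Agent.PFlow.PB

open Pool.Agent.PenroseSph Pool.Agent.PFlow

theorem xccpt_thm (h1 : API1) (h2 : API2) (hk : XCKEY) : XCCPT := by
  intro A B c L r hP U u G hW hu s hs K f hK hKU hf σ hσ hineq hfr
  by_contra hcon
  push Not at hcon
  obtain ⟨x₀, hx₀K, hx₀⟩ := hcon
  set m : ℝ := s * (f x₀ - u x₀) / 2 with hm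
  have hm0 : 0 < m := by rw [hm]; linarith
  have hfK : ContinuousOn f K := fun x hx => (hf x hx).continuousAt.continuousWithinAt
  -- the set where the difference is large
  set S : Set E3 := K ∩ (fun x => s * (f x - u x)) ⁻¹' Set.Ici m with hS
  have hScl : IsClosed S := by
    refine ContinuousOn.preimage_isClosed_of_isClosed ?_ hK.isClosed isClosed_Ici
    exact continuousOn_const.mul (hfK.sub hu.continuousOn)
  have hSint : S ⊆ interior K := by
    intro x hx
    by_contra hxi
    have h3 : x ∈ frontier K := by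
      rw [hK.isClosed.frontier_eq]
      exact ⟨hx.1, hxi⟩
    have h4 := hfr x h3
    have h5 : m ≤ s * (f x - u x) := hx.2
    linarith
  obtain ⟨ζ, hζ, hζ1, hζt, hζ01⟩ := CCpt.cutoff hScl isOpen_interior hSint
  obtain ⟨ζ₂, hζ₂, hζ₂1, hζ₂t, -⟩ := CCpt.cutoff (isClosed_tsupport ζ) isOpen_interior hζt
  set F : E3 → ℝ := fun x => ζ₂ x * f x with hF
  have hζK : tsupport ζ ⊆ K := hζt.trans interior_subset
  have hζ₂K : tsupport ζ₂ ⊆ K := hζ₂t.trans interior_subset
  have hζc : HasCompactSupport ζ := hK.of_isClosed_subset (isClosed_tsupport _) hζK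
  have hFt : tsupport F ⊆ K := (tsupport_mul_subset_left).trans hζ₂K
  have hFc : HasCompactSupport F := hK.of_isClosed_subset (isClosed_tsupport _) hFt
  have hFs : ContDiff ℝ 2 F := by
    rw [contDiff_iff_contDiffAt]
    intro x
    by_cases hx : x ∈ tsupport ζ₂
    · exact (hζ₂.contDiffAt.of_le (WithTop.coe_le_coe.2 le_top)).mul (hf x (hζ₂K hx))
    · have h3 : ∀ᶠ y in 𝓝 x, ζ₂ y = 0 := notMem_tsupport_iff_eventuallyEq.1 hx
      have h4 : F =ᶠ[𝓝 x] fun _ => (0 : ℝ) := by
        filter_upwards [h3] with y hy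
        rw [hF]
        simp only [hy, zero_mul]
      exact contDiffAt_const.congr_of_eventuallyEq h4
  have hFf : ∀ x ∈ tsupport ζ, F =ᶠ[𝓝 x] f := by
    intro x hx
    filter_upwards [hζ₂1 x hx] with y hy
    rw [hF]
    simp only [hy, one_mul]
  -- the test function
  set v : E3 → ℝ := fun x => ζ x * (s * (F x - u x)) - m * ζ x with hv
  set V : E3 → E3 := fun x => (ζ x • (s • (gr F x - G x)) + (s * (F x - u x)) • gr ζ x) -
    m • gr ζ x with hV
  have hgc : Continuous (gr ζ) := h1.gr_cont ζ (hζ.of_le (by simp))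
  obtain ⟨C, hC⟩ := (CCpt.gr_cpt hK hζK).exists_bound_of_continuous hgc
  have hTζ : Test ζ := ⟨hζ, hζc⟩
  have hH : H1 v V := by
    have a1 := h2.ofC1 F (hFs.of_le (by norm_num)) hFc
    have a2 := h1.smul s _ _ (h1.sub _ _ _ _ a1 hW.1)
    have a3 := h2.mul _ _ ζ (max C 1) a2 (hζ.of_le (by simp))
      (fun x => by
        rw [abs_of_nonneg (hζ01 x).1]
        exact (hζ01 x).2.trans (le_max_right _ _))
      (fun x => (hC x).trans (le_max_left _ _))
    exact h1.sub _ _ _ _ a3 (h1.smul m _ _ (h1.ofTest ζ hTζ))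
  have hvc : Continuous v :=
    (hζ.continuous.mul (continuous_const.mul (hFs.continuous.sub hu))).sub
      (continuous_const.mul hζ.continuous)
  have hvcs : HasCompactSupport v := by
    refine HasCompactSupport.intro hK fun x hx => ?_
    have : ζ x = 0 := image_eq_zero_of_notMem_tsupport fun h' => hx (hζK h')
    rw [hv]
    simp only [this, zero_mul, mul_zero, sub_zero]
  obtain ⟨T', hT'⟩ := hvcs.exists_bound_of_continuous hvc
  -- where `v` is positive
  have hpos : ∀ x, 0 < v x → x ∈ S ∧ x ∈ tsupport ζ := by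
    intro x hx
    have h3 : ζ x * (s * (F x - u x) - m) = v x := by rw [hv]; ring
    rw [← h3] at hx
    have hζ0 : 0 < ζ x := by
      rcases (hζ01 x).1.eq_or_lt with h4 | h4
      · rw [← h4, zero_mul] at hx
        exact absurd hx (lt_irrefl 0)
      · exact h4
    have h5 : 0 < s * (F x - u x) - m := (mul_pos_iff_of_pos_left hζ0).1 hx
    have h6 : x ∈ tsupport ζ := subset_tsupport _ hζ0.ne'
    have h7 : F x = f x := (hFf x h6).eq_of_nhds
    rw [h7] at h5
    exact ⟨⟨hζK h6, show m ≤ s * (f x - u x) by linarith⟩, h6⟩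
  have hle := hk A B c L r hP u G hW.1 s hs F hFs (CCpt.gr_cpt hK hFt) v V hH T'
    (Eventually.of_forall hT')
    (fun φ Φ hφ hφv => hW.2 φ Φ hφ ⟨K, hK, hKU, by
      filter_upwards [hφv] with x hx hxK
      refine hx (not_lt.1 fun h => ?_)
      exact hxK (hpos x h).1.1⟩)
    (Eventually.of_forall fun x hx => by
      obtain ⟨h3, -⟩ := hpos x hx
      have h4 := hζ1 x h3
      rw [hV]
      simp only [CCpt.gr_const h4, h4.self_of_nhds, one_smul, smul_zero, add_zero, sub_zero])
    σ hσ
    (Eventually.of_forall fun x hx => by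
      obtain ⟨h3, h4⟩ := hpos x hx
      have h5 := hFf x h4
      have h6 : 0 < s * (f x - u x) := lt_of_lt_of_le hm0 h3.2
      have h7 := hineq x h3.1 h6
      rw [CCpt.gr_congr h5]
      have h8 : (fun i => PB.hs F i x) = fun i => PB.hs f i x :=
        funext fun i => CCpt.hs_congr h5 i
      rw [h8]
      exact h7)
  -- contradiction at `x₀`
  have hx₀S : x₀ ∈ S := ⟨hx₀K, show m ≤ s * (f x₀ - u x₀) by linarith⟩
  have hx₀ζ : ζ x₀ = 1 := (hζ1 x₀ hx₀S).self_of_nhds
  have hx₀t : x₀ ∈ tsupport ζ := subset_tsupport _ (by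
    rw [Function.mem_support, hx₀ζ]; exact one_ne_zero)
  have hx₀F : F x₀ = f x₀ := (hFf x₀ hx₀t).eq_of_nhds
  have hvx₀ : 0 < v x₀ := by
    rw [hv]
    simp only [hx₀ζ, hx₀F]
    linarith
  have hopen : IsOpen {x | 0 < v x} := isOpen_lt continuous_const hvc
  have hmeas := hopen.measure_pos volume ⟨x₀, hvx₀⟩
  have hzero : volume {x | 0 < v x} = 0 := by
    have h9 : {x | 0 < v x} = {x | ¬ v x ≤ 0} := by
      ext x
      simp
    rw [h9]
    exact hle
  rw [hzero] at hmeas
  exact absurd hmeas (lt_irrefl _)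

end Pool.Agent.PFlow.PB
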