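import Pool.Agent.PFlow.StmtsPX
import Pool.Agent.PFlow.P.CKey

/-!
# XCKEY: the main comparison lemma, without a penalty term
-/

open MeasureTheory Filter Topology Set
open scoped ContDiff RealInnerProductSpace

namespace Pool.Agent.PFlow.PB

open Pool.Agent.PenroseSph Pool.Agent.PFlow

open CKEYP in
/-- XCKEY: the main comparison lemma. -/
theorem xckey_thm (_h1 : API1) (h2 : API2) (hc : CHAIN) : XCKEY := by
  intro A B c L r hP u G hu s hs f hf hfc v V hv T' hT' hsol hV σ hσ hσv
  have hcpos := hP.c_pos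
  set β : ℝ := L ^ 2 / (2 * c * σ) with hβ
  have hβ0 : 0 ≤ β := by positivity
  have hs2 : s * s = 1 := by rcases hs with rfl | rfl <;> norm_num
  -- the test function
  have hφ : H1 (fun x => psi β (v x)) (fun x => deriv (psi β) (v x) • V x) :=
    hc.bdd v V (psi β) T' hv hT' (contDiff_psi β) (psi_of_nonpos β le_rfl)
  have hd : ∀ t, deriv (psi β) t = psi' β t := fun t => (hasDerivAt_psi β t).deriv
  simp only [hd] at hφ
  set φ : E3 → ℝ := fun x => psi β (v x) with hφdef
  set Φ : E3 → E3 := fun x => psi' β (v x) • V x with hΦdef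
  have e1 := hsol φ Φ hφ (ae_of_all _ fun x hx => psi_of_nonpos β hx)
  -- the field
  set X : E3 → E3 := fun x => A x (gr f x) with hX
  have hXd : ContDiff ℝ 1 X := contDiff_field hP.smoothA hf
  have hXc : HasCompactSupport X := by
    refine hfc.mono fun x hx => ?_
    rw [Function.mem_support] at hx ⊢
    intro h
    apply hx
    rw [hX]
    show A x (gr f x) = 0
    rw [h, hP.A_zero]
  have e2 := h2.ibpv X hXd hXc φ Φ hφ
  have hdvc : Continuous (dv X) := by
    have h := hXd.continuous_fderiv (by norm_num)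
    unfold dv
    refine continuous_finsetSum _ fun i _ => ?_
    exact (EuclideanSpace.proj i : E3 →L[ℝ] ℝ).continuous.comp (h.clm_apply continuous_const)
  have hdvs : HasCompactSupport (dv X) := by
    refine (hXc.fderiv ℝ).mono fun x hx => ?_
    rw [Function.mem_support] at hx ⊢
    intro h
    apply hx
    unfold dv
    refine Finset.sum_eq_zero fun i _ => ?_
    rw [h]
    rfl
  -- integrability
  have m1 : MemLp X 2 := hXd.continuous.memLp_of_hasCompactSupport hXc
  have m2 : MemLp (dv X) 2 := hdvc.memLp_of_hasCompactSupport hdvs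
  have m3 := memLp_A hP hu.memG
  have m4 := memLp_B hP hu.memG
  have i1 : Integrable (fun x => ⟪X x, Φ x⟫) := integrable_inner m1 hφ.memG
  have i2 : Integrable (fun x => ⟪A x (G x), Φ x⟫) := integrable_inner m3 hφ.memG
  have i3 : Integrable (fun x => dv X x * φ x) := m2.integrable_mul hφ.memf
  have i4 : Integrable (fun x => B x (G x) * φ x) := m4.integrable_mul hφ.memf
  -- the function with integral zero
  set P : E3 → ℝ := fun x => s * ((⟪X x, Φ x⟫ - ⟪A x (G x), Φ x⟫) +
    (dv X x * φ x + B x (G x) * φ x)) with hPdef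
  have iP : Integrable P := ((i1.sub i2).add (i3.add i4)).const_mul s
  have hP0 : ∫ x, P x = 0 := by
    have j1 : ∫ x, (⟪X x, Φ x⟫ - ⟪A x (G x), Φ x⟫) =
        (∫ x, ⟪X x, Φ x⟫) - ∫ x, ⟪A x (G x), Φ x⟫ := integral_sub i1 i2
    have j2 : ∫ x, (dv X x * φ x + B x (G x) * φ x) =
        (∫ x, dv X x * φ x) + ∫ x, B x (G x) * φ x := integral_add i3 i4
    have j3 : ∫ x, ((⟪X x, Φ x⟫ - ⟪A x (G x), Φ x⟫) +
        (dv X x * φ x + B x (G x) * φ x)) =
        (∫ x, (⟪X x, Φ x⟫ - ⟪A x (G x), Φ x⟫)) +
        ∫ x, (dv X x * φ x + B x (G x) * φ x) :=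
      integral_add (i1.sub i2) (i3.add i4)
    rw [hPdef, integral_const_mul, j3, j1, j2, e1, e2]
    ring
  -- the pointwise inequality
  have hpt : ∀ᵐ x, σ / 2 * φ x ≤ P x := by
    filter_upwards [hV, hσv] with x hVx hσx
    rcases le_or_gt (v x) 0 with h | h
    · have h3 : φ x = 0 := psi_of_nonpos β h
      have h4 : Φ x = 0 := by
        rw [hΦdef]
        show psi' β (v x) • V x = 0
        rw [psi'_of_nonpos β h, zero_smul]
      rw [hPdef]
      show σ / 2 * φ x ≤ s * ((⟪X x, Φ x⟫ - ⟪A x (G x), Φ x⟫) +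
        (dv X x * φ x + B x (G x) * φ x))
      rw [h3, h4, inner_zero_right, inner_zero_right]
      simp
    · have hVx := hVx h
      have hσx := hσx h
      have h0 : 0 ≤ φ x := psi_nonneg β _
      have h3 : Φ x = psi' β (v x) • (s • (gr f x - G x)) := by
        rw [hΦdef]
        show psi' β (v x) • V x = _
        rw [hVx]
      have h4 : s * (⟪X x, Φ x⟫ - ⟪A x (G x), Φ x⟫) =
          psi' β (v x) * ⟪A x (gr f x) - A x (G x), gr f x - G x⟫ := by
        rw [← inner_sub_left, h3, inner_smul_right, inner_smul_right]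
        calc s * (psi' β (v x) * (s * ⟪A x (gr f x) - A x (G x), gr f x - G x⟫)) =
            (s * s) * (psi' β (v x) * ⟪A x (gr f x) - A x (G x), gr f x - G x⟫) := by ring
          _ = _ := by rw [hs2, one_mul]
      have h5 := hP.mono x (gr f x) (G x)
      have h6 : |s * (B x (gr f x) - B x (G x))| ≤ L * ‖gr f x - G x‖ := by
        rw [abs_mul]
        have : |s| = 1 := by rcases hs with rfl | rfl <;> simp
        rw [this, one_mul]
        exact hP.lipB x _ _
      have h7 := (abs_le.1 h6).2
      have h8 := psi'_ge β (v x)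
      have h9 : 0 ≤ psi' β (v x) := le_trans (mul_nonneg hβ0 (psi_nonneg β _)) h8
      rw [← dv_field hP.smoothA hf x] at hσx
      show σ / 2 * φ x ≤ s * ((⟪X x, Φ x⟫ - ⟪A x (G x), Φ x⟫) +
        (dv X x * φ x + B x (G x) * φ x))
      rw [mul_add, h4]
      set d := ‖gr f x - G x‖ with hd'
      have f1 : c * d ^ 2 * (β * φ x) ≤
          psi' β (v x) * ⟪A x (gr f x) - A x (G x), gr f x - G x⟫ := by
        calc c * d ^ 2 * (β * φ x) ≤ c * d ^ 2 * psi' β (v x) :=
              mul_le_mul_of_nonneg_left h8 (by positivity)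
          _ ≤ ⟪A x (gr f x) - A x (G x), gr f x - G x⟫ * psi' β (v x) :=
              mul_le_mul_of_nonneg_right h5 h9
          _ = _ := mul_comm _ _
      have f2 : (σ - L * d) * φ x ≤
          s * (dv X x * φ x + B x (G x) * φ x) := by
        have : s * (dv X x * φ x + B x (G x) * φ x) =
            (s * (dv X x + B x (gr f x)) - s * (B x (gr f x) - B x (G x))) * φ x := by ring
        rw [this]
        refine mul_le_mul_of_nonneg_right ?_ h0
        linarith
      have f3 : σ / 2 ≤ c * d ^ 2 * β + (σ - L * d) := by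
        have : c * d ^ 2 * β + (σ - L * d) - σ / 2 = (L * d - σ) ^ 2 / (2 * σ) := by
          rw [hβ]
          field_simp
          ring
        have h10 : 0 ≤ (L * d - σ) ^ 2 / (2 * σ) := by positivity
        linarith
      calc σ / 2 * φ x ≤ (c * d ^ 2 * β + (σ - L * d)) * φ x :=
            mul_le_mul_of_nonneg_right f3 h0
        _ = c * d ^ 2 * (β * φ x) + (σ - L * d) * φ x := by ring
        _ ≤ _ := add_le_add f1 f2
  have hPnn : 0 ≤ᵐ[volume] P := by
    filter_upwards [hpt] with x hx
    have : 0 ≤ σ / 2 * φ x := mul_nonneg (by linarith) (psi_nonneg β _)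
    exact this.trans hx
  have hPz := (integral_eq_zero_iff_of_nonneg_ae hPnn iP).1 hP0
  filter_upwards [hpt, hPz] with x hx hz
  by_contra h
  push Not at h
  have h3 : 0 < φ x := psi_pos β h
  have h4 : P x = 0 := hz
  rw [h4] at hx
  have h5 : 0 < σ / 2 * φ x := by positivity
  linarith

end Pool.Agent.PFlow.PB
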