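import Pool.Agent.PFlow.StmtsPX

/-!
# XCML: comparison for the limit, up to the boundary
-/

open MeasureTheory Filter Topology Set
open scoped ContDiff RealInnerProductSpace

namespace Pool.Agent.PFlow.PB

open Pool.Agent.PenroseSph Pool.Agent.PFlow

namespace PXCmL

/-- An inequality which holds almost everywhere on an open set holds everywhere on it. -/
lemma ae_open {U : Set E3} (hU : IsOpen U) {k : E3 → ℝ} (hk : ContinuousOn k U)
    (h : ∀ᵐ x : E3, x ∈ U → k x ≤ 0) : ∀ x ∈ U, k x ≤ 0 := by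
  intro x hx
  by_contra hc
  push Not at hc
  have h1 : {y | 0 < k y} ∈ 𝓝 x :=
    (hk.continuousAt (hU.mem_nhds hx)).eventually_const_lt hc
  have h2 : {y | 0 < k y} ∩ U ∈ 𝓝 x := inter_mem h1 (hU.mem_nhds hx)
  obtain ⟨W, hW1, hW2, hW3⟩ := mem_nhds_iff.mp h2
  have h3 : (volume : Measure E3) W = 0 := by
    refine measure_mono_null (fun y hy => ?_) (ae_iff.mp h)
    intro hcon
    have h4 := hW1 hy
    have h5 := hcon h4.2
    have h6 : 0 < k y := h4.1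
    linarith
  exact (hW2.measure_pos volume ⟨x, hW3⟩).ne' h3

/-- From the open set `1 < |x| < b` to `|x| = 1`. -/
lemma closure_one {b : ℝ} (hb : 1 < b) {k : E3 → ℝ}
    (hk : ∀ x : E3, 1 ≤ ‖x‖ → ‖x‖ < b → ContinuousAt k x)
    (h : ∀ x : E3, 1 < ‖x‖ → ‖x‖ < b → k x ≤ 0) : ∀ x : E3, 1 ≤ ‖x‖ → ‖x‖ < b → k x ≤ 0 := by
  intro x hx1 hx2
  rcases hx1.lt_or_eq with h1 | h1
  · exact h x h1 hx2
  · have hc : Tendsto (fun t : ℝ => k (t • x)) (𝓝[>] 1) (𝓝 (k x)) := by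
      have e1 : Tendsto (fun t : ℝ => t • x) (𝓝[>] 1) (𝓝 x) := by
        have e2 : Tendsto (fun t : ℝ => t • x) (𝓝 1) (𝓝 ((1 : ℝ) • x)) :=
          (continuous_id.smul continuous_const).tendsto 1
        rw [one_smul] at e2
        exact e2.mono_left nhdsWithin_le_nhds
      exact (hk x hx1 hx2).tendsto.comp e1
    refine le_of_tendsto hc ?_
    have e3 : ∀ᶠ t : ℝ in 𝓝[>] 1, t < b := by
      exact nhdsWithin_le_nhds (Iio_mem_nhds hb)
    have e4 : ∀ᶠ t : ℝ in 𝓝[>] 1, 1 < t := self_mem_nhdsWithin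
    filter_upwards [e3, e4] with t h3 h4
    have e5 : ‖t • x‖ = t := by
      rw [norm_smul, ← h1, mul_one, Real.norm_of_nonneg (by linarith)]
    exact h _ (by rw [e5]; exact h4) (by rw [e5]; exact h3)

lemma compS (b : ℝ) : IsCompact {x : E3 | 1 ≤ ‖x‖ ∧ ‖x‖ ≤ b} := by
  have h1 : IsClosed {x : E3 | 1 ≤ ‖x‖ ∧ ‖x‖ ≤ b} :=
    (isClosed_le continuous_const continuous_norm).inter
      (isClosed_le continuous_norm continuous_const)
  refine (isCompact_closedBall (0 : E3) b).of_isClosed_subset h1 (fun x hx => ?_)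
  rw [Metric.mem_closedBall, dist_zero_right]
  exact hx.2

lemma key (hb : BRID) (hc : XCMP) {ε R : ℝ} {g h : TensorField} {w₀ : E3 → ℝ} {δ κ : ℕ → ℝ}
    {u : ℕ → E3 → ℝ} {G : ℕ → E3 → E3} {v : ℕ → E3 → ℝ} {V : ℕ → E3 → E3}
    {M : ℕ → Fin 3 → E3 → E3} {C : ℝ} {w : E3 → ℝ} {F : E3 → E3} {N : Fin 3 → E3 → E3}
    (H : LimX ε R g h w₀ δ κ u G v V M C w F N) (s : ℝ) (hs1 : s = 1 ∨ s = -1)
    (f : E3 → ℝ) (hf : ∀ x : E3, 1 ≤ ‖x‖ → ‖x‖ ≤ 2 * R → ContDiffAt ℝ 2 f x)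
    (σ δ₀ : ℝ) (hσ : 0 < σ) (hδ₀ : 0 < δ₀)
    (hop : ∀ δ κ : ℝ, 0 < δ → δ ≤ δ₀ → 0 < κ → κ ≤ δ₀ → ∀ x : E3, 1 ≤ ‖x‖ → ‖x‖ ≤ 2 * R →
      σ ≤ s * (opL ε δ κ g x (grad f x) (hess2 f x) + cB ε δ g h x (vec (grad f x))))
    (h1 : ∀ x : E3, ‖x‖ = 1 → s * (f x - 1) ≤ 0) (h2 : ∀ x : E3, ‖x‖ = 2 * R → s * f x ≤ 0) :
    ∀ x : E3, 1 ≤ ‖x‖ → ‖x‖ < R → s * (f x - w x) ≤ 0 := by
  have hR8 := H.hR
  have hR0 : 0 < R / 2 := by linarith
  have e1 : ∀ᶠ n in atTop, δ n < δ₀ := H.δ_tend.eventually_lt_const hδ₀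
  have e2 : ∀ᶠ n in atTop, κ n < δ₀ := H.κ_tend.eventually_lt_const hδ₀
  have hstep : ∀ n, δ n < δ₀ → κ n < δ₀ →
      ∀ᵐ x : E3, 1 ≤ ‖x‖ → ‖x‖ < R → s * (f x - v n x) ≤ 0 := by
    intro n hn1 hn2
    obtain ⟨c, L, hP⟩ := hb.coef ε (δ n) (κ n) g h (R / 2) H.eps_pos H.eps_lt (H.δ_pos n)
      (H.κ_pos n) hR0 H.data
    have m1 := hc _ _ c L (R / 2) hP (2 * R) w₀ (by linarith) H.test H.w₀_in H.w₀_out
      (u n) (G n) (H.sol n) (H.bdd n) s hs1 f hf σ hσ ?_ h1 h2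
    · filter_upwards [m1, H.out n] with x k1 k2 k3 k4
      rw [k2 k3 (by linarith)]
      exact k1 k3 (by linarith)
    · intro y hy1 hy2
      obtain ⟨j1, j2⟩ := hb.jet f y (hf y hy1 hy2)
      rw [hb.op ε (δ n) (κ n) g h (R / 2) H.eps_pos H.eps_lt (H.δ_pos n) (H.κ_pos n) H.data,
        j1, j2]
      have h5 := hop (δ n) (κ n) (H.δ_pos n) hn1.le (H.κ_pos n) hn2.le y hy1 hy2
      have h7 : (vec (grad f y)).ofLp = grad f y := rfl
      rw [h7]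
      exact h5
  have hlim : ∀ x : E3, Tendsto (fun n => v n x) atTop (𝓝 (w x)) := fun x =>
    (H.unif {x} isCompact_singleton).tendsto_at (mem_singleton x)
  have hae : ∀ᵐ x : E3, ∀ n, δ n < δ₀ → κ n < δ₀ → 1 ≤ ‖x‖ → ‖x‖ < R →
      s * (f x - v n x) ≤ 0 := by
    rw [ae_all_iff]
    intro n
    by_cases k1 : δ n < δ₀
    · by_cases k2 : κ n < δ₀
      · filter_upwards [hstep n k1 k2] with x hx _ _ k3 k4
        exact hx k3 k4
      · exact Eventually.of_forall fun x _ k => absurd k k2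
    · exact Eventually.of_forall fun x k => absurd k k1
  have hae2 : ∀ᵐ x : E3, 1 ≤ ‖x‖ → ‖x‖ < R → s * (f x - w x) ≤ 0 := by
    filter_upwards [hae] with x hx k3 k4
    have t1 : Tendsto (fun n => s * (f x - v n x)) atTop (𝓝 (s * (f x - w x))) :=
      (tendsto_const_nhds.sub (hlim x)).const_mul s
    refine le_of_tendsto t1 ?_
    filter_upwards [e1, e2] with n k1 k2
    exact hx n k1 k2 k3 k4
  have hcont : ∀ x : E3, 1 ≤ ‖x‖ → ‖x‖ < R → ContinuousAt (fun x => s * (f x - w x)) x := by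
    intro x k1 k2
    exact continuousAt_const.mul
      (((hf x k1 (by linarith)).continuousAt).sub H.contw.continuousAt)
  have hopen : IsOpen {x : E3 | 1 < ‖x‖ ∧ ‖x‖ < R} :=
    (isOpen_lt continuous_const continuous_norm).inter
      (isOpen_lt continuous_norm continuous_const)
  refine closure_one (by linarith : (1 : ℝ) < R) hcont ?_
  intro x k1 k2
  refine ae_open hopen (fun y hy => (hcont y hy.1.le hy.2).continuousWithinAt) ?_ x ⟨k1, k2⟩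
  filter_upwards [hae2] with y hy hy2
  exact hy hy2.1.le hy2.2

end PXCmL

open PXCmL in
/-- XCML: comparison for the limit, up to the boundary. -/
theorem xcml_thm (hb : BRID) (hc : XCMP) (hk : KPOS) : XCML := by
  intro ε R g h w₀ δ κ u G v V M C w F N H f
  constructor
  · intro hpos h1 h2 x hx1 hx2
    obtain ⟨σ, δ₀, hσ, hδ₀, hop⟩ :=
      (hk ε g h (R / 2) H.eps_pos H.eps_lt H.data {x : E3 | 1 ≤ ‖x‖ ∧ ‖x‖ ≤ 2 * R} f
        (compS (2 * R)) (fun y hy => (hpos y hy.1 hy.2).1)).1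
        (fun y hy => (hpos y hy.1 hy.2).2)
    have main := key hb hc H 1 (Or.inl rfl) f (fun y k1 k2 => (hpos y k1 k2).1) σ δ₀ hσ hδ₀
      ?_ ?_ ?_ x hx1 hx2
    · linarith
    · intro δ' κ' k1 k2 k3 k4 y l1 l2
      rw [one_mul]
      exact hop δ' κ' k1 k2 k3 k4 y ⟨l1, l2⟩
    · intro y hy
      have := h1 y hy
      linarith
    · intro y hy
      have := h2 y hy
      linarith
  · intro hneg h1 h2 x hx1 hx2
    obtain ⟨σ, δ₀, hσ, hδ₀, hop⟩ :=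
      (hk ε g h (R / 2) H.eps_pos H.eps_lt H.data {x : E3 | 1 ≤ ‖x‖ ∧ ‖x‖ ≤ 2 * R} f
        (compS (2 * R)) (fun y hy => (hneg y hy.1 hy.2).1)).2
        (fun y hy => (hneg y hy.1 hy.2).2)
    have main := key hb hc H (-1) (Or.inr rfl) f (fun y k1 k2 => (hneg y k1 k2).1) σ δ₀ hσ hδ₀
      ?_ ?_ ?_ x hx1 hx2
    · linarith
    · intro δ' κ' k1 k2 k3 k4 y l1 l2
      have := hop δ' κ' k1 k2 k3 k4 y ⟨l1, l2⟩
      linarith
    · intro y hy
      have := h1 y hy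
      linarith
    · intro y hy
      have := h2 y hy
      linarith

end Pool.Agent.PFlow.PB
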