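import Pool.Agent.PFlow.StmtsPX

/-!
# Block PX, module XCMP: comparison up to the boundary
-/

open MeasureTheory Filter Topology Set
open scoped ContDiff RealInnerProductSpace Manifold

namespace Pool.Agent.PFlow.PB

open Pool.Agent.PenroseSph Pool.Agent.PFlow

namespace PXCmp

/-- Smooth cutoff functions. -/
lemma cutoff {S O : Set E3} (hS : IsClosed S) (hO : IsOpen O) (hSO : S ⊆ O) :
    ∃ ζ : E3 → ℝ, ContDiff ℝ ∞ ζ ∧ (∀ x ∈ S, ∀ᶠ y in 𝓝 x, ζ y = 1) ∧ tsupport ζ ⊆ O ∧
      ∀ x, 0 ≤ ζ x ∧ ζ x ≤ 1 := by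
  obtain ⟨ζ, h0, h1, h2⟩ := exists_contMDiffMap_zero_one_nhds_of_isClosed (n := ⊤)
    (𝓘(ℝ, E3)) hO.isClosed_compl hS (by
      rw [Set.disjoint_left]
      exact fun x hx hxS => hx (hSO hxS))
  refine ⟨ζ, ζ.contMDiff.contDiff, fun x hx => ?_, fun x hx => ?_, fun x => h2 x⟩
  · exact h1.filter_mono (nhds_le_nhdsSet hx)
  · by_contra hxO
    have h3 : ∀ᶠ y in 𝓝 x, ζ y = 0 := h0.filter_mono (nhds_le_nhdsSet hxO)
    exact (notMem_tsupport_iff_eventuallyEq.2 h3) hx

lemma pd_congr {f g : E3 → ℝ} {x : E3} (h : f =ᶠ[𝓝 x] g) (i : Fin 3) :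
    pd i f =ᶠ[𝓝 x] pd i g := by
  filter_upwards [h.fderiv (𝕜 := ℝ)] with y hy
  unfold pd
  rw [hy]

lemma gr_congr {f g : E3 → ℝ} {x : E3} (h : f =ᶠ[𝓝 x] g) : gr f x = gr g x := by
  unfold gr
  congr 1
  funext i
  exact (pd_congr h i).eq_of_nhds

lemma hs_congr {f g : E3 → ℝ} {x : E3} (h : f =ᶠ[𝓝 x] g) (i : Fin 3) : hs f i x = hs g i x :=
  gr_congr (pd_congr h i)

lemma gr_const {f : E3 → ℝ} {x : E3} {c : ℝ} (h : ∀ᶠ y in 𝓝 x, f y = c) : gr f x = 0 := by
  have h1 : f =ᶠ[𝓝 x] fun _ => c := h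
  rw [gr_congr h1]
  unfold gr pd
  ext i
  simp

lemma gr_cpt {f : E3 → ℝ} (hf : HasCompactSupport f) : HasCompactSupport (gr f) := by
  refine HasCompactSupport.intro hf.isCompact fun x hx => ?_
  exact gr_const (c := 0) (notMem_tsupport_iff_eventuallyEq.1 hx)

/-- The truncation `S(4t/τ - 1)(t - τ)`. -/
noncomputable def psi (τ t : ℝ) : ℝ := Real.smoothTransition (4 * t / τ - 1) * (t - τ)

lemma psi_smooth (τ : ℝ) : ContDiff ℝ 1 (psi τ) := by
  unfold psi
  refine ContDiff.mul ?_ (contDiff_id.sub contDiff_const)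
  refine Real.smoothTransition.contDiff.comp ?_
  exact ((contDiff_const.mul contDiff_id).div_const _).sub contDiff_const

lemma psi_low {τ t : ℝ} (hτ : 0 < τ) (ht : t ≤ τ / 4) : psi τ t = 0 := by
  unfold psi
  rw [Real.smoothTransition.zero_of_nonpos, zero_mul]
  have : 4 * t / τ ≤ 1 := by
    rw [div_le_one hτ]
    linarith
  linarith

lemma psi_high {τ t : ℝ} (hτ : 0 < τ) (ht : τ / 2 ≤ t) : psi τ t = t - τ := by
  unfold psi
  rw [Real.smoothTransition.one_of_one_le, one_mul]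
  have : 2 ≤ 4 * t / τ := by
    rw [le_div_iff₀ hτ]
    linarith
  linarith

lemma psi_abs (τ t : ℝ) : |psi τ t| ≤ |t| + |τ| := by
  unfold psi
  rw [abs_mul, abs_of_nonneg (Real.smoothTransition.nonneg _)]
  calc Real.smoothTransition (4 * t / τ - 1) * |t - τ| ≤ 1 * |t - τ| :=
        mul_le_mul_of_nonneg_right (Real.smoothTransition.le_one _) (abs_nonneg _)
    _ = |t - τ| := one_mul _
    _ ≤ |t| + |τ| := by
        have := abs_add_le t (-τ)
        rw [abs_neg] at this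
        exact this

lemma psi_pos {τ t : ℝ} (h : 0 < psi τ t) : τ < t := by
  by_contra hcon
  push Not at hcon
  have : psi τ t ≤ 0 := by
    unfold psi
    exact mul_nonpos_of_nonneg_of_nonpos (Real.smoothTransition.nonneg _) (by linarith)
  linarith

lemma psi_deriv {τ t : ℝ} (hτ : 0 < τ) (ht : τ < t) : deriv (psi τ) t = 1 := by
  have h1 : psi τ =ᶠ[𝓝 t] fun t => t - τ := by
    filter_upwards [lt_mem_nhds (show τ / 2 < t by linarith)] with y hy
    exact psi_high hτ hy.le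
  rw [h1.deriv_eq]
  simp

end PXCmp

open PXCmp

/-- XCMP. -/
theorem xcmp_thm (h1 : API1) (h2 : API2) (hc : CHAIN) (hk : XCKEY) : XCMP := by
  intro A B c L r hP b w₀ hb hw₀ hw1 hw2 u G hW hu01 s hs f hf σ hσ hineq hf1 hfb
  -- it is enough to prove the inequality up to `τ`
  suffices key : ∀ τ : ℝ, 0 < τ → ∀ᵐ x : E3, 1 ≤ ‖x‖ → ‖x‖ ≤ b → s * (f x - u x) ≤ τ by
    have h3 : ∀ᵐ x : E3, ∀ n : ℕ, 1 ≤ ‖x‖ → ‖x‖ ≤ b → s * (f x - u x) ≤ 1 / ((n : ℝ) + 1) :=
      ae_all_iff.2 fun n => key _ (by positivity)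
    filter_upwards [h3] with x hx hx1 hx2
    exact ge_of_tendsto' tendsto_one_div_add_atTop_nhds_zero_nat fun n => hx n hx1 hx2
  intro τ hτ
  have hs1 : |s| = 1 := by rcases hs with rfl | rfl <;> simp
  have hw₀c : Continuous w₀ := hw₀.smooth.continuous
  set S : Set E3 := {x : E3 | 1 ≤ ‖x‖ ∧ ‖x‖ ≤ b} with hS
  have hScl : IsClosed S :=
    (isClosed_le continuous_const continuous_norm).inter
      (isClosed_le continuous_norm continuous_const)
  -- the open set where `f` is of class `C²`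
  set W : Set E3 := {x : E3 | ContDiffAt ℝ 2 f x} with hWdef
  have hWo : IsOpen W := by
    rw [isOpen_iff_mem_nhds]
    intro x hx
    exact (show ContDiffAt ℝ 2 f x from hx).eventually (by simp)
  have hfW : ContinuousOn f W := fun x hx =>
    (show ContDiffAt ℝ 2 f x from hx).continuousAt.continuousWithinAt
  set O₁ : Set E3 := {x : E3 | 1 < ‖x‖ ∧ ‖x‖ < b} with hO₁
  have hO₁o : IsOpen O₁ :=
    (isOpen_lt continuous_const continuous_norm).inter (isOpen_lt continuous_norm continuous_const)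
  set O₂ : Set E3 := W ∩ (fun x => s * (f x - w₀ x)) ⁻¹' Set.Iio (τ / 4) with hO₂
  have hO₂o : IsOpen O₂ :=
    (continuousOn_const.mul (hfW.sub hw₀c.continuousOn)).isOpen_inter_preimage hWo isOpen_Iio
  set W' : Set E3 := (W ∩ (O₁ ∪ O₂)) ∩ Metric.ball 0 (b + 1) with hW'
  have hW'o : IsOpen W' := (hWo.inter (hO₁o.union hO₂o)).inter Metric.isOpen_ball
  have hSW' : S ⊆ W' := by
    rintro x ⟨hx1, hx2⟩
    have hxW : x ∈ W := hf x hx1 hx2
    refine ⟨⟨hxW, ?_⟩, ?_⟩
    · rcases hx1.eq_or_lt with h3 | h3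
      · right
        refine ⟨hxW, ?_⟩
        show s * (f x - w₀ x) < τ / 4
        rw [hw1 x h3.symm.le]
        linarith [hf1 x h3.symm]
      · rcases hx2.eq_or_lt with h4 | h4
        · right
          refine ⟨hxW, ?_⟩
          show s * (f x - w₀ x) < τ / 4
          rw [hw2 x h4.symm.le, sub_zero]
          linarith [hfb x h4]
        · left
          exact ⟨h3, h4⟩
    · rw [mem_ball_zero_iff]
      linarith
  have hW'Z : ∀ x ∈ W', x ∈ ZS b → s * (f x - w₀ x) < τ / 4 := by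
    rintro x ⟨⟨-, h3⟩, -⟩ hxZ
    rcases h3 with h3 | h3
    · exfalso
      rcases hxZ with h4 | h4
      · linarith [h3.1]
      · linarith [h3.2]
    · exact h3.2
  obtain ⟨ζ, hζ, hζ1, hζt, hζ01⟩ := cutoff hScl hW'o hSW'
  have hζball : tsupport ζ ⊆ Metric.closedBall (0 : E3) (b + 1) :=
    hζt.trans (inter_subset_right.trans Metric.ball_subset_closedBall)
  have hζc : HasCompactSupport ζ :=
    (isCompact_closedBall _ _).of_isClosed_subset (isClosed_tsupport _) hζball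
  have hζW : tsupport ζ ⊆ W := fun x hx => (hζt hx).1.1
  -- the comparison function
  set F : E3 → ℝ := fun x => w₀ x + ζ x * (f x - w₀ x) with hF
  have hmulc : HasCompactSupport (fun x => ζ x * (f x - w₀ x)) := hζc.mul_right
  have hFc : HasCompactSupport F := hw₀.cpt.add hmulc
  have hFs : ContDiff ℝ 2 F := by
    rw [contDiff_iff_contDiffAt]
    intro x
    have hw₀2 : ContDiffAt ℝ 2 w₀ x := hw₀.smooth.contDiffAt.of_le (WithTop.coe_le_coe.2 le_top)
    by_cases hx : x ∈ tsupport ζ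
    · exact hw₀2.add ((hζ.contDiffAt.of_le (WithTop.coe_le_coe.2 le_top)).mul
        ((show ContDiffAt ℝ 2 f x from hζW hx).sub hw₀2))
    · have h3 : ∀ᶠ y in 𝓝 x, ζ y = 0 := notMem_tsupport_iff_eventuallyEq.1 hx
      have h4 : F =ᶠ[𝓝 x] w₀ := by
        filter_upwards [h3] with y hy
        rw [hF]
        simp only [hy, zero_mul, add_zero]
      exact hw₀2.congr_of_eventuallyEq h4
  have hFf : ∀ x ∈ S, F =ᶠ[𝓝 x] f := by
    intro x hx
    filter_upwards [hζ1 x hx] with y hy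
    rw [hF]
    simp only [hy, one_mul]
    ring
  have hFZ : ∀ x ∈ ZS b, s * (F x - w₀ x) ≤ τ / 4 := by
    intro x hx
    have h3 : s * (F x - w₀ x) = ζ x * (s * (f x - w₀ x)) := by rw [hF]; ring
    rw [h3]
    by_cases hζx : ζ x = 0
    · rw [hζx, zero_mul]
      linarith
    · have h4 : x ∈ W' := hζt (subset_tsupport _ hζx)
      have h5 := hW'Z x h4 hx
      rcases le_or_gt (s * (f x - w₀ x)) 0 with h6 | h6
      · have := mul_nonpos_of_nonneg_of_nonpos (hζ01 x).1 h6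
        linarith
      · calc ζ x * (s * (f x - w₀ x)) ≤ 1 * (s * (f x - w₀ x)) :=
              mul_le_mul_of_nonneg_right (hζ01 x).2 h6.le
          _ ≤ τ / 4 := by linarith
  -- the difference and the test function
  have hH0 : H1 (fun x => s * (F x - u x)) (fun x => s • (gr F x - G x)) :=
    h1.smul s _ _ (h1.sub _ _ _ _ (h2.ofC1 F (hFs.of_le (by norm_num)) hFc) hW.1)
  obtain ⟨C, hC⟩ := hFc.exists_bound_of_continuous hFs.continuous
  have hbd : ∀ᵐ x, |s * (F x - u x)| ≤ C + 1 := by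
    filter_upwards [hu01] with x hx
    rw [abs_mul, hs1, one_mul]
    have h3 := abs_add_le (F x) (-u x)
    rw [abs_neg, abs_of_nonneg hx.1] at h3
    have h4 : |F x| ≤ C := by simpa [Real.norm_eq_abs] using hC x
    have h5 : F x + -u x = F x - u x := by ring
    rw [h5] at h3
    linarith [hx.2]
  have hψ0 : psi τ 0 = 0 := psi_low hτ (by linarith)
  have hH := hc.bdd _ _ (psi τ) (C + 1) hH0 hbd (psi_smooth τ) hψ0
  have hvbd : ∀ᵐ x, |psi τ (s * (F x - u x))| ≤ C + 1 + |τ| := by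
    filter_upwards [hbd] with x hx
    exact (psi_abs _ _).trans (by linarith)
  -- where the test function is positive
  have hZ0 : ∀ᵐ x, x ∈ ZS b → psi τ (s * (F x - u x)) = 0 := by
    filter_upwards [hW.2.1] with x hx hxZ
    rw [hx hxZ]
    exact psi_low hτ (hFZ x hxZ)
  have hpos : ∀ᵐ x, 0 < psi τ (s * (F x - u x)) → x ∈ S := by
    filter_upwards [hZ0] with x hx h3
    by_contra hxS
    have hxZ : x ∈ ZS b := by
      by_contra hxZ
      apply hxS
      have h4 : ¬ ‖x‖ ≤ 1 ∧ ¬ b ≤ ‖x‖ := not_or.1 hxZ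
      exact ⟨(not_le.1 h4.1).le, (not_le.1 h4.2).le⟩
    rw [hx hxZ] at h3
    exact lt_irrefl _ h3
  have hle := hk A B c L r hP u G hW.1 s hs F hFs (gr_cpt hFc)
    (fun x => psi τ (s * (F x - u x)))
    (fun x => deriv (psi τ) (s * (F x - u x)) • (s • (gr F x - G x))) hH (C + 1 + |τ|) hvbd
    (by
      intro φ Φ hφ hφ0
      refine hW.2.2 φ Φ hφ ?_
      filter_upwards [hφ0, hZ0] with x h3 h4 h5
      exact h3 (h4 h5).le)
    (by
      refine Eventually.of_forall fun x hx => ?_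
      rw [psi_deriv hτ (psi_pos hx), one_smul])
    σ hσ
    (by
      filter_upwards [hpos] with x h3 h4
      have h5 := h3 h4
      have h6 := hineq x h5.1 h5.2
      rw [gr_congr (hFf x h5)]
      have h8 : (fun i => PB.hs F i x) = fun i => PB.hs f i x :=
        funext fun i => hs_congr (hFf x h5) i
      rw [h8]
      exact h6)
  filter_upwards [hle] with x hx hx1 hx2
  by_contra hcon
  push Not at hcon
  have h3 : F x = f x := (hFf x ⟨hx1, hx2⟩).eq_of_nhds
  rw [h3, psi_high hτ (by linarith)] at hx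
  linarith

end Pool.Agent.PFlow.PB
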