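import Pool.Agent.PFlow.StmtsPX
import Pool.Agent.PFlow.E.LEYa

/-!
# Module XCOV: change of variables for the inversion
-/

set_option autoImplicit false

open MeasureTheory Filter Topology Set
open scoped ContDiff RealInnerProductSpace

namespace Pool.Agent.PFlow.PB

open Pool.Agent.PenroseSph Pool.Agent.PFlow

namespace XCovAux

theorem isOpen_Ann (a b : ℝ) : IsOpen (Ann a b) :=
  (isOpen_lt continuous_const continuous_norm).inter (isOpen_lt continuous_norm continuous_const)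

theorem measurableSet_Ann (a b : ℝ) : MeasurableSet (Ann a b) := (isOpen_Ann a b).measurableSet

theorem Ann_sub {a b : ℝ} (ha : 0 < a) : Ann a b ⊆ ({0}ᶜ : Set E3) := by
  intro x hx h0
  have h1 : x = 0 := h0
  subst h1
  have h2 : a < ‖(0 : E3)‖ := hx.1
  rw [norm_zero] at h2
  linarith

theorem mapsTo {a b : ℝ} (ha : 0 < a) (hab : a < b) {x : E3} (hx : x ∈ Ann a b) :
    inversion x ∈ Ann b⁻¹ a⁻¹ := by
  have h0 : x ≠ 0 := Ann_sub ha hx
  have hn := HSM2.norm_inversion x h0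
  have h1 : a < ‖x‖ := hx.1
  have h2 : ‖x‖ < b := hx.2
  refine ⟨?_, ?_⟩
  · show b⁻¹ < ‖inversion x‖
    rw [hn]
    exact (inv_lt_inv₀ (ha.trans hab) (ha.trans h1)).2 h2
  · show ‖inversion x‖ < a⁻¹
    rw [hn]
    exact (inv_lt_inv₀ (ha.trans h1) ha).2 h1

theorem image {a b : ℝ} (ha : 0 < a) (hab : a < b) : inversion '' (Ann a b) = Ann b⁻¹ a⁻¹ := by
  have hb : 0 < b := ha.trans hab
  ext y
  constructor
  · rintro ⟨x, hx, rfl⟩
    exact mapsTo ha hab hx
  · intro hy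
    have h1 := mapsTo (a := b⁻¹) (b := a⁻¹) (inv_pos.2 hb) ((inv_lt_inv₀ hb ha).2 hab) hy
    rw [inv_inv, inv_inv] at h1
    exact ⟨inversion y, h1, HSM2.inversion_inversion y (Ann_sub (inv_pos.2 hb) hy)⟩

theorem null (P : E3 → Prop) (h : ∀ᵐ x, P x) : ∀ᵐ x, P (inversion x) := LEYaux.qmp.ae h

/-- A function which vanishes outside the annulus is carried to a function which vanishes outside
the inverted annulus. -/
theorem off {a b : ℝ} (ha : 0 < a) (hab : a < b) {P : E3 → Prop}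
    (h : ∀ᵐ x, x ∉ Ann a b → P x) : ∀ᵐ x, x ∉ Ann b⁻¹ a⁻¹ → P (inversion x) := by
  filter_upwards [null _ h] with x hx hx'
  exact hx fun hc => hx' (by
    have h0 : x ≠ 0 := by
      rintro rfl
      rw [LEYaux.inversion_zero] at hc
      exact Ann_sub ha hc rfl
    have h1 := mapsTo ha hab hc
    rwa [HSM2.inversion_inversion x h0] at h1)

theorem int {a b : ℝ} (ha : 0 < a) (k : E3 → ℝ) (hab : a < b)
    (hk : IntegrableOn k (Ann b⁻¹ a⁻¹)) :
    IntegrableOn (fun x => (‖x‖ ^ 6)⁻¹ * k (inversion x)) (Ann a b) ∧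
    ∫ x in Ann a b, (‖x‖ ^ 6)⁻¹ * k (inversion x) = ∫ x in Ann b⁻¹ a⁻¹, k x := by
  have hm := measurableSet_Ann a b
  have hK := Ann_sub (b := b) ha
  constructor
  · rw [← image ha hab] at hk
    refine ((LEYaux.integrableOn_image hm hK k).1 hk).congr_fun (fun x hx => ?_) hm
    show |(inversionJac x).det| * k (inversion x) = _
    rw [LEYaux.abs_det (hK hx)]
  · rw [← image ha hab, LEYaux.integral_image hm hK]
    refine setIntegral_congr_fun hm (fun x hx => ?_)
    show _ = |(inversionJac x).det| * k (inversion x)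
    rw [LEYaux.abs_det (hK hx)]

/-- Composition of nonnegative integrable functions. -/
theorem comp {a b : ℝ} (ha : 0 < a) (hab : a < b) {F : E3 → ℝ} (hF0 : ∀ x, 0 ≤ F x)
    (hF : Integrable F) (hz : ∀ᵐ x, x ∉ Ann a b → F x = 0) :
    Integrable (fun x => F (inversion x)) ∧ ∫ x, F (inversion x) ≤ (a ^ 6)⁻¹ * ∫ x, F x := by
  have hb : 0 < b := ha.trans hab
  have hba : b⁻¹ < a⁻¹ := (inv_lt_inv₀ hb ha).2 hab
  have hbi : 0 < b⁻¹ := inv_pos.2 hb
  have hm := measurableSet_Ann b⁻¹ a⁻¹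
  have h1 := int hbi F hba (by rw [inv_inv, inv_inv]; exact hF.integrableOn)
  rw [inv_inv, inv_inv] at h1
  have hoff : ∀ᵐ x, x ∉ Ann b⁻¹ a⁻¹ → F (inversion x) = 0 := off ha hab (P := fun x => F x = 0) hz
  have hmeas : AEStronglyMeasurable (fun x => F (inversion x)) volume :=
    hF.1.comp_quasiMeasurePreserving LEYaux.qmp
  have hle : ∀ x ∈ Ann b⁻¹ a⁻¹, F (inversion x) ≤ (a ^ 6)⁻¹ * ((‖x‖ ^ 6)⁻¹ * F (inversion x)) := by
    intro x hx
    have h3 : 0 < ‖x‖ := hbi.trans hx.1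
    have h4 : ‖x‖ ^ 6 ≤ (a ^ 6)⁻¹ := by
      rw [← inv_pow]
      exact pow_le_pow_left₀ h3.le hx.2.le 6
    have h5 : 1 ≤ (a ^ 6)⁻¹ * (‖x‖ ^ 6)⁻¹ := by
      rw [← div_eq_mul_inv, one_le_div (by positivity)]
      exact h4
    have h6 := hF0 (inversion x)
    nlinarith
  have hi : IntegrableOn (fun x => F (inversion x)) (Ann b⁻¹ a⁻¹) := by
    refine Integrable.mono' (h1.1.const_mul (a ^ 6)⁻¹) hmeas.restrict ?_
    filter_upwards [ae_restrict_mem hm] with x hx
    rw [Real.norm_of_nonneg (hF0 _)]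
    exact hle x hx
  refine ⟨hi.integrable_of_ae_notMem_eq_zero hoff, ?_⟩
  rw [← setIntegral_eq_integral_of_ae_compl_eq_zero hoff]
  calc ∫ x in Ann b⁻¹ a⁻¹, F (inversion x)
      ≤ ∫ x in Ann b⁻¹ a⁻¹, (a ^ 6)⁻¹ * ((‖x‖ ^ 6)⁻¹ * F (inversion x)) :=
        setIntegral_mono_on hi (h1.1.const_mul _) hm hle
    _ = (a ^ 6)⁻¹ * ∫ x in Ann a b, F x := by rw [integral_const_mul, h1.2]
    _ = (a ^ 6)⁻¹ * ∫ x, F x := by rw [setIntegral_eq_integral_of_ae_compl_eq_zero hz]

/-- The norm of the transposed Jacobian. -/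
theorem norm_JT {x : E3} (hx : x ≠ 0) (ξ : E3) : ‖JT x ξ‖ ^ 2 = (‖x‖ ^ 4)⁻¹ * ‖ξ‖ ^ 2 := by
  have hn : ‖x‖ ≠ 0 := norm_ne_zero_iff.mpr hx
  have hs : ‖x‖ ^ 2 = x 0 ^ 2 + x 1 ^ 2 + x 2 ^ 2 := by
    rw [EuclideanSpace.norm_sq_eq]
    simp [Fin.sum_univ_three]
  have hs0 : x 0 ^ 2 + x 1 ^ 2 + x 2 ^ 2 ≠ 0 := by
    rw [← hs]
    positivity
  have h4 : ‖x‖ ^ 4 = (x 0 ^ 2 + x 1 ^ 2 + x 2 ^ 2) ^ 2 := by
    rw [← hs]
    ring
  rw [h4, EuclideanSpace.norm_sq_eq, EuclideanSpace.norm_sq_eq]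
  simp only [JT, vec, inversionJac, Matrix.of_apply, Fin.sum_univ_three, Real.norm_eq_abs, sq_abs,
    hs]
  simp
  field_simp
  ring

theorem measurable_coord (i : Fin 3) : Measurable fun x : E3 => x i :=
  (EuclideanSpace.proj i : E3 →L[ℝ] ℝ).continuous.measurable

theorem measurable_jac (a i : Fin 3) : Measurable fun x : E3 => inversionJac x a i := by
  unfold inversionJac
  simp only [Matrix.of_apply]
  exact ((measurable_const.sub (((measurable_const.mul (measurable_coord a)).mul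
    (measurable_coord i)).div (measurable_norm.pow_const 2))).div (measurable_norm.pow_const 2))

theorem aesm_JT {F : E3 → E3} (hF : AEStronglyMeasurable F volume) :
    AEStronglyMeasurable (fun x => JT x (F (inversion x))) volume := by
  have h1 : AEStronglyMeasurable (fun x => F (inversion x)) volume :=
    hF.comp_quasiMeasurePreserving LEYaux.qmp
  have h2 : ∀ a : Fin 3, AEMeasurable (fun x => F (inversion x) a) volume := fun a =>
    (measurable_coord a).comp_aemeasurable h1.aemeasurable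
  have h3 : AEMeasurable (fun x => (fun i => ∑ a, inversionJac x a i * F (inversion x) a :
      Fin 3 → ℝ)) volume := by
    refine aemeasurable_pi_lambda _ fun i => ?_
    exact Finset.aemeasurable_fun_sum _ fun a _ => (measurable_jac a i).aemeasurable.mul (h2 a)
  exact ((WithLp.measurable_toLp 2 (Fin 3 → ℝ)).comp_aemeasurable h3).aestronglyMeasurable

end XCovAux

open XCovAux in
theorem xcov_thm : XCOV where
  null := XCovAux.null
  int := fun a b ha hab k hk => XCovAux.int ha k hab hk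
  mem := by
    intro a b ha hab
    have hb : 0 < b := ha.trans hab
    have hbi : 0 < b⁻¹ := inv_pos.2 hb
    refine ⟨(1 + b ^ 4) * (a ^ 6)⁻¹, by positivity, ?_, ?_⟩
    · intro f hf hz
      have hsq := (memLp_two_iff_integrable_sq hf.1).1 hf
      have hz2 : ∀ᵐ x, x ∉ Ann a b → f x ^ 2 = 0 := by
        filter_upwards [hz] with x hx hx'
        rw [hx hx']
        norm_num
      obtain ⟨h1, h2⟩ := comp ha hab (fun x => sq_nonneg (f x)) hsq hz2
      refine ⟨(memLp_two_iff_integrable_sq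
        (hf.1.comp_quasiMeasurePreserving LEYaux.qmp)).2 h1, ?_⟩
      have h3 : 0 ≤ (a ^ 6)⁻¹ * ∫ x, f x ^ 2 :=
        mul_nonneg (by positivity) (integral_nonneg fun x => sq_nonneg _)
      have h4 : 0 ≤ b ^ 4 * ((a ^ 6)⁻¹ * ∫ x, f x ^ 2) := mul_nonneg (by positivity) h3
      show ∫ x, f (inversion x) ^ 2 ≤ (1 + b ^ 4) * (a ^ 6)⁻¹ * ∫ x, f x ^ 2
      refine h2.trans ?_
      nlinarith
    · intro F hF hz
      have hsq := (memLp_two_iff_integrable_sq_norm hF.1).1 hF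
      have hz2 : ∀ᵐ x, x ∉ Ann a b → ‖F x‖ ^ 2 = 0 := by
        filter_upwards [hz] with x hx hx'
        rw [hx hx', norm_zero]
        norm_num
      obtain ⟨h1, h2⟩ := comp ha hab (fun x => sq_nonneg ‖F x‖) hsq hz2
      have hoff := off ha hab (P := fun x => ‖F x‖ ^ 2 = 0) hz2
      have hle : ∀ᵐ x, ‖JT x (F (inversion x))‖ ^ 2 ≤ b ^ 4 * ‖F (inversion x)‖ ^ 2 := by
        have hne : ∀ᵐ x : E3, x ≠ 0 := by
          rw [ae_iff]
          simp
        filter_upwards [hoff, hne] with x hx hx0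
        rw [norm_JT hx0]
        by_cases hA : x ∈ Ann b⁻¹ a⁻¹
        · have h3 : b⁻¹ < ‖x‖ := hA.1
          have h4 : (‖x‖ ^ 4)⁻¹ ≤ b ^ 4 := by
            rw [← inv_pow]
            refine pow_le_pow_left₀ (by positivity) ?_ 4
            rw [inv_le_comm₀ (hbi.trans h3) hb]
            exact h3.le
          exact mul_le_mul_of_nonneg_right h4 (by positivity)
        · rw [hx hA]
          simp
      have hm := aesm_JT hF.1
      have hi : Integrable (fun x => ‖JT x (F (inversion x))‖ ^ 2) := by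
        refine Integrable.mono' (h1.const_mul (b ^ 4)) (hm.norm.pow 2) ?_
        filter_upwards [hle] with x hx
        rw [Real.norm_of_nonneg (by positivity)]
        exact hx
      refine ⟨(memLp_two_iff_integrable_sq_norm hm).2 hi, ?_⟩
      have h3 : ∫ x, ‖JT x (F (inversion x))‖ ^ 2 ≤ b ^ 4 * ∫ x, ‖F (inversion x)‖ ^ 2 := by
        rw [← integral_const_mul]
        exact integral_mono_ae hi (h1.const_mul _) hle
      have h4 : b ^ 4 * ∫ x, ‖F (inversion x)‖ ^ 2 ≤ b ^ 4 * ((a ^ 6)⁻¹ * ∫ x, ‖F x‖ ^ 2) :=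
        mul_le_mul_of_nonneg_left h2 (by positivity)
      have h5 : 0 ≤ (a ^ 6)⁻¹ * ∫ x, ‖F x‖ ^ 2 :=
        mul_nonneg (by positivity) (integral_nonneg fun x => sq_nonneg _)
      show ∫ x, ‖JT x (F (inversion x))‖ ^ 2 ≤ (1 + b ^ 4) * (a ^ 6)⁻¹ * ∫ x, ‖F x‖ ^ 2
      nlinarith

end Pool.Agent.PFlow.PB
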