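import Pool.Agent.PFlow.StmtsPX
import Pool.Agent.PFlow.P.CordI

/-!
# XCRD: the integrated Cordes inequality with an integrable error term
-/

open MeasureTheory Filter Topology Set
open scoped ContDiff RealInnerProductSpace

namespace Pool.Agent.PFlow.PB

open Pool.Agent.PenroseSph Pool.Agent.PFlow

open CordI in
/-- XCRD: the integrated Cordes inequality with an integrable error term. -/
theorem xcrd_thm (_h1 : API1) (hc : CID) (hb : KBND) (hs : KSM) : XCRD := by
  intro ε g h r hε hε1 hg C₀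
  obtain ⟨C, hC⟩ := hb g h r hg
  obtain ⟨s1, s2, -⟩ := hs g h r hg
  have hC1 : 1 ≤ C := hC.one
  have hC0 : 0 < C := by linarith
  set D : ℝ := 3 * C ^ 3 with hD
  have hD0 : 0 < D := by positivity
  set η : ℝ := ε / (4 * C ^ 2 * (162 * D)) with hη
  have hη0 : 0 < η := by positivity
  set K3 : ℝ := 162 * D / (4 * η) with hK3
  have hK30 : 0 < K3 := by positivity
  set K1 : ℝ := C * K0 C C₀ 0 ε with hK1
  have hK10 : 0 ≤ K1 := mul_nonneg hC0.le (K0_nonneg hC1 hε)
  refine ⟨4 * C ^ 2 / ε * (K1 + K3), ?_⟩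
  intro u G M F hu iF hF0 hcor
  have mM : ∀ i, MemLp (M i) 2 := fun i => (hu.h2 i).memG
  have mG : MemLp G 2 := hu.h1.memG
  have mMc : ∀ i j, MemLp (fun x => M i x j) 2 := fun i j => memLp_apply (mM i) j
  -- `∑ sqv (M i)` is the integral of `QQ`
  have iM : ∀ i j, Integrable (fun x => mt (fun i => M i x) i j ^ 2) :=
    fun i j => (mMc i j).integrable_sq
  have iQ : Integrable (fun x => QQ (mt fun i => M i x)) := by
    unfold QQ
    exact integrable_finsetSum _ fun i _ => integrable_finsetSum _ fun j _ => iM i j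
  have hQ : ∑ i, sqv (M i) = ∫ x, QQ (mt fun i => M i x) := by
    unfold QQ
    rw [integral_finsetSum _ fun i _ => integrable_finsetSum _ fun j _ => iM i j]
    refine Finset.sum_congr rfl fun i _ => ?_
    unfold sqv
    refine integral_congr_ae (ae_of_all _ fun x => ?_)
    simp only [mt, Matrix.of_apply]
    rw [EuclideanSpace.norm_sq_eq]
    refine Finset.sum_congr rfl fun j _ => ?_
    rw [Real.norm_eq_abs, sq_abs]
  have iG : Integrable (fun x => ‖G x‖ ^ 2) := by
    exact mG.norm.integrable_sq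
  -- the quadratic form
  set Y : E3 → ℝ := fun x => ∑ i, ∑ k, ∑ j, ∑ l,
    qq g i k j l x * (M i x j * M k x l - M i x k * M j x l) with hY
  set X : E3 → ℝ := fun x => ∑ i, ∑ k, ∑ j, ∑ l,
    (pd j (qq g i k j l) x * G x i * M k x l - pd k (qq g i k j l) x * G x i * M j x l) with hX
  have hqs : ∀ i k j l, ContDiff ℝ ∞ (qq g i k j l) := fun i k j l =>
    (s2.mul (s1 i k)).mul (s1 j l)
  have hqpd : ∀ m i k j l x, |pd m (qq g i k j l) x| ≤ D := fun m i k j l x =>
    qq_pd hC s1 s2 m i k j l x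
  have hcid : ∫ x, Y x = - ∫ x, X x := by
    refine hc (qq g) (3 * D) (fun i k j l => (hqs i k j l).of_le ENat.LEInfty.out)
      (fun i k j l x => (qq_abs hC i k j l x).trans ?_)
      (fun i k j l x => gr_le hD0.le (fun m => hqpd m i k j l x)) u G M hu
    rw [hD]
    nlinarith [pow_pos hC0 3]
  have hYe : ∀ x, Y x = volDen g x * (nsq g x (mt fun i => M i x) -
      trg g x (mt fun i => M i x) ^ 2) := by
    intro x
    have e1 : nsq g x (mt fun i => M i x) = ∑ i, ∑ k, ∑ j, ∑ l,
        (g x)⁻¹ i k * (g x)⁻¹ j l * M i x j * M k x l :=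
      Finset.sum_congr rfl fun i _ => Finset.sum_comm
    have e2 : trg g x (mt fun i => M i x) ^ 2 = ∑ i, ∑ k, ∑ j, ∑ l,
        (g x)⁻¹ i k * M i x k * ((g x)⁻¹ j l * M j x l) := by
      unfold trg
      rw [pow_two, Finset.sum_mul_sum]
      refine Finset.sum_congr rfl fun i _ => ?_
      rw [Finset.sum_comm]
      simp only [Finset.sum_mul_sum]
      rfl
    rw [e1, e2]
    simp only [hY, qq, ← Finset.sum_sub_distrib, Finset.mul_sum]
    refine Finset.sum_congr rfl fun i _ => Finset.sum_congr rfl fun k _ =>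
      Finset.sum_congr rfl fun j _ => Finset.sum_congr rfl fun l _ => ?_
    ring
  have iY : Integrable Y := by
    refine integrable_finsetSum _ fun i _ => integrable_finsetSum _ fun k _ =>
      integrable_finsetSum _ fun j _ => integrable_finsetSum _ fun l _ => ?_
    have i1 : Integrable (fun x => M i x j * M k x l - M i x k * M j x l) :=
      ((mMc i j).integrable_mul (mMc k l)).sub ((mMc i k).integrable_mul (mMc j l))
    exact i1.bdd_mul (c := C ^ 3) (hqs i k j l).continuous.aestronglyMeasurable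
      (ae_of_all _ fun x => qq_abs hC i k j l x)
  -- pointwise bound of X
  have hXb : ∀ x, |X x| ≤ ε / (4 * C ^ 2) * QQ (mt fun i => M i x) + K3 * ‖G x‖ ^ 2 := by
    intro x
    set q : ℝ := QQ (mt fun i => M i x) with hq
    have hterm : ∀ (m : Fin 3) (i k j l a b : Fin 3),
        |pd m (qq g i k j l) x * G x i * M a x b| ≤ D * (η * q + ‖G x‖ ^ 2 / (4 * η)) := by
      intro m i k j l a b
      rw [mul_assoc, abs_mul]
      refine mul_le_mul (hqpd m i k j l x) ?_ (abs_nonneg _) hD0.le
      have e1 : M a x b ^ 2 ≤ q := sq_le_QQ (mt fun i => M i x) a b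
      have e2 : G x i ^ 2 ≤ ‖G x‖ ^ 2 := by
        rw [← sq_abs]
        exact pow_le_pow_left₀ (abs_nonneg _) (abs_apply_le _ _) 2
      rw [abs_mul]
      have e3 : |G x i| * |M a x b| ≤ η * |M a x b| ^ 2 + |G x i| ^ 2 / (4 * η) := by
        have e4 : η * |M a x b| ^ 2 + |G x i| ^ 2 / (4 * η) - |G x i| * |M a x b| =
            (2 * η * |M a x b| - |G x i|) ^ 2 / (4 * η) := by
          field_simp
          ring
        have e5 : 0 ≤ (2 * η * |M a x b| - |G x i|) ^ 2 / (4 * η) := by positivity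
        linarith
      rw [sq_abs, sq_abs] at e3
      have e6 : η * M a x b ^ 2 ≤ η * q := mul_le_mul_of_nonneg_left e1 hη0.le
      have e7 : G x i ^ 2 / (4 * η) ≤ ‖G x‖ ^ 2 / (4 * η) :=
        div_le_div_of_nonneg_right e2 (by positivity)
      linarith
    calc |X x| ≤ ∑ _i : Fin 3, ∑ _k : Fin 3, ∑ _j : Fin 3, ∑ _l : Fin 3,
          (2 * (D * (η * q + ‖G x‖ ^ 2 / (4 * η)))) := by
          refine (Finset.abs_sum_le_sum_abs _ _).trans (Finset.sum_le_sum fun i _ => ?_)
          refine (Finset.abs_sum_le_sum_abs _ _).trans (Finset.sum_le_sum fun k _ => ?_)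
          refine (Finset.abs_sum_le_sum_abs _ _).trans (Finset.sum_le_sum fun j _ => ?_)
          refine (Finset.abs_sum_le_sum_abs _ _).trans (Finset.sum_le_sum fun l _ => ?_)
          refine (abs_sub _ _).trans ?_
          have t1 := hterm j i k j l k l
          have t2 := hterm k i k j l j l
          linarith
      _ = 162 * D * (η * q + ‖G x‖ ^ 2 / (4 * η)) := by
          simp only [Finset.sum_const, Finset.card_univ, Fintype.card_fin, nsmul_eq_mul]
          push_cast
          ring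
      _ = ε / (4 * C ^ 2) * q + K3 * ‖G x‖ ^ 2 := by
          have e8 : 162 * D * η = ε / (4 * C ^ 2) := by
            rw [hη]
            field_simp
          rw [← e8, hK3]
          field_simp
  have hXi : |∫ x, X x| ≤ ∫ x, (ε / (4 * C ^ 2) * QQ (mt fun i => M i x) + K3 * ‖G x‖ ^ 2) := by
    rw [← Real.norm_eq_abs]
    exact norm_integral_le_of_norm_le ((iQ.const_mul _).add (iG.const_mul _))
      (ae_of_all _ fun x => hXb x)
  rw [integral_add (iQ.const_mul _) (iG.const_mul _), integral_const_mul, integral_const_mul]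
    at hXi
  -- integrate the pointwise inequality
  have hint : ∫ x, ε / (2 * C ^ 2) * QQ (mt fun i => M i x) ≤
      ∫ x, (Y x + K1 * (‖G x‖ ^ 2 + F x)) := by
    refine integral_mono_ae (iQ.const_mul _) (iY.add ((iG.add iF).const_mul _)) ?_
    filter_upwards [hF0, hcor] with x hx1 hx2
    show ε / (2 * C ^ 2) * QQ (mt fun i => M i x) ≤ Y x + K1 * (‖G x‖ ^ 2 + F x)
    rw [hYe]
    have hp0 : 0 ≤ ‖G x‖ ^ 2 + F x := by positivity
    have hp : ∀ k, |G x k| ≤ √(‖G x‖ ^ 2 + F x) := fun k => by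
      refine (abs_apply_le _ _).trans (Real.le_sqrt_of_sq_le ?_)
      linarith
    have hp2 : √(‖G x‖ ^ 2 + F x) ^ 2 = ‖G x‖ ^ 2 + F x := Real.sq_sqrt hp0
    have hpt := pointwise hC x (G x) (mt fun i => M i x) (F := 0) (T := 0) (C0 := C₀)
      (P := √(‖G x‖ ^ 2 + F x)) hε hε1 hp (by simp) (by
        rw [hp2]
        simpa using hx2)
    rw [hp2] at hpt
    simpa using hpt
  have i2 : Integrable (fun x => K1 * (‖G x‖ ^ 2 + F x)) := (iG.add iF).const_mul _
  rw [integral_const_mul, integral_add iY i2, integral_const_mul, integral_add iG iF, hcid]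
    at hint
  -- conclusion
  rw [hQ]
  have hsG : sqv G = ∫ x, ‖G x‖ ^ 2 := rfl
  rw [hsG]
  set IQ := ∫ x, QQ (mt fun i => M i x) with hIQ
  set IG := ∫ x, ‖G x‖ ^ 2 with hIG
  set IF := ∫ x, F x with hIF
  have hIF0 : 0 ≤ IF := integral_nonneg_of_ae hF0
  have hIG0 : 0 ≤ IG := integral_nonneg fun x => sq_nonneg _
  have hx := (abs_le.1 hXi).1
  have e1 : ε / (2 * C ^ 2) * IQ = 2 * (ε / (4 * C ^ 2) * IQ) := by ring
  have e2 : ε / (4 * C ^ 2) * IQ ≤ (K1 + K3) * (IG + IF) := by
    nlinarith [mul_nonneg hK30.le hIF0]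
  have e3 : IQ = 4 * C ^ 2 / ε * (ε / (4 * C ^ 2) * IQ) := by
    field_simp
  rw [e3, mul_assoc]
  exact mul_le_mul_of_nonneg_left e2 (by positivity)

end Pool.Agent.PFlow.PB
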