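import Pool.Agent.PFlow.StmtsPX
import Pool.Agent.PFlow.P.NDiv

/-!
# Block PX, module DVF: the divergence of `A(x, ∇w)`
-/

open MeasureTheory Filter Topology Set
open scoped ContDiff RealInnerProductSpace ENNReal

namespace Pool.Agent.PFlow.PB

open Pool.Agent.PenroseSph Pool.Agent.PFlow

open NDivAux in
theorem xdvf_thm (h1 : API1) (h2 : API2) (hd : DENS) : XDVF := by
  intro A B c L r hP u G M hH
  have hL : 0 ≤ L := hP.c_pos.le.trans hP.c_le
  have hA : ContDiff ℝ ∞ (jt A) := hP.smoothA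
  have hAc : Continuous (jt A) := hA.continuous
  have hAb : ∀ x ξ, ‖A x ξ‖ ≤ L * ‖ξ‖ := by
    intro x ξ
    have := hP.lipA x ξ 0
    rwa [hP.A_zero, sub_zero, sub_zero] at this
  obtain ⟨φn, hT, -, hgr, hhs, -⟩ := hd u G M hH
  have hGm : MemLp G 2 := hH.h1.memG
  have hMm : ∀ i, MemLp (M i) 2 := fun i => (hH.h2 i).memG
  have hgm : ∀ n, MemLp (gr (φn n)) 2 := fun n => gr_memLp _ (hT n).one (hT n).cpt
  have hpdT : ∀ n i, Test (pd i (φn n)) := fun n i =>
    ⟨((hT n).smooth.fderiv_right (m := ∞) (by simp)).clm_apply contDiff_const,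
      pd_cpt _ (hT n).cpt i⟩
  have hhm : ∀ n i, MemLp (hs (φn n) i) 2 := fun n i =>
    gr_memLp _ (hpdT n i).one (hpdT n i).cpt
  -- the functions `D` and `d n`
  let D : E3 → ℝ := fun x => ‖G x‖ + ∑ i, ‖M i x‖
  let dn : ℕ → E3 → ℝ := fun n x => ‖gr (φn n) x - G x‖ + ∑ i, ‖hs (φn n) i x - M i x‖
  have hDm : MemLp D 2 := by
    have e : D = fun x => ‖G x‖ + (‖M 0 x‖ + ‖M 1 x‖ + ‖M 2 x‖) := by
      funext x
      simp only [D, Fin.sum_univ_three]
    rw [e]
    exact hGm.norm.add (((hMm 0).norm.add (hMm 1).norm).add (hMm 2).norm)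
  have hdm : ∀ n, MemLp (dn n) 2 := by
    intro n
    have e : dn n = fun x => ‖gr (φn n) x - G x‖ + (‖hs (φn n) 0 x - M 0 x‖ +
        ‖hs (φn n) 1 x - M 1 x‖ + ‖hs (φn n) 2 x - M 2 x‖) := by
      funext x
      simp only [dn, Fin.sum_univ_three]
    rw [e]
    exact ((hgm n).sub hGm).norm.add (((((hhm n 0).sub (hMm 0)).norm.add
      ((hhm n 1).sub (hMm 1)).norm)).add ((hhm n 2).sub (hMm 2)).norm)
  have hd0 : ∀ n x, 0 ≤ dn n x := fun n x => by positivity
  have hD0 : ∀ x, 0 ≤ D x := fun x => by positivity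
  have hdt : Tendsto (fun n => sq (dn n)) atTop (𝓝 0) := by
    have e1 : Tendsto (fun n => 4 * (sqv (fun x => gr (φn n) x - G x) +
        (sqv (fun x => hs (φn n) 0 x - M 0 x) + sqv (fun x => hs (φn n) 1 x - M 1 x) +
          sqv (fun x => hs (φn n) 2 x - M 2 x)))) atTop (𝓝 0) := by
      have := (hgr.add (((hhs 0).add (hhs 1)).add (hhs 2))).const_mul 4
      simpa using this
    refine squeeze_zero (fun n => sq_nonneg' _) (fun n => ?_) e1
    have i0 : Integrable (fun x => ‖gr (φn n) x - G x‖ ^ 2) := int_sq _ ((hgm n).sub hGm)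
    have ii : ∀ i, Integrable (fun x => ‖hs (φn n) i x - M i x‖ ^ 2) := fun i =>
      int_sq _ ((hhm n i).sub (hMm i))
    have i1 := ii 0
    have i2 := ii 1
    have i3 := ii 2
    have i12 : Integrable (fun x => ‖hs (φn n) 0 x - M 0 x‖ ^ 2 + ‖hs (φn n) 1 x - M 1 x‖ ^ 2) :=
      i1.add i2
    have i123 : Integrable (fun x => ‖hs (φn n) 0 x - M 0 x‖ ^ 2 + ‖hs (φn n) 1 x - M 1 x‖ ^ 2 +
        ‖hs (φn n) 2 x - M 2 x‖ ^ 2) := i12.add i3
    have e2 : 4 * (sqv (fun x => gr (φn n) x - G x) +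
        (sqv (fun x => hs (φn n) 0 x - M 0 x) + sqv (fun x => hs (φn n) 1 x - M 1 x) +
          sqv (fun x => hs (φn n) 2 x - M 2 x))) =
        ∫ x, 4 * (‖gr (φn n) x - G x‖ ^ 2 + (‖hs (φn n) 0 x - M 0 x‖ ^ 2 +
          ‖hs (φn n) 1 x - M 1 x‖ ^ 2 + ‖hs (φn n) 2 x - M 2 x‖ ^ 2)) := by
      rw [integral_const_mul]
      congr 1
      show (∫ x, ‖gr (φn n) x - G x‖ ^ 2) + ((∫ x, ‖hs (φn n) 0 x - M 0 x‖ ^ 2) +
        (∫ x, ‖hs (φn n) 1 x - M 1 x‖ ^ 2) + ∫ x, ‖hs (φn n) 2 x - M 2 x‖ ^ 2) = _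
      rw [← integral_add i1 i2, ← integral_add i12 i3, ← integral_add i0 i123]
    rw [e2]
    unfold sq
    refine integral_mono ?_ ?_ ?_
    · have := int_sq _ (hdm n)
      simpa [Real.norm_eq_abs, sq_abs] using this
    · exact (i0.add i123).const_mul 4
    · intro x
      simp only [dn, Fin.sum_univ_three]
      have p0 := norm_nonneg (gr (φn n) x - G x)
      have p1 := norm_nonneg (hs (φn n) 0 x - M 0 x)
      have p2 := norm_nonneg (hs (φn n) 1 x - M 1 x)
      have p3 := norm_nonneg (hs (φn n) 2 x - M 2 x)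
      nlinarith [sq_nonneg (‖gr (φn n) x - G x‖ - ‖hs (φn n) 0 x - M 0 x‖),
        sq_nonneg (‖gr (φn n) x - G x‖ - ‖hs (φn n) 1 x - M 1 x‖),
        sq_nonneg (‖gr (φn n) x - G x‖ - ‖hs (φn n) 2 x - M 2 x‖),
        sq_nonneg (‖hs (φn n) 0 x - M 0 x‖ - ‖hs (φn n) 1 x - M 1 x‖),
        sq_nonneg (‖hs (φn n) 0 x - M 0 x‖ - ‖hs (φn n) 2 x - M 2 x‖),
        sq_nonneg (‖hs (φn n) 1 x - M 1 x‖ - ‖hs (φn n) 2 x - M 2 x‖)]
  -- an a.e. convergent subsequence
  obtain ⟨ns, hns, hae⟩ : ∃ ns : ℕ → ℕ, StrictMono ns ∧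
      ∀ᵐ x, Tendsto (fun k => dn (ns k) x) atTop (𝓝 0) := by
    have e1 : Tendsto (fun n => eLpNorm (dn n - 0) 2 volume) atTop (𝓝 0) := by
      refine (tend_iff (0 : E3 → ℝ) dn MemLp.zero hdm).1 ?_
      refine hdt.congr fun n => ?_
      rw [sq_eq]
      simp
    have e2 := tendstoInMeasure_of_tendsto_eLpNorm (by norm_num) (fun n => (hdm n).1)
      aestronglyMeasurable_zero e1
    exact e2.exists_seq_tendsto_ae
  let F : E3 → ℝ := fun x => opA A x (G x) (fun i => M i x)
  let Fn : ℕ → E3 → ℝ := fun n x => opA A x (gr (φn n) x) (fun i => hs (φn n) i x)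
  have hmeas := opA_meas A hA
  have hFb : ∀ x, |F x| ≤ 3 * L * D x := fun x => opA_bound hP _ _ _
  have hFm : MemLp F 2 := by
    refine MemLp.of_le_mul (c := 3 * L) hDm (hmeas G M hGm hMm) (Eventually.of_forall fun x => ?_)
    rw [Real.norm_eq_abs, Real.norm_eq_abs, abs_of_nonneg (hD0 x)]
    exact hFb x
  have hFnb : ∀ n x, |Fn n x| ≤ 3 * L * (dn n x + D x) := by
    intro n x
    refine (opA_bound hP _ _ _).trans ?_
    refine mul_le_mul_of_nonneg_left ?_ (by positivity)
    have t0 : ‖gr (φn n) x‖ ≤ ‖gr (φn n) x - G x‖ + ‖G x‖ := by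
      have := norm_add_le (gr (φn n) x - G x) (G x)
      rwa [sub_add_cancel] at this
    have t1 : ∀ i, ‖hs (φn n) i x‖ ≤ ‖hs (φn n) i x - M i x‖ + ‖M i x‖ := by
      intro i
      have := norm_add_le (hs (φn n) i x - M i x) (M i x)
      rwa [sub_add_cancel] at this
    have t2 := Finset.sum_le_sum fun i (_ : i ∈ Finset.univ) => t1 i
    rw [Finset.sum_add_distrib] at t2
    show _ ≤ (‖gr (φn n) x - G x‖ + ∑ i, ‖hs (φn n) i x - M i x‖) + (‖G x‖ + ∑ i, ‖M i x‖)
    linarith
  have hFnm : ∀ n, MemLp (Fn n) 2 := by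
    intro n
    refine MemLp.of_le_mul (c := 3 * L) ((hdm n).add hDm) (hmeas _ _ (hgm n) (hhm n))
      (Eventually.of_forall fun x => ?_)
    rw [Real.norm_eq_abs, Real.norm_eq_abs, abs_of_nonneg
      (show 0 ≤ (dn n + D) x from add_nonneg (hd0 n x) (hD0 x))]
    exact hFnb n x
  have hFae : ∀ᵐ x, Tendsto (fun k => Fn (ns k) x) atTop (𝓝 (F x)) := by
    filter_upwards [hae] with x hx
    have c1 : Tendsto (fun k => gr (φn (ns k)) x) atTop (𝓝 (G x)) := by
      rw [tendsto_iff_norm_sub_tendsto_zero]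
      refine squeeze_zero (fun k => norm_nonneg _) (fun k => ?_) hx
      have : 0 ≤ ∑ i, ‖hs (φn (ns k)) i x - M i x‖ := by positivity
      show _ ≤ ‖gr (φn (ns k)) x - G x‖ + ∑ i, ‖hs (φn (ns k)) i x - M i x‖
      linarith
    have c2 : ∀ i, Tendsto (fun k => hs (φn (ns k)) i x) atTop (𝓝 (M i x)) := by
      intro i
      rw [tendsto_iff_norm_sub_tendsto_zero]
      refine squeeze_zero (fun k => norm_nonneg _) (fun k => ?_) hx
      have e1 : ‖hs (φn (ns k)) i x - M i x‖ ≤ ∑ i, ‖hs (φn (ns k)) i x - M i x‖ :=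
        Finset.single_le_sum (f := fun i => ‖hs (φn (ns k)) i x - M i x‖)
          (fun i _ => norm_nonneg _) (Finset.mem_univ i)
      show _ ≤ ‖gr (φn (ns k)) x - G x‖ + ∑ i, ‖hs (φn (ns k)) i x - M i x‖
      have := norm_nonneg (gr (φn (ns k)) x - G x)
      linarith
    exact opA_tendsto A hA x (fun k => gr (φn (ns k)) x) (G x)
      (fun k i => hs (φn (ns k)) i x) (fun i => M i x) c1 c2
  -- the identity for test functions
  have key : ∀ φ : E3 → ℝ, Test φ → ∫ x, ⟪A x (G x), gr φ x⟫ = - ∫ x, F x * φ x := by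
    intro φ hφ
    have hφm : MemLp φ 2 := test_memLp φ hφ
    have hφa : MemLp (fun x => |φ x|) 2 := hφm.norm
    have hgφ : MemLp (gr φ) 2 := gr_memLp φ hφ.one hφ.cpt
    -- left side
    have hAm : ∀ X : E3 → E3, MemLp X 2 → MemLp (fun x => A x (X x)) 2 := by
      intro X hX
      refine MemLp.of_le_mul (c := L) hX ?_ (Eventually.of_forall fun x => hAb x (X x))
      exact hAc.comp_aestronglyMeasurable (aestronglyMeasurable_id.prodMk hX.1)
    have hinner : ∀ X Y : E3 → E3, MemLp X 2 → MemLp Y 2 → Integrable (fun x => ⟪X x, Y x⟫) := by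
      intro X Y hX hY
      have h3 := (hX.norm).integrable_mul (hY.norm)
      refine h3.mono' (hX.1.inner hY.1) (Eventually.of_forall fun x => ?_)
      exact norm_inner_le_norm _ _
    have tl : Tendsto (fun k => ∫ x, ⟪A x (gr (φn (ns k)) x), gr φ x⟫) atTop
        (𝓝 (∫ x, ⟪A x (G x), gr φ x⟫)) := by
      rw [tendsto_iff_norm_sub_tendsto_zero]
      have e1 : Tendsto (fun k => L * (√(sq (dn (ns k))) * √(sq (fun x => ‖gr φ x‖)))) atTop
          (𝓝 0) := by
        have := (((Real.continuous_sqrt.tendsto 0).comp (hdt.comp hns.tendsto_atTop)).mul_const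
          (√(sq (fun x => ‖gr φ x‖)))).const_mul L
        simpa using this
      refine squeeze_zero (fun k => norm_nonneg _) (fun k => ?_) e1
      rw [← integral_sub (hinner _ _ (hAm _ (hgm _)) hgφ) (hinner _ _ (hAm _ hGm) hgφ)]
      have e2 : Integrable (fun x => L * (dn (ns k) x * ‖gr φ x‖)) :=
        ((int_mul _ _ (hdm _) hgφ.norm)).const_mul L
      refine (norm_integral_le_of_norm_le e2 (Eventually.of_forall fun x => ?_)).trans ?_
      · rw [← inner_sub_left]
        refine (norm_inner_le_norm _ _).trans ?_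
        have e3 := hP.lipA x (gr (φn (ns k)) x) (G x)
        have e4 : ‖gr (φn (ns k)) x - G x‖ ≤ dn (ns k) x := by
          have : 0 ≤ ∑ i, ‖hs (φn (ns k)) i x - M i x‖ := by positivity
          show _ ≤ ‖gr (φn (ns k)) x - G x‖ + ∑ i, ‖hs (φn (ns k)) i x - M i x‖
          linarith
        have e5 := mul_le_mul_of_nonneg_left e4 hL
        calc _ ≤ L * dn (ns k) x * ‖gr φ x‖ :=
              mul_le_mul_of_nonneg_right (e3.trans e5) (norm_nonneg _)
          _ = _ := by ring
      · rw [integral_const_mul]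
        exact mul_le_mul_of_nonneg_left ((le_abs_self _).trans (cs _ _ (hdm _) hgφ.norm)) hL
    -- right side
    have tr : Tendsto (fun k => ∫ x, Fn (ns k) x * φ x) atTop (𝓝 (∫ x, F x * φ x)) := by
      rw [tendsto_iff_norm_sub_tendsto_zero]
      let rk : ℕ → E3 → ℝ := fun k x =>
        max (|Fn (ns k) x - F x| - 3 * L * dn (ns k) x) 0
      have r0 : ∀ k x, 0 ≤ rk k x := fun k x => le_max_right _ _
      have r1 : ∀ k x, rk k x ≤ 6 * L * D x := by
        intro k x
        refine max_le ?_ (by have := hD0 x; positivity)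
        have a1 := hFnb (ns k) x
        have a2 := hFb x
        have a3 := abs_sub (Fn (ns k) x) (F x)
        nlinarith
      have r2 : ∀ᵐ x, Tendsto (fun k => rk k x) atTop (𝓝 0) := by
        filter_upwards [hFae] with x hx
        have a1 : Tendsto (fun k => |Fn (ns k) x - F x|) atTop (𝓝 0) := by
          have := (hx.sub_const (F x)).abs
          simpa using this
        refine squeeze_zero (fun k => r0 k x) (fun k => ?_) a1
        refine max_le ?_ (abs_nonneg _)
        have := hd0 (ns k) x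
        nlinarith [mul_nonneg hL this]
      have rm : ∀ k, AEStronglyMeasurable (rk k) volume := fun k =>
        ((((hFnm (ns k)).1.sub hFm.1).norm.sub ((hdm (ns k)).1.const_mul (3 * L)))).sup
          aestronglyMeasurable_const
      have bI : Integrable (fun x => 6 * L * D x * |φ x|) :=
        int_mul (fun x => 6 * L * D x) _ (hDm.const_mul (6 * L)) hφa
      have rI : ∀ k, Integrable (fun x => rk k x * |φ x|) := by
        intro k
        refine bI.mono' ((rm k).mul hφa.1) (Eventually.of_forall fun x => ?_)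
        rw [Real.norm_eq_abs, abs_of_nonneg (mul_nonneg (r0 k x) (abs_nonneg _))]
        exact mul_le_mul_of_nonneg_right (r1 k x) (abs_nonneg _)
      have rt : Tendsto (fun k => ∫ x, rk k x * |φ x|) atTop (𝓝 0) := by
        have := tendsto_integral_of_dominated_convergence (μ := (volume : Measure E3))
          (F := fun k x => rk k x * |φ x|) (f := fun _ => (0 : ℝ)) (fun x => 6 * L * D x * |φ x|)
          (fun k => (rm k).mul hφa.1) bI (fun k => Eventually.of_forall fun x => ?_) ?_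
        · simpa using this
        · rw [Real.norm_eq_abs, abs_of_nonneg (mul_nonneg (r0 k x) (abs_nonneg _))]
          exact mul_le_mul_of_nonneg_right (r1 k x) (abs_nonneg _)
        · filter_upwards [r2] with x hx
          have := hx.mul_const |φ x|
          simpa using this
      have e1 : Tendsto (fun k => (∫ x, rk k x * |φ x|) +
          3 * L * (√(sq (dn (ns k))) * √(sq (fun x => |φ x|)))) atTop (𝓝 0) := by
        have := rt.add ((((Real.continuous_sqrt.tendsto 0).comp
          (hdt.comp hns.tendsto_atTop)).mul_const (√(sq (fun x => |φ x|)))).const_mul (3 * L))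
        simpa using this
      refine squeeze_zero (fun k => norm_nonneg _) (fun k => ?_) e1
      rw [← integral_sub (int_mul _ _ (hFnm _) hφm) (int_mul _ _ hFm hφm)]
      have e2 : Integrable (fun x => rk k x * |φ x| + 3 * L * (dn (ns k) x * |φ x|)) :=
        (rI k).add ((int_mul _ _ (hdm _) hφa).const_mul (3 * L))
      refine (norm_integral_le_of_norm_le e2 (Eventually.of_forall fun x => ?_)).trans ?_
      · have e3 : Fn (ns k) x * φ x - F x * φ x = (Fn (ns k) x - F x) * φ x := by ring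
        rw [e3, norm_mul, Real.norm_eq_abs, Real.norm_eq_abs]
        have e4 : |Fn (ns k) x - F x| ≤ rk k x + 3 * L * dn (ns k) x := by
          have := le_max_left (|Fn (ns k) x - F x| - 3 * L * dn (ns k) x) 0
          show _ ≤ max (|Fn (ns k) x - F x| - 3 * L * dn (ns k) x) 0 + 3 * L * dn (ns k) x
          linarith
        calc _ ≤ (rk k x + 3 * L * dn (ns k) x) * |φ x| :=
              mul_le_mul_of_nonneg_right e4 (abs_nonneg _)
          _ = _ := by ring
      · rw [integral_add (rI k) ((int_mul _ _ (hdm _) hφa).const_mul (3 * L)),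
          integral_const_mul]
        have e5 := (le_abs_self _).trans (cs _ _ (hdm (ns k)) hφa)
        have e6 := mul_le_mul_of_nonneg_left e5 (show 0 ≤ 3 * L by positivity)
        linarith
    have eqn : ∀ n, ∫ x, ⟪A x (gr (φn n) x), gr φ x⟫ = - ∫ x, Fn n x * φ x := by
      intro n
      have hg := gr_diff (φn n) (hT n).smooth
      have hX : ContDiff ℝ 1 (fun x => A x (gr (φn n) x)) :=
        (hA.comp (contDiff_id.prodMk hg)).of_le (by exact_mod_cast le_top)
      have hXc : HasCompactSupport (fun x => A x (gr (φn n) x)) := by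
        refine (gr_cpt _ (hT n).cpt).mono ?_
        intro x hx
        rw [Function.mem_support] at hx ⊢
        intro h0
        apply hx
        show A x (gr (φn n) x) = 0
        rw [h0, hP.A_zero]
      rw [h2.ibpv _ hX hXc φ (gr φ) (h1.ofTest φ hφ)]
      congr 1
      refine integral_congr_ae (Eventually.of_forall fun x => ?_)
      show dv (fun y => A y (gr (φn n) y)) x * φ x = Fn n x * φ x
      rw [dv_comp hA (hT n).smooth]
    exact tendsto_nhds_unique tl (tr.neg.congr fun k => (eqn (ns k)).symm)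
  exact ⟨hFm, key⟩

end Pool.Agent.PFlow.PB
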