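import Pool.Agent.PFlow.StmtsPX
import Pool.Agent.PFlow.P.EqL

/-!
# Block PX, module XEQL: the equation of the limit
-/

open MeasureTheory Filter Topology Set
open scoped ContDiff RealInnerProductSpace

namespace Pool.Agent.PFlow.PB

open Pool.Agent.PenroseSph Pool.Agent.PFlow

open EQLAux

theorem xeql_thm (hb : BRID) (hn : XNDV) (hl : LIMEQ) (hs : SYMM) (hk : KLIMU) (hm : KSMO)
    (ht : KTN) : XEQL := by
  intro ε R g h w₀ δ κ u₀ G₀ u G M C v F N L
  have hRpos : 0 < R := by linarith [L.hR]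
  have hr : (0 : ℝ) < R / 2 := by linarith
  have hD : GData g h (R / 2) := L.data
  have hgc : ∀ i j, Continuous fun x => g x i j := fun i j =>
    (contDiffOn_univ.1 (L.data.met.smooth i j)).continuous
  have hreg : ∀ n x ξ, 0 < regA ε (δ n) (κ n) (lsq g x ξ) := by
    intro n x ξ
    have h1 : 0 ≤ lsq g x ξ := (ht g x (L.data.met.posDef x (mem_univ x)) ξ).1
    unfold regA
    have h2 : 0 < (lsq g x ξ + δ n ^ 2) ^ ((ε - 1) / 2) :=
      Real.rpow_pos_of_pos (by have := L.δ_pos n; positivity) _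
    have := L.κ_pos n
    positivity
  obtain ⟨⟨C₁, hC₁, hbd⟩, hconv⟩ := hk ε g h _ L.eps_pos L.eps_lt hD
  -- the coefficients
  set α : ℕ → E3 → E3 → Fin 3 → Fin 3 → ℝ := fun n x ξ i j =>
    (opL ε (δ n) (κ n) g x ξ (eu i j) - opL ε (δ n) (κ n) g x ξ 0) /
      regA ε (δ n) (κ n) (lsq g x ξ) with hα
  set β : ℕ → E3 → E3 → ℝ := fun n x ξ =>
    (opL ε (δ n) (κ n) g x ξ 0 + cB ε (δ n) g h x ξ) /
      regA ε (δ n) (κ n) (lsq g x ξ) with hβ
  set α₀ : E3 → E3 → Fin 3 → Fin 3 → ℝ := fun x ξ i j =>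
    volDen g x * beps ε g x ξ (cHess g x ξ (eu i j)) -
      volDen g x * beps ε g x ξ (cHess g x ξ 0) with hα₀
  set β₀ : E3 → E3 → ℝ := fun x ξ =>
    volDen g x * beps ε g x ξ (cHess g x ξ 0) +
      volDen g x * (len g x ξ * beps ε g x ξ (h x)) with hβ₀
  set C₂ : ℝ := max C (2 * C₁) with hC₂
  have hCle : C ≤ C₂ := le_max_left _ _
  have hC1le : 2 * C₁ ≤ C₂ := le_max_right _ _
  have hM2 : ∀ n i, MemLp (M n i) 2 := fun n i => ((L.h2 n).h2 i).memG
  have hmeasL : ∀ n (X : Bil), Measurable fun z : E3 × E3 =>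
      opL ε (δ n) (κ n) g z.1 z.2 X := by
    intro n X
    have h1 := (cont_opA (hm ε (δ n) (κ n) g h _ L.eps_pos L.eps_lt (L.δ_pos n) (L.κ_pos n) hD).1
      (fun i => WithLp.toLp 2 (X i))).measurable
    have h2 : (fun z : E3 × E3 => opL ε (δ n) (κ n) g z.1 z.2 X) = fun z : E3 × E3 =>
        opA (cA ε (δ n) (κ n) g) z.1 z.2 (fun i => WithLp.toLp 2 (X i)) := by
      funext z
      rw [hb.op ε (δ n) (κ n) g h _ L.eps_pos L.eps_lt (L.δ_pos n) (L.κ_pos n) hD]
      rfl
    rw [h2]
    exact h1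
  have hmeasR : ∀ n, Measurable fun z : E3 × E3 =>
      regA ε (δ n) (κ n) (lsq g z.1 z.2) := fun n => meas_regA hgc _ _ _
  have hsq : ∀ n, sqv (G n) ≤ C := by
    intro n
    have h1 := L.bound n
    have h2 := sq_nonneg' (u n)
    have h3 : 0 ≤ ∑ i, sqv (M n i) := Finset.sum_nonneg fun i _ => sqv_nonneg _
    linarith
  have hsM : ∀ n, ∑ i, sqv (M n i) ≤ C := by
    intro n
    have h1 := L.bound n
    have h2 := sq_nonneg' (u n)
    have h3 := sqv_nonneg (G n)
    linarith
  have key := hl (Ann (1 / 2) R) G M F N α β α₀ β₀ C₂ (isOpen_Ann (1 / 2) R) hM2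
    (fun i => (L.h2w.h2 i).memG) (fun n => (L.h2 n).h1.memG) L.h2w.h1.memG
    (fun n => (hsM n).trans hCle) (fun n => (hsq n).trans hCle) L.ae L.weak ?_ ?_ ?_ ?_ ?_ ?_
  · -- conclusion
    obtain ⟨hsym, hzero⟩ := hs v F N L.h2w
    rw [EqU, ae_restrict_iff' (isOpen_Ann (1 / 2) R).measurableSet]
    filter_upwards [key, hsym, hzero] with x hx hsx hzx hxU
    have hmt : mat N x = mt fun i => N i x := by
      ext i j
      exact (hsx i j).symm
    refine ⟨fun hF => ?_, fun hF => ?_⟩
    · have hF' : F x ≠ 0 := by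
        intro h0
        apply hF
        funext i
        show (F x) i = 0
        rw [h0]
        rfl
      have h1 := hx hxU hF'
      have haff := ((aff_beps ε g x (F x)).mul (volDen g x)).expand (mt fun i => N i x)
      have hvol : 0 < volDen g x :=
        Real.sqrt_pos.2 (L.data.met.posDef x (mem_univ x)).det_pos
      have h2 : volDen g x * beps ε g x (F x) (cHess g x (F x) (mt fun i => N i x)) +
          volDen g x * (len g x (F x) * beps ε g x (F x) (h x)) = 0 := by
        rw [haff, add_assoc]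
        exact h1
      rw [hmt]
      have h3 : volDen g x * (beps ε g x (F x) (cHess g x (F x) (mt fun i => N i x)) +
          len g x (F x) * beps ε g x (F x) (h x)) = 0 := by
        rw [mul_add]
        exact h2
      exact (mul_eq_zero.1 h3).resolve_left hvol.ne'
    · have hF' : F x = 0 := by
        ext i
        exact congrFun hF i
      have h1 := hzx hF'
      rw [hmt]
      ext i j
      show N i x j = 0
      rw [h1 i]
      rfl
  · -- the equation
    intro n
    obtain ⟨c, L', hc⟩ := hb.coef ε (δ n) (κ n) g h _ L.eps_pos L.eps_lt (L.δ_pos n) (L.κ_pos n)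
      hr hD
    filter_upwards [hn _ _ _ _ _ hc _ _ _ _ (isOpen_Ann (2 / 5) (3 * R / 2)) (L.loc n) (L.h2 n)]
      with x hx0 hxU
    have hx1 : (2 / 5 : ℝ) < ‖x‖ := by linarith [hxU.1]
    have hx2 : ‖x‖ < 3 * R / 2 := by linarith [hxU.2]
    have hx := hx0 ⟨hx1, hx2⟩
    rw [hb.op ε (δ n) (κ n) g h _ L.eps_pos L.eps_lt (L.δ_pos n) (L.κ_pos n) hD,
      (aff_opL ε (δ n) (κ n) g x (G n x)).expand] at hx
    have hR := hreg n x (G n x)
    simp only [hα, hβ]
    have h1 : ∑ i, ∑ j, (opL ε (δ n) (κ n) g x (G n x) (eu i j) -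
        opL ε (δ n) (κ n) g x (G n x) 0) / regA ε (δ n) (κ n) (lsq g x (G n x)) * M n i x j =
        (∑ i, ∑ j, (opL ε (δ n) (κ n) g x (G n x) (eu i j) -
        opL ε (δ n) (κ n) g x (G n x) 0) * M n i x j) /
          regA ε (δ n) (κ n) (lsq g x (G n x)) := by
      rw [Finset.sum_div]
      refine Finset.sum_congr rfl fun i _ => ?_
      rw [Finset.sum_div]
      exact Finset.sum_congr rfl fun j _ => by ring
    rw [h1, ← add_div, ← add_assoc]
    rw [div_eq_zero_iff]
    left
    exact hx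
  · intro n i j
    exact ((hmeasL n _).sub (hmeasL n _)).div (hmeasR n)
  · intro n
    refine ((hmeasL n _).add ?_).div (hmeasR n)
    exact (hm ε (δ n) (κ n) g h _ L.eps_pos L.eps_lt (L.δ_pos n) (L.κ_pos n)
      hD).2.1.continuous.measurable
  · -- the bound of α
    intro n x ξ i j
    have hb1 := fun X => (hbd (δ n) (κ n) (L.δ_pos n) (L.δ_le n) (L.κ_pos n) (L.κ_le n) x ξ X).1
    have h0 := hb1 0
    simp only [Matrix.zero_apply, abs_zero, Finset.sum_const_zero, add_zero] at h0
    have ht1 : ∀ t : ℝ, 0 < t → t * |α n x ξ i j| ≤ C₁ * t + 2 * C₁ * ‖ξ‖ := by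
      intro t htp
      have h1 := hb1 (t • eu i j)
      have h2 : ∑ k, ∑ l, |(t • eu i j) k l| = t := by
        rw [Finset.sum_eq_single i]
        · rw [Finset.sum_eq_single j]
          · simp [eu, abs_of_pos htp]
          · intro l _ hl
            simp [eu, hl]
          · simp
        · intro k _ hk
          refine Finset.sum_eq_zero fun l _ => ?_
          simp [eu, hk]
        · simp
      rw [h2] at h1
      have h3 := (aff_opL ε (δ n) (κ n) g x ξ).scale i j t
      have h4 : t * α n x ξ i j = opL ε (δ n) (κ n) g x ξ (t • eu i j) /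
          regA ε (δ n) (κ n) (lsq g x ξ) - opL ε (δ n) (κ n) g x ξ 0 /
          regA ε (δ n) (κ n) (lsq g x ξ) := by
        rw [← sub_div, h3]
        simp only [hα]
        ring
      have h5 : t * |α n x ξ i j| = |t * α n x ξ i j| := by
        rw [abs_mul, abs_of_pos htp]
      rw [h5, h4]
      refine (abs_sub _ _).trans ?_
      linarith
    have hle : |α n x ξ i j| ≤ C₁ := by
      by_contra hcon
      push Not at hcon
      have h1 := ht1 ((2 * C₁ * ‖ξ‖ + 1) / (|α n x ξ i j| - C₁)) (by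
        apply div_pos
        · positivity
        · linarith)
      have h2 : 0 < |α n x ξ i j| - C₁ := by linarith
      have h3 : (2 * C₁ * ‖ξ‖ + 1) / (|α n x ξ i j| - C₁) * (|α n x ξ i j| - C₁) =
          2 * C₁ * ‖ξ‖ + 1 := div_mul_cancel₀ _ h2.ne'
      nlinarith
    linarith
  · -- the bound of β
    intro n x ξ
    have hb1 := hbd (δ n) (κ n) (L.δ_pos n) (L.δ_le n) (L.κ_pos n) (L.κ_le n) x ξ 0
    have h0 := hb1.1
    simp only [Matrix.zero_apply, abs_zero, Finset.sum_const_zero, add_zero] at h0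
    simp only [hβ]
    rw [add_div]
    refine (abs_add_le _ _).trans ?_
    have h1 := hb1.2.1
    have h2 : 2 * C₁ * ‖ξ‖ ≤ C₂ * ‖ξ‖ := mul_le_mul_of_nonneg_right hC1le (norm_nonneg _)
    linarith
  · -- convergence
    intro x ξ p hξ hp
    have hξ' : (WithLp.ofLp ξ) ≠ 0 := by
      intro h0
      apply hξ
      ext i
      exact congrFun h0 i
    obtain ⟨h1, h2⟩ := hconv x δ κ p ξ L.δ_pos L.κ_pos L.δ_tend L.κ_tend hp hξ
    refine ⟨fun i j => ?_, ?_⟩
    · have h3 := (h1 (eu i j)).sub (h1 0)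
      refine h3.congr fun n => ?_
      simp only [hα, sub_div]
    · have h3 := (h1 0).add h2
      refine h3.congr fun n => ?_
      simp only [hβ, add_div]

end Pool.Agent.PFlow.PB
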