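import Pool.Agent.PFlow.StmtsPX
import Pool.Agent.PFlow.P.Exi
import Pool.Agent.PFlow.P.Base

/-!
# Block PX: existence for the regularised equation by monotone iteration (XEXI)
-/

open MeasureTheory Filter Topology Set
open scoped ContDiff RealInnerProductSpace ENNReal

namespace Pool.Agent.PFlow.PB

open Pool.Agent.PenroseSph Pool.Agent.PFlow

namespace PXExi

theorem exists_ae_sub (f : E3 → ℝ) (fn : ℕ → E3 → ℝ) (hf : MemLp f 2) (hn : ∀ n, MemLp (fn n) 2)
    (h : Tendsto (fun n => sq (fun x => fn n x - f x)) atTop (𝓝 0)) :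
    ∃ ns : ℕ → ℕ, StrictMono ns ∧ ∀ᵐ x, Tendsto (fun k => fn (ns k) x) atTop (𝓝 (f x)) := by
  simp only [sq_eq] at h
  rw [tend_iff f fn hf hn] at h
  have h2 := tendstoInMeasure_of_tendsto_eLpNorm (by norm_num) (fun n => (hn n).1) hf.1 h
  obtain ⟨ns, h3, h4⟩ := h2.exists_seq_tendsto_ae
  exact ⟨ns, h3, h4⟩

/-- The majorant of the squares of the approximations. -/
noncomputable def maj (ρ : ℝ) (w₀ : E3 → ℝ) (x : E3) : ℝ :=
  (Metric.closedBall (0 : E3) ρ).indicator (fun _ => (1 : ℝ)) x + w₀ x ^ 2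

theorem maj_int (ρ : ℝ) {w₀ : E3 → ℝ} (h : Test w₀) : Integrable (maj ρ w₀) := by
  refine Integrable.add ?_ ?_
  · rw [integrable_indicator_iff measurableSet_closedBall]
    exact integrableOn_const (measure_closedBall_lt_top (x := (0 : E3)) (r := ρ)).ne
  · exact (h.smooth.continuous.memLp_of_hasCompactSupport (p := 2) h.cpt).integrable_sq

theorem le_maj {ρ : ℝ} {w₀ : E3 → ℝ} {Z : Set E3} (hZ : ∀ x : E3, ρ ≤ ‖x‖ → x ∈ Z) {u : E3 → ℝ}
    {x : E3} (h0 : 0 ≤ u x) (h1 : u x ≤ 1) (hz : x ∈ Z → u x = w₀ x) : u x ^ 2 ≤ maj ρ w₀ x := by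
  unfold maj
  by_cases hx : ‖x‖ ≤ ρ
  · rw [indicator_of_mem (mem_closedBall_zero_iff.2 hx)]
    have := sq_nonneg (w₀ x)
    nlinarith
  · rw [indicator_of_notMem (fun h => hx (mem_closedBall_zero_iff.1 h)), zero_add,
      hz (hZ x (not_le.1 hx).le)]

end PXExi

open MEXI PXExi in
/-- XEXI: existence for the regularised equation. -/
theorem xexi_thm (h1 : API1) (hs : XSTEP) (ho : XORD) (hl : XLIPS) : XEXI := by
  intro A B c L r hC Z w₀ hT hw01 ⟨ρ, hρ⟩
  set m : ℝ := L ^ 2 / c + 2 with hm
  have hm' : L ^ 2 / c + 2 ≤ m := le_rfl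
  have hc0 := hC.c_pos
  have hm0 : 0 ≤ m := by positivity
  have hS : ∀ v : {v : E3 → ℝ // MemLp v 2}, ∃ (u : E3 → ℝ) (G : E3 → E3),
      StepZ A B Z w₀ m v.1 u G := fun v => hs A B c L r hC Z w₀ hT m hm' v.1 v.2
  choose S GS hSG using hS
  let w : ℕ → {v : E3 → ℝ // MemLp v 2} := fun k =>
    Nat.rec ⟨0, MemLp.zero⟩ (fun _ v => ⟨S v, (hSG v).1.memf⟩) k
  have w0 : (w 0).1 = 0 := rfl
  have ws : ∀ k, (w (k + 1)).1 = S (w k) := fun _ => rfl
  have weq : ∀ k, StepZ A B Z w₀ m (w k).1 (w (k + 1)).1 (GS (w k)) := fun k => hSG (w k)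
  -- order
  have hnn : ∀ k, ∀ᵐ x, 0 ≤ (w k).1 x := by
    intro k
    induction k with
    | zero => exact Eventually.of_forall fun x => by rw [w0]; exact le_rfl
    | succ k ih =>
      exact ho.nonneg A B c L r hC Z w₀ hT (fun x => (hw01 x).1) m hm' _ _ _ (w k).2
        (weq k) ih
  have hle1 : ∀ k, ∀ᵐ x, (w k).1 x ≤ 1 := by
    intro k
    induction k with
    | zero => exact Eventually.of_forall fun x => by rw [w0]; exact zero_le_one
    | succ k ih =>
      exact ho.le_one A B c L r hC Z w₀ hT (fun x => (hw01 x).2) m hm' _ _ _ (w k).2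
        (weq k) ih
  have hmon : ∀ k, ∀ᵐ x, (w k).1 x ≤ (w (k + 1)).1 x := by
    intro k
    induction k with
    | zero =>
      filter_upwards [hnn 1] with x hx
      rw [w0]
      exact hx
    | succ k ih =>
      exact ho.mono A B c L r hC Z w₀ hT m hm' _ _ _ _ _ _ (w k).2 (w (k + 1)).2
        (weq k) (weq (k + 1)) ih
  have hmono : ∀ j k, k ≤ j → ∀ᵐ x, (w k).1 x ≤ (w j).1 x := by
    intro j k hkj
    induction j, hkj using Nat.le_induction with
    | base => exact Eventually.of_forall fun x => le_rfl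
    | succ j _ ih =>
      filter_upwards [ih, hmon j] with x hx hx'
      exact hx.trans hx'
  have hsub : ∀ j k, k ≤ j → sq (fun x => (w j).1 x - (w k).1 x) ≤ sq (w j).1 - sq (w k).1 :=
    fun j k hkj => sq_sub_le (w j).2 (w k).2 (hnn k) (hmono j k hkj)
  have hbd : ∀ k, sq (w (k + 1)).1 ≤ ∫ x, maj ρ w₀ x := fun k => by
    refine integral_mono_ae (isq (w (k + 1)).2) (maj_int ρ hT) ?_
    filter_upwards [hnn (k + 1), hle1 (k + 1), (weq k).2.1] with x hx0 hx1 hxz
    exact le_maj hρ hx0 hx1 hxz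
  have hsm : Monotone fun k => sq (w k).1 := by
    refine monotone_nat_of_le_succ fun k => ?_
    have := hsub (k + 1) k (Nat.le_succ k)
    have h2 := sq_nn (fun x => (w (k + 1)).1 x - (w k).1 x)
    linarith
  have hbdd : BddAbove (Set.range fun k => sq (w k).1) := by
    refine ⟨∫ x, maj ρ w₀ x, ?_⟩
    rintro _ ⟨k, rfl⟩
    exact (hsm (Nat.le_succ k)).trans (hbd k)
  have hconv := tendsto_atTop_ciSup hsm hbdd
  have hcau : ∀ ε > 0, ∃ N, ∀ i ≥ N, ∀ j ≥ N, sq (fun x => (w i).1 x - (w j).1 x) < ε := by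
    intro ε hε
    obtain ⟨N, hN⟩ := Metric.cauchySeq_iff.mp hconv.cauchySeq ε hε
    refine ⟨N, fun i hi j hj => ?_⟩
    have h3 := hN i hi j hj
    rw [Real.dist_eq] at h3
    rcases le_total j i with hij | hij
    · exact (hsub i j hij).trans_lt ((le_abs_self _).trans_lt h3)
    · rw [sq_comm]
      rw [abs_sub_comm] at h3
      exact (hsub j i hij).trans_lt ((le_abs_self _).trans_lt h3)
  obtain ⟨u, hu, hul⟩ := h1.complete (fun k => (w k).1) (fun k => (w k).2) hcau
  -- gradients
  obtain ⟨C', hC'⟩ := hl A B c L r hC m hm'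
  have hgr : ∀ i j, sqv (fun x => GS (w i) x - GS (w j) x) ≤
      (|C'| + 1) * sq (fun x => (w i).1 x - (w j).1 x) := by
    intro i j
    have h3 := hC' Z w₀ hT _ _ _ _ _ _ (w i).2 (w j).2 (weq i) (weq j)
    have h4 := sq_nn (fun x => (w (i + 1)).1 x - (w (j + 1)).1 x)
    have h5 := sq_nn (fun x => (w i).1 x - (w j).1 x)
    have h6 : C' * sq (fun x => (w i).1 x - (w j).1 x) ≤
        (|C'| + 1) * sq (fun x => (w i).1 x - (w j).1 x) :=
      mul_le_mul_of_nonneg_right ((le_abs_self C').trans (by linarith)) h5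
    linarith
  have hGm : ∀ k, MemLp (GS (w k)) 2 := fun k => (weq k).1.memG
  obtain ⟨G, hG, hGl⟩ := h1.completev (fun k => GS (w k)) hGm (by
    intro ε hε
    have hpos : 0 < |C'| + 1 := by positivity
    obtain ⟨N, hN⟩ := hcau (ε / (|C'| + 1)) (by positivity)
    refine ⟨N, fun i hi j hj => (hgr i j).trans_lt ?_⟩
    have := hN i hi j hj
    rw [lt_div_iff₀ hpos] at this
    linarith)
  have hul1 : Tendsto (fun k => sq (fun x => (w (k + 1)).1 x - u x)) atTop (𝓝 0) :=
    (tendsto_add_atTop_iff_nat 1).mpr hul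
  have hH1 : H1 u G := h1.closed u G (fun k => (w (k + 1)).1) (fun k => GS (w k))
    (fun k => (weq k).1) hu hG hul1 hGl
  have hstep : Tendsto (fun k => sq (fun x => (w (k + 1)).1 x - (w k).1 x)) atTop (𝓝 0) := by
    rw [Metric.tendsto_atTop]
    intro ε hε
    obtain ⟨N, hN⟩ := hcau ε hε
    refine ⟨N, fun k hk => ?_⟩
    rw [Real.dist_eq, sub_zero, abs_of_nonneg (sq_nn _)]
    exact hN (k + 1) (hk.trans (Nat.le_succ k)) k hk
  have huz : ∀ᵐ x, x ∈ Z → u x = w₀ x := by
    obtain ⟨ns, -, hns⟩ := exists_ae_sub u (fun k => (w (k + 1)).1) hu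
      (fun k => (w (k + 1)).2) hul1
    filter_upwards [hns, ae_all_iff.2 fun k => (weq k).2.1] with x hx hxz hz
    refine tendsto_nhds_unique hx ?_
    refine tendsto_const_nhds.congr fun k => ?_
    exact (hxz (ns k) hz).symm
  refine ⟨u, G, ⟨hH1, huz, ?_⟩, ?_⟩
  · intro φ Φ hφ hφz
    have L0 := L_nn hC
    -- the left-hand side
    have hleft : Tendsto (fun k => ∫ x, ⟪A x (GS (w k) x), Φ x⟫) atTop
        (𝓝 (∫ x, ⟪A x (G x), Φ x⟫)) := by
      refine int_lim _ _ (fun k x => L * ‖GS (w k) x - G x‖) (fun x => ‖Φ x‖) ?_ ?_ ?_ ?_ ?_ ?_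
      · exact fun k => int_inner (memA hC (hGm k)) hφ.memG
      · exact int_inner (memA hC hG) hφ.memG
      · exact isqv hφ.memG
      · exact fun k => isq (((hGm k).sub hG).norm.const_mul L)
      · intro k x
        rw [← inner_sub_left]
        refine (abs_real_inner_le_norm _ _).trans ?_
        exact mul_le_mul_of_nonneg_right (hC.lipA x _ _) (norm_nonneg _)
      · have h7 : ∀ k, ∫ x, (L * ‖GS (w k) x - G x‖) ^ 2 =
            L ^ 2 * sqv (fun x => GS (w k) x - G x) := by
          intro k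
          unfold sqv
          rw [← integral_const_mul]
          refine integral_congr_ae (Eventually.of_forall fun x => ?_)
          simp only
          ring
        simp only [h7]
        have := hGl.const_mul (L ^ 2)
        rwa [mul_zero] at this
    have hright : Tendsto (fun k => ∫ x, (B x (GS (w k) x)
          - m * ((w (k + 1)).1 x - (w k).1 x)) * φ x) atTop
        (𝓝 (∫ x, B x (G x) * φ x)) := by
      have mR : ∀ k, MemLp (fun x => B x (GS (w k) x)
          - m * ((w (k + 1)).1 x - (w k).1 x)) 2 := fun k =>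
        (memB hC (hGm k)).sub (((w (k + 1)).2.sub (w k).2).const_mul m)
      have mR0 : MemLp (fun x => B x (G x)) 2 := memB hC hG
      have ma : ∀ k, MemLp (fun x => L * ‖GS (w k) x - G x‖ +
          m * |(w (k + 1)).1 x - (w k).1 x|) 2 := fun k =>
        (((hGm k).sub hG).norm.const_mul L).add
          (((w (k + 1)).2.sub (w k).2).norm.const_mul m)
      refine int_lim _ _ (fun k x => L * ‖GS (w k) x - G x‖ +
          m * |(w (k + 1)).1 x - (w k).1 x|) (fun x => |φ x|) ?_ ?_ ?_ ?_ ?_ ?_
      · exact fun k => (mR k).integrable_mul hφ.memf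
      · exact mR0.integrable_mul hφ.memf
      · exact isq hφ.memf.norm
      · exact fun k => isq (ma k)
      · intro k x
        rw [← sub_mul, abs_mul]
        refine mul_le_mul_of_nonneg_right ?_ (abs_nonneg _)
        have e : B x (GS (w k) x)
            - m * ((w (k + 1)).1 x - (w k).1 x) - B x (G x) =
            (B x (GS (w k) x) - B x (G x)) -
              m * ((w (k + 1)).1 x - (w k).1 x) := by ring
        rw [e]
        refine (abs_sub _ _).trans (add_le_add ?_ ?_)
        · exact hC.lipB x _ _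
        · rw [abs_mul, abs_of_nonneg hm0]
      · have hup : ∀ k, ∫ x, (L * ‖GS (w k) x - G x‖ +
            m * |(w (k + 1)).1 x - (w k).1 x|) ^ 2 ≤
            2 * L ^ 2 * sqv (fun x => GS (w k) x - G x) +
              2 * m ^ 2 * sq (fun x => (w (k + 1)).1 x - (w k).1 x) := by
          intro k
          have i1 : Integrable fun x => 2 * L ^ 2 * ‖GS (w k) x - G x‖ ^ 2 :=
            (isqv ((hGm k).sub hG)).const_mul _
          have i3 : Integrable fun x => 2 * m ^ 2 * ((w (k + 1)).1 x - (w k).1 x) ^ 2 :=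
            (isq ((w (k + 1)).2.sub (w k).2)).const_mul _
          have e : 2 * L ^ 2 * sqv (fun x => GS (w k) x - G x) +
              2 * m ^ 2 * sq (fun x => (w (k + 1)).1 x - (w k).1 x) =
              ∫ x, (2 * L ^ 2 * ‖GS (w k) x - G x‖ ^ 2 +
                2 * m ^ 2 * ((w (k + 1)).1 x - (w k).1 x) ^ 2) := by
            rw [integral_add i1 i3, integral_const_mul, integral_const_mul]
            rfl
          rw [e]
          refine integral_mono (isq (ma k)) (i1.add i3) fun x => ?_
          simp only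
          have q2 := sq_abs ((w (k + 1)).1 x - (w k).1 x)
          rw [← q2]
          nlinarith [sq_nonneg (L * ‖GS (w k) x - G x‖ - m * |(w (k + 1)).1 x - (w k).1 x|)]
        have hz : Tendsto (fun k => 2 * L ^ 2 * sqv (fun x => GS (w k) x - G x) +
              2 * m ^ 2 * sq (fun x => (w (k + 1)).1 x - (w k).1 x)) atTop (𝓝 0) := by
          have := (hGl.const_mul (2 * L ^ 2)).add (hstep.const_mul (2 * m ^ 2))
          simpa using this
        exact squeeze_zero (fun k => integral_nonneg fun x => sq_nonneg _) hup hz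
    refine tendsto_nhds_unique hleft ?_
    refine hright.congr fun k => ?_
    exact ((weq k).2.2 φ Φ hφ hφz).symm
  · -- the limit is between 0 and 1
    have hq : ∀ k, ∀ᵐ x, max (u x - 1) 0 ^ 2 + max (-u x) 0 ^ 2 ≤ ((w k).1 x - u x) ^ 2 := by
      intro k
      filter_upwards [hnn k, hle1 k] with x hx0 hx1
      rcases le_total (u x) 0 with h | h
      · rw [max_eq_right (by linarith), max_eq_left (by linarith)]
        nlinarith
      · rcases le_total (u x) 1 with h' | h'
        · rw [max_eq_right (by linarith), max_eq_right (by linarith)]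
          nlinarith [sq_nonneg ((w k).1 x - u x)]
        · rw [max_eq_left (by linarith), max_eq_right (by linarith)]
          nlinarith
    have hqm : AEStronglyMeasurable (fun x => max (u x - 1) 0 ^ 2 + max (-u x) 0 ^ 2) volume := by
      have hum := hu.aestronglyMeasurable
      have g : Continuous fun t : ℝ => max (t - 1) 0 ^ 2 + max (-t) 0 ^ 2 := by fun_prop
      exact g.comp_aestronglyMeasurable hum
    have hqi : Integrable (fun x => max (u x - 1) 0 ^ 2 + max (-u x) 0 ^ 2) := by
      refine (isq ((w 0).2.sub hu)).mono' hqm ?_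
      filter_upwards [hq 0] with x hx
      rw [Real.norm_of_nonneg (by positivity)]
      exact hx
    have hq0 : ∫ x, (max (u x - 1) 0 ^ 2 + max (-u x) 0 ^ 2) = 0 := by
      refine le_antisymm ?_ (integral_nonneg fun x => by positivity)
      refine ge_of_tendsto hul (Eventually.of_forall fun k => ?_)
      exact integral_mono_ae hqi (isq ((w k).2.sub hu)) (hq k)
    have hq1 := (integral_eq_zero_iff_of_nonneg (fun x => by positivity) hqi).mp hq0
    filter_upwards [hq1] with x hx
    simp only [Pi.zero_apply] at hx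
    have a1 : max (u x - 1) 0 ^ 2 = 0 := by
      have := sq_nonneg (max (u x - 1) 0)
      have := sq_nonneg (max (-u x) 0)
      linarith
    have a2 : max (-u x) 0 ^ 2 = 0 := by
      have := sq_nonneg (max (u x - 1) 0)
      have := sq_nonneg (max (-u x) 0)
      linarith
    have b1 := le_max_left (u x - 1) 0
    have b2 := le_max_left (-u x) 0
    rw [pow_eq_zero_iff two_ne_zero] at a1 a2
    constructor
    · linarith
    · linarith

end Pool.Agent.PFlow.PB
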