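import Pool.Agent.PFlow.StmtsPX

/-!
# Block PX, module XFIN: the main theorem of block PX from its parts
-/

open MeasureTheory Filter Topology Set
open scoped ContDiff RealInnerProductSpace

namespace Pool.Agent.PFlow.PB

open Pool.Agent.PenroseSph Pool.Agent.PFlow

namespace PXFin

theorem isOpen_Ann (a b : ℝ) : IsOpen (Ann a b) :=
  (isOpen_lt continuous_const continuous_norm).inter
    (isOpen_lt continuous_norm continuous_const)

/-- A closed condition which holds almost everywhere on an open set holds on its closure. -/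
theorem closure_of_ae {U : Set E3} {p : E3 → Prop} (hU : IsOpen U) (hp : IsClosed {x | p x})
    (h : ∀ᵐ x, x ∈ U → p x) : ∀ x ∈ closure U, p x := by
  have h1 : IsOpen (U ∩ {x | p x}ᶜ) := hU.inter hp.isOpen_compl
  have h2 : volume (U ∩ {x | p x}ᶜ) = 0 := by
    refine measure_mono_null ?_ h
    intro x hx
    show ¬ (x ∈ U → p x)
    intro h3
    exact hx.2 (h3 hx.1)
  have h3 : U ∩ {x | p x}ᶜ = ∅ := (h1.measure_eq_zero_iff volume).1 h2
  have h4 : U ⊆ {x | p x} := by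
    intro x hx
    by_contra h5
    have : x ∈ U ∩ {x | p x}ᶜ := ⟨hx, h5⟩
    rw [h3] at this
    exact this
  exact fun x hx => (closure_minimal h4 hp) hx

theorem mem_closure_Ann {b : ℝ} {x : E3} (h1 : 1 ≤ ‖x‖) (h2 : ‖x‖ < b) :
    x ∈ closure (Ann 1 b) := by
  have ht : Tendsto (fun t : ℝ => (1 + t) • x) (𝓝[>] 0) (𝓝 x) := by
    have hc : Continuous fun t : ℝ => (1 + t) • x :=
      (continuous_const.add continuous_id).smul continuous_const
    have := (hc.tendsto 0).mono_left (nhdsWithin_le_nhds (s := Ioi (0 : ℝ)))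
    simpa using this
  have hn : Tendsto (fun t : ℝ => ‖(1 + t) • x‖) (𝓝[>] 0) (𝓝 ‖x‖) := ht.norm
  refine mem_closure_of_tendsto ht ?_
  filter_upwards [self_mem_nhdsWithin, hn.eventually_lt_const h2] with t ht0 htb
  refine ⟨?_, htb⟩
  have h3 : (0 : ℝ) < t := ht0
  rw [norm_smul, Real.norm_eq_abs, abs_of_pos (by linarith)]
  nlinarith

end PXFin

open PXFin in
/-- XFIN. -/
theorem xfin_thm : XFIN := by
  intro hE hF hS hN hC hH hL ε R g h hε hε1 hR hg hh hmir hflat
  have hd : GData g h (R / 2) := ⟨hg, hh, hflat⟩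
  obtain ⟨w₀, δ, κ, u, G, v, V, M, C, w, F, N, lim⟩ := hL ε R g h hε hε1 hR hd hmir
  have htend : ∀ x, Tendsto (fun n => v n x) atTop (𝓝 (w x)) := fun x =>
    (lim.unif {x} isCompact_singleton).tendsto_at (mem_singleton x)
  have hout : ∀ᵐ x : E3, ∀ n, 1 ≤ ‖x‖ → ‖x‖ < 3 * R / 2 → v n x = u n x :=
    ae_all_iff.2 lim.out
  have hbdd : ∀ᵐ x : E3, ∀ n, 0 ≤ u n x ∧ u n x ≤ 1 := ae_all_iff.2 lim.bdd
  have h01 : ∀ᵐ x : E3, x ∈ Ann 1 (3 * R / 2) → 0 ≤ w x ∧ w x ≤ 1 := by
    filter_upwards [hout, hbdd] with x h1 h2 hx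
    have h3 : ∀ n, 0 ≤ v n x ∧ v n x ≤ 1 := by
      intro n
      rw [h1 n hx.1.le hx.2]
      exact h2 n
    exact ⟨ge_of_tendsto' (htend x) fun n => (h3 n).1, le_of_tendsto' (htend x) fun n => (h3 n).2⟩
  have hcl : IsClosed {x : E3 | 0 ≤ w x ∧ w x ≤ 1} :=
    (isClosed_le continuous_const lim.contw).inter (isClosed_le lim.contw continuous_const)
  have hall := closure_of_ae (isOpen_Ann 1 (3 * R / 2)) hcl h01
  have hin : ∀ x : E3, 1 ≤ ‖x‖ → ‖x‖ < R → x ∈ closure (Ann 1 (3 * R / 2)) := fun x h1 h2 =>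
    mem_closure_Ann h1 (by linarith)
  have hsub : Ann (1 / 2) R ⊆ Ann (2 / 5) (3 * R / 2) := by
    rintro x ⟨h1, h2⟩
    exact ⟨by linarith, by linarith⟩
  refine ⟨w, fun x => F x, mat N, ?_⟩
  exact
    { cont := lim.contw
      refl := by
        intro x hx
        have h1 := (htend x).const_sub 2
        refine tendsto_nhds_unique (htend (inversion x)) (h1.congr fun n => ?_)
        exact (lim.refl n x hx).symm
      nonneg := fun x h1 h2 => (hall x (hin x h1 h2)).1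
      le_one := fun x h1 h2 => (hall x (hin x h1 h2)).2
      h2 := hH w F N _ (isOpen_Ann _ _) lim.h2w lim.contw
      eq := hE _ _ _ _ _ _ _ _ _ _ _ _ _ _ _ _ lim
      flux := hF _ _ _ _ _ _ _ _ _ _ _ _ _ _ _ _ lim
      sub := fun f => (hC _ _ _ _ _ _ _ _ _ _ _ _ _ _ _ _ lim f).1
      super := fun f => (hC _ _ _ _ _ _ _ _ _ _ _ _ _ _ _ _ lim f).2
      noIsland := hN ε (R / 2) _ g h w hε hε1 hd lim.contw fun K hK hKU =>
        hS _ _ _ _ _ _ _ _ _ _ _ _ _ _ _ _ lim K hK (hKU.trans hsub) }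

end Pool.Agent.PFlow.PB
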