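import Pool.Agent.PFlow.StmtsPX
import Pool.Agent.PFlow.P.API2
import Pool.Agent.PFlow.E.LEYa

/-!
# Block PX, module XH1I: the composition of an `H¹` function with the inversion
-/

open MeasureTheory Filter Topology Set
open scoped ContDiff RealInnerProductSpace

namespace Pool.Agent.PFlow.PB

open Pool.Agent.PenroseSph Pool.Agent.PFlow

namespace PXH1I

/-! ### The cut-off function -/

/-- The cut-off function. -/
noncomputable def eta (a b : ℝ) (x : E3) : ℝ :=
  Real.smoothTransition ((‖x‖ ^ 2 - a ^ 2 / 3) / (2 * a ^ 2 / 3)) *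
    Real.smoothTransition ((3 * b ^ 2 - ‖x‖ ^ 2) / (2 * b ^ 2))

theorem eta_one {a b : ℝ} (ha : 0 < a) (hab : a < b) {x : E3} (hx : x ∈ Ann a b) :
    eta a b x = 1 := by
  have hb : 0 < b := ha.trans hab
  have h1 : a ^ 2 ≤ ‖x‖ ^ 2 := pow_le_pow_left₀ ha.le hx.1.le 2
  have h2 : ‖x‖ ^ 2 ≤ b ^ 2 := pow_le_pow_left₀ (norm_nonneg x) hx.2.le 2
  unfold eta
  rw [Real.smoothTransition.one_of_one_le, Real.smoothTransition.one_of_one_le, one_mul]
  · rw [le_div_iff₀ (by positivity)]
    nlinarith
  · rw [le_div_iff₀ (by positivity)]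
    nlinarith

theorem eta_zero {a b : ℝ} (ha : 0 < a) (hab : a < b) {x : E3} (hx : ‖x‖ ≤ a / 2 ∨ 2 * b ≤ ‖x‖) :
    eta a b x = 0 := by
  have hb : 0 < b := ha.trans hab
  unfold eta
  rcases hx with hx | hx
  · have h1 : ‖x‖ ^ 2 ≤ (a / 2) ^ 2 := pow_le_pow_left₀ (norm_nonneg x) hx 2
    rw [Real.smoothTransition.zero_of_nonpos, zero_mul]
    refine div_nonpos_of_nonpos_of_nonneg ?_ (by positivity)
    nlinarith
  · have h1 : (2 * b) ^ 2 ≤ ‖x‖ ^ 2 := pow_le_pow_left₀ (by positivity) hx 2
    rw [Real.smoothTransition.zero_of_nonpos (x := (3 * b ^ 2 - ‖x‖ ^ 2) / (2 * b ^ 2)), mul_zero]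
    refine div_nonpos_of_nonpos_of_nonneg ?_ (by positivity)
    nlinarith

theorem eta_smooth (a b : ℝ) : ContDiff ℝ ∞ (eta a b) := by
  have h : ContDiff ℝ ∞ (fun x : E3 => ‖x‖ ^ 2) := contDiff_norm_sq ℝ
  unfold eta
  refine ContDiff.mul ?_ ?_
  · exact Real.smoothTransition.contDiff.comp ((h.sub contDiff_const).div_const _)
  · exact Real.smoothTransition.contDiff.comp ((contDiff_const.sub h).div_const _)

theorem eta_test {a b : ℝ} (ha : 0 < a) (hab : a < b) : Test (eta a b) := by
  refine ⟨eta_smooth a b, HasCompactSupport.intro (isCompact_closedBall (0 : E3) (2 * b)) ?_⟩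
  intro x hx
  refine eta_zero ha hab (Or.inr ?_)
  rw [Metric.mem_closedBall, dist_zero_right, not_le] at hx
  exact hx.le

theorem not_ann {a b : ℝ} {x : E3} (hx : x ∉ Ann a b) : ‖x‖ ≤ a ∨ b ≤ ‖x‖ := by
  by_contra h
  rw [not_or, not_le, not_le] at h
  exact hx h

/-! ### Composition of smooth functions with the inversion -/

theorem JT_add (x ξ η : E3) : JT x (ξ + η) = JT x ξ + JT x η := by
  ext i
  simp [JT, mul_add, Finset.sum_add_distrib]

theorem JT_sub (x ξ η : E3) : JT x (ξ - η) = JT x ξ - JT x η := by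
  ext i
  simp [JT, mul_sub, Finset.sum_sub_distrib]

theorem norm_inv (x : E3) : ‖inversion x‖ = ‖x‖⁻¹ := by
  rcases eq_or_ne x 0 with rfl | hx
  · simp [inversion]
  · exact HSM2.norm_inversion x hx

/-- The gradient of the composition. -/
theorem gr_comp {ψ : E3 → ℝ} (hψ : Differentiable ℝ ψ) {x : E3} (hx : x ≠ 0) :
    gr (fun y => ψ (inversion y)) x = JT x (gr ψ (inversion x)) := by
  ext i
  have h1 := PenroseConvex.CovR.pd_chain inversion ψ x i (hψ _)
    ((LEYaux.inversion_contDiffAt hx).differentiableAt (by simp))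
  have h2 : ∀ a, pd i (fun y => inversion y a) x = inversionJac x a i := by
    intro a
    rw [← LEYaux.jac_inversion hx]
    rfl
  change pd i (fun y => ψ (inversion y)) x = ∑ a, inversionJac x a i * pd a ψ (inversion x)
  rw [h1]
  refine Finset.sum_congr rfl fun a _ => ?_
  rw [h2 a, mul_comm]

/-- Smooth functions which vanish near the origin and far out. -/
theorem comp_test (h1 : API1) (h2 : API2) {a b : ℝ} (ha : 0 < a) (hab : a < b) {ψ : E3 → ℝ}
    (hψ : ContDiff ℝ 1 ψ) (h0 : ∀ x : E3, (‖x‖ ≤ a ∨ b ≤ ‖x‖) → ψ x = 0) :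
    H1 (fun x => ψ (inversion x)) (fun x => JT x (gr ψ (inversion x))) := by
  have hb : 0 < b := ha.trans hab
  have hs : ContDiff ℝ 1 (fun x => ψ (inversion x)) := by
    rw [contDiff_iff_contDiffAt]
    intro x
    rcases eq_or_ne x 0 with rfl | hx
    · have h3 : (fun y => ψ (inversion y)) =ᶠ[𝓝 (0 : E3)] fun _ => 0 := by
        have h4 : ∀ᶠ y : E3 in 𝓝 0, ‖y‖ < b⁻¹ := by
          have := Metric.ball_mem_nhds (0 : E3) (inv_pos.mpr hb)
          filter_upwards [this] with y hy
          rwa [Metric.mem_ball, dist_zero_right] at hy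
        filter_upwards [h4] with y hy
        rcases eq_or_ne y 0 with rfl | hy0
        · apply h0
          left
          rw [LEYaux.inversion_zero, norm_zero]
          exact ha.le
        · apply h0
          right
          rw [norm_inv]
          have hyp : 0 < ‖y‖ := norm_pos_iff.mpr hy0
          rw [le_inv_comm₀ hb hyp]
          exact hy.le
      exact contDiffAt_const.congr_of_eventuallyEq h3
    · exact hψ.contDiffAt.comp x ((LEYaux.inversion_contDiffAt hx).of_le (by exact_mod_cast le_top))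
  have hc : HasCompactSupport (fun x => ψ (inversion x)) := by
    refine HasCompactSupport.intro (isCompact_closedBall (0 : E3) a⁻¹) ?_
    intro x hx
    rw [Metric.mem_closedBall, dist_zero_right, not_le] at hx
    apply h0
    left
    rw [norm_inv]
    have hxp : 0 < ‖x‖ := (inv_pos.mpr ha).trans hx
    rw [inv_le_comm₀ hxp ha]
    exact hx.le
  refine h1.congr _ _ _ _ (h2.ofC1 _ hs hc) (EventuallyEq.refl _ _) ?_
  have h5 : ∀ᵐ x : E3, x ≠ 0 := by
    rw [ae_iff]
    simp
  filter_upwards [h5] with x hx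
  exact gr_comp (hψ.differentiable (by norm_num)) hx

end PXH1I

open PXH1I in
/-- XH1I: the composition with the inversion belongs to `H¹`. -/
theorem xh1i_thm (h1 : API1) (h2 : API2) (hv : XCOV) : XH1I := by
  intro a b ha hab f F hf hf0
  have hb : 0 < b := ha.trans hab
  have ha2 : 0 < a / 2 := by positivity
  have hab2 : a / 2 < 2 * b := by linarith
  obtain ⟨φ, a1, a2, a3⟩ := hf.approx
  have hη := eta_test ha hab
  obtain ⟨C1, hC1⟩ := hη.smooth.continuous.bounded_above_of_compact_support hη.cpt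
  obtain ⟨C2, hC2⟩ := (gr_cont _ hη.one).bounded_above_of_compact_support (gr_cpt _ hη.cpt)
  set C : ℝ := max C1 C2 with hC
  have b1 : ∀ x, |eta a b x| ≤ C := fun x => (hC1 x).trans (le_max_left _ _)
  have b2 : ∀ x, ‖gr (eta a b) x‖ ≤ C := fun x => (hC2 x).trans (le_max_right _ _)
  have hηc := hη.smooth.continuous
  have hgc := gr_cont _ hη.one
  -- the cut-off functions
  have hT : ∀ n, Test (fun x => eta a b x * φ n x) := fun n =>
    ⟨hη.smooth.mul (a1 n).smooth, (a1 n).cpt.mul_left⟩
  have hzero : ∀ (u : E3 → ℝ) (x : E3), (‖x‖ ≤ a / 2 ∨ 2 * b ≤ ‖x‖) → eta a b x * u x = 0 := by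
    intro u x hx
    rw [eta_zero ha hab hx, zero_mul]
  have hH : ∀ n, H1 (fun x => eta a b (inversion x) * φ n (inversion x))
      (fun x => JT x (gr (fun x => eta a b x * φ n x) (inversion x))) := fun n =>
    comp_test h1 h2 ha2 hab2 (hT n).one (hzero (φ n))
  -- the limit
  have hmul := h2.mul f F (eta a b) C hf hη.one b1 b2
  have hff : (fun x => eta a b x * f x) =ᵐ[volume] f := by
    filter_upwards [hf0] with x hx
    by_cases hxa : x ∈ Ann a b
    · rw [eta_one ha hab hxa, one_mul]
    · rw [hx hxa, mul_zero]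
  have hFF : F =ᵐ[volume] fun x => eta a b x • F x + f x • gr (eta a b) x := by
    refine h1.unique f _ _ hf (h1.congr _ _ _ _ hmul hff (EventuallyEq.refl _ _))
  have hgr : ∀ n x, gr (fun x => eta a b x * φ n x) x =
      eta a b x • gr (φ n) x + φ n x • gr (eta a b) x := fun n x =>
    gr_mul _ _ x (hη.one.differentiable (by norm_num) x) ((a1 n).one.differentiable (by norm_num) x)
  have hfm := fun n => test_memLp _ (a1 n)
  have hgm := fun n => gr_memLp _ (a1 n).one (a1 n).cpt
  -- convergence
  have c1 : Tendsto (fun n => sq (fun x => eta a b x * φ n x - f x)) atTop (𝓝 0) := by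
    have h3 := a2.const_mul (C ^ 2)
    rw [mul_zero] at h3
    refine squeeze_zero (fun n => sq_nonneg' _) (fun n => ?_) h3
    have := sq_mul_le (eta a b) (fun x => φ n x - f x) C ((hfm n).sub hf.memf) b1
    refine le_trans (le_of_eq ?_) this
    refine integral_congr_ae ?_
    filter_upwards [hff] with x hx
    have e : eta a b x * (φ n x - f x) = eta a b x * φ n x - f x := by
      rw [mul_sub, hx]
    show (eta a b x * φ n x - f x) ^ 2 = (eta a b x * (φ n x - f x)) ^ 2
    rw [e]
  have c2 : Tendsto (fun n => sqv (fun x => gr (fun x => eta a b x * φ n x) x - F x)) atTop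
      (𝓝 0) := by
    have h4 := tend_add_sqv (fun x => eta a b x • F x) (fun x => f x • gr (eta a b) x)
      (fun n x => eta a b x • gr (φ n) x) (fun n x => φ n x • gr (eta a b) x)
      (memLp_smul_bdd _ F C hf.memG hηc b1) (memLp_smul_bdd' f _ C hf.memf hgc b2)
      (fun n => memLp_smul_bdd _ _ C (hgm n) hηc b1)
      (fun n => memLp_smul_bdd' _ _ C (hfm n) hgc b2) ?_ ?_
    · refine h4.congr fun n => ?_
      refine integral_congr_ae ?_
      filter_upwards [hFF] with x hx
      rw [hgr n x]
      conv_rhs => rw [hx]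
    · have h3 := a3.const_mul (C ^ 2)
      rw [mul_zero] at h3
      refine squeeze_zero (fun n => sqv_nonneg' _) (fun n => ?_) h3
      have := sqv_smul_le (eta a b) (fun x => gr (φ n) x - F x) C ((hgm n).sub hf.memG) b1
      refine le_trans (le_of_eq ?_) this
      congr 1
      ext1 x
      rw [smul_sub]
    · have h3 := a2.const_mul (C ^ 2)
      rw [mul_zero] at h3
      refine squeeze_zero (fun n => sqv_nonneg' _) (fun n => ?_) h3
      have := sqv_smul_le' (fun x => φ n x - f x) (gr (eta a b)) C ((hfm n).sub hf.memf) b2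
      refine le_trans (le_of_eq ?_) this
      congr 1
      ext1 x
      rw [sub_smul]
  -- change of variables
  obtain ⟨D, hD, hD1, hD2⟩ := hv.mem (a / 2) (2 * b) ha2 hab2
  have z1 : ∀ᵐ x, x ∉ Ann (a / 2) (2 * b) → f x = 0 := by
    filter_upwards [hf0] with x hx hxa
    apply hx
    intro hxb
    apply hxa
    exact ⟨by linarith [hxb.1], by linarith [hxb.2]⟩
  have gz : ∀ x : E3, x ∉ Ann (a / 2) (2 * b) → gr (eta a b) x = 0 := by
    intro x hx
    -- `η ≥ 0` has a minimum at `x`
    have hmin : IsLocalMin (eta a b) x := by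
      refine Eventually.of_forall fun y => ?_
      rw [eta_zero ha hab (not_ann hx)]
      unfold eta
      exact mul_nonneg (Real.smoothTransition.nonneg _) (Real.smoothTransition.nonneg _)
    have h5 := hmin.fderiv_eq_zero
    ext i
    change fderiv ℝ (eta a b) x _ = 0
    rw [h5]
    rfl
  have z2 : ∀ᵐ x, x ∉ Ann (a / 2) (2 * b) → F x = 0 := by
    filter_upwards [hFF] with x hx hxa
    rw [hx, gz x hxa, eta_zero ha hab (not_ann hxa), zero_smul, smul_zero, add_zero]
  obtain ⟨m1, -⟩ := hD1 f hf.memf z1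
  obtain ⟨m2, -⟩ := hD2 F hf.memG z2
  refine h1.closed _ _ _ _ hH m1 m2 ?_ ?_
  · have h3 := c1.const_mul D
    rw [mul_zero] at h3
    refine squeeze_zero (fun n => sq_nonneg' _) (fun n => ?_) h3
    refine (hD1 (fun x => eta a b x * φ n x - f x) ((test_memLp _ (hT n)).sub hf.memf) ?_).2
    filter_upwards [z1] with x hx hxa
    rw [hx hxa, hzero (φ n) x (not_ann hxa), sub_zero]
  · have h3 := c2.const_mul D
    rw [mul_zero] at h3
    refine squeeze_zero (fun n => sqv_nonneg' _) (fun n => ?_) h3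
    have h4 := (hD2 (fun x => gr (fun x => eta a b x * φ n x) x - F x)
      ((gr_memLp _ (hT n).one (hT n).cpt).sub hf.memG) ?_).2
    · refine le_trans (le_of_eq ?_) h4
      congr 1
      funext x
      rw [JT_sub]
    · filter_upwards [z2] with x hx hxa
      rw [hx hxa, hgr n x, gz x hxa, eta_zero ha hab (not_ann hxa), zero_smul, smul_zero, add_zero,
        sub_zero]

end Pool.Agent.PFlow.PB
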