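import Pool.Agent.PFlow.StmtsPX
import Pool.Agent.PFlow.P.Base

/-!
# Block PX, XHTW: weak solutions belong to `H²` locally
-/

open MeasureTheory Filter Topology Set
open scoped ContDiff RealInnerProductSpace

namespace Pool.Agent.PFlow.PB

open Pool.Agent.PenroseSph Pool.Agent.PFlow

namespace PXHTw

theorem pd_test {f : E3 → ℝ} (hf : Test f) (i : Fin 3) : Test (pd i f) where
  smooth := by
    have h1 : ContDiff ℝ ∞ (fderiv ℝ f) := hf.smooth.fderiv_right (m := ∞) le_rfl
    exact h1.clm_apply contDiff_const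
  cpt := hf.cpt.fderiv_apply (𝕜 := ℝ) _

/-- A common bound for a test function and its gradient. -/
theorem bdd {f : E3 → ℝ} (hf : Test f) : ∃ C : ℝ, (∀ x, |f x| ≤ C) ∧ ∀ x, ‖gr f x‖ ≤ C := by
  obtain ⟨C, hC⟩ := hf.smooth.continuous.bounded_above_of_compact_support hf.cpt
  obtain ⟨C', hC'⟩ := (gr_cont f hf.one).bounded_above_of_compact_support (gr_cpt f hf.cpt)
  exact ⟨max C C', fun x => (hC x).trans (le_max_left _ _),
    fun x => (hC' x).trans (le_max_right _ _)⟩

end PXHTw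

open PXHTw in
theorem xhtw_thm (h1 : API1) (h2 : API2) (hd : XDQ) : XHTW := by
  intro A B c L r hp U u G hU hu ζ hζ hs
  obtain ⟨C, hC1, hC2⟩ := bdd hζ
  choose N hN using fun i => hd A B c L r hp U u G hU hu ζ hζ hs i
  have hpd := fun i => pd_test hζ i
  choose C' hC1' hC2' using fun i => bdd (hpd i)
  refine ⟨fun i x => N i x + (pd i ζ x • G x + u x • gr (pd i ζ) x),
    h2.mul u G ζ C hu.1 hζ.one hC1 hC2, fun i => ?_⟩
  have a1 := h1.add _ _ _ _ (hN i) (h2.mul u G (pd i ζ) (C' i) hu.1 (hpd i).one (hC1' i) (hC2' i))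
  have a2 : (fun x => (ζ x • G x + u x • gr ζ x) i) =
      fun x => ζ x * G x i + pd i ζ x * u x := by
    funext x
    rw [PiLp.add_apply, PiLp.smul_apply, PiLp.smul_apply, gr_apply, smul_eq_mul, smul_eq_mul,
      mul_comm (u x)]
  rw [a2]
  exact a1

end Pool.Agent.PFlow.PB
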