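import Pool.Agent.PFlow.StmtsPX
import Pool.Agent.PFlow.E.HSM2

/-!
# The coefficients under the inversion

For data which are symmetric under the inversion, `g(x) = Jᵀ g(y) J` and `h(x) = -Jᵀ h(y) J` with
`y = x / |x|²` and the Jacobian matrix `J`; the coefficients transform accordingly.
-/

open MeasureTheory Filter Topology Set
open scoped ContDiff RealInnerProductSpace

namespace Pool.Agent.PFlow.PB

open Pool.Agent.PenroseSph Pool.Agent.PFlow

namespace PXInv

theorem ev_dot (B : Bil) (v w : Cov) : ev B v w = v ⬝ᵥ (B.mulVec w) := by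
  unfold ev
  simp only [dotProduct, Matrix.mulVec, Finset.mul_sum]
  refine Finset.sum_congr rfl fun i _ => Finset.sum_congr rfl fun j _ => ?_
  ring

theorem raise_mul (g : TensorField) (x : E3) (p : Cov) : raise g x p = (g x)⁻¹.mulVec p := rfl

theorem trg_trace (g : TensorField) (x : E3) (B : Bil) :
    trg g x B = ((g x)⁻¹ * B.transpose).trace := by
  unfold trg Matrix.trace
  simp only [Matrix.diag_apply, Matrix.mul_apply, Matrix.transpose_apply]

theorem jt_mul (x ξ : E3) :
    (JT x ξ : Cov) = (inversionJac x).transpose.mulVec (ξ : Cov) := by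
  unfold JT
  rfl

theorem dot_cancel {J : Bil} (hJ : IsUnit J.det) (v w : Cov) :
    (J⁻¹.mulVec v) ⬝ᵥ (J.transpose.mulVec w) = v ⬝ᵥ w := by
  rw [Matrix.dotProduct_mulVec, Matrix.vecMul_transpose, Matrix.mulVec_mulVec,
    Matrix.mul_nonsing_inv J hJ, Matrix.one_mulVec]

variable {g h : TensorField} {x : E3}

theorem inv_eq
    (hg : g x = (inversionJac x).transpose * g (inversion x) * inversionJac x) :
    (g x)⁻¹ = (inversionJac x)⁻¹ * (g (inversion x))⁻¹ * ((inversionJac x).transpose)⁻¹ := by
  rw [hg, Matrix.mul_inv_rev, Matrix.mul_inv_rev, Matrix.mul_assoc]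

theorem raise_eq (hJ : IsUnit (inversionJac x).det)
    (hg : g x = (inversionJac x).transpose * g (inversion x) * inversionJac x) (ξ : Cov) :
    raise g x ((inversionJac x).transpose.mulVec ξ) =
      (inversionJac x)⁻¹.mulVec (raise g (inversion x) ξ) := by
  have hJt : IsUnit (inversionJac x).transpose.det := by rwa [Matrix.det_transpose]
  rw [raise_mul, raise_mul, inv_eq hg, Matrix.mulVec_mulVec, Matrix.mulVec_mulVec,
    Matrix.mul_assoc, Matrix.nonsing_inv_mul _ hJt, Matrix.mul_one]

theorem lsq_eq (hJ : IsUnit (inversionJac x).det)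
    (hg : g x = (inversionJac x).transpose * g (inversion x) * inversionJac x) (ξ : Cov) :
    lsq g x ((inversionJac x).transpose.mulVec ξ) = lsq g (inversion x) ξ := by
  unfold lsq
  rw [ev_dot, ev_dot, ← raise_mul, ← raise_mul, raise_eq hJ hg, dotProduct_comm,
    dot_cancel hJ, dotProduct_comm]

theorem ev_cov (hJ : IsUnit (inversionJac x).det)
    (hh : h x = -((inversionJac x).transpose * h (inversion x) * inversionJac x)) (r : Cov) :
    ev (h x) ((inversionJac x)⁻¹.mulVec r) ((inversionJac x)⁻¹.mulVec r) =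
      -ev (h (inversion x)) r r := by
  rw [ev_dot, ev_dot, hh, Matrix.neg_mulVec, dotProduct_neg, Matrix.mulVec_mulVec,
    Matrix.mul_assoc, Matrix.mul_nonsing_inv _ hJ, Matrix.mul_one, ← Matrix.mulVec_mulVec,
    dot_cancel hJ]

theorem trg_cov (hJ : IsUnit (inversionJac x).det)
    (hg : g x = (inversionJac x).transpose * g (inversion x) * inversionJac x)
    (hh : h x = -((inversionJac x).transpose * h (inversion x) * inversionJac x)) :
    trg g x (h x) = -trg g (inversion x) (h (inversion x)) := by
  have hJt : IsUnit (inversionJac x).transpose.det := by rwa [Matrix.det_transpose]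
  have h1 : (g x)⁻¹ * (h x).transpose =
      -((inversionJac x)⁻¹ * ((g (inversion x))⁻¹ * (h (inversion x)).transpose) *
        inversionJac x) := by
    rw [inv_eq hg, hh, Matrix.transpose_neg, Matrix.transpose_mul, Matrix.transpose_mul,
      Matrix.transpose_transpose, Matrix.mul_neg]
    congr 1
    calc (inversionJac x)⁻¹ * (g (inversion x))⁻¹ * ((inversionJac x).transpose)⁻¹ *
          ((inversionJac x).transpose * ((h (inversion x)).transpose * inversionJac x))
        = (inversionJac x)⁻¹ * (g (inversion x))⁻¹ * (((inversionJac x).transpose)⁻¹ *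
          (inversionJac x).transpose) * ((h (inversion x)).transpose * inversionJac x) := by
          simp only [Matrix.mul_assoc]
      _ = _ := by
          rw [Matrix.nonsing_inv_mul _ hJt, Matrix.mul_one]
          simp only [Matrix.mul_assoc]
  rw [trg_trace, trg_trace, h1, Matrix.trace_neg, Matrix.trace_mul_comm, ← Matrix.mul_assoc,
    Matrix.mul_nonsing_inv _ hJ, Matrix.one_mul]

theorem det_abs (hx : x ≠ 0) : |(inversionJac x).det| = (‖x‖ ^ 6)⁻¹ := by
  have h1 := congrArg Matrix.det (HSM2.jac_sq x hx)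
  rw [Matrix.det_mul, Matrix.det_smul, Matrix.det_one, Fintype.card_fin, mul_one] at h1
  have h2 : |(inversionJac x).det| ^ 2 = ((‖x‖ ^ 6)⁻¹) ^ 2 := by
    rw [sq_abs, pow_two, h1]
    ring
  exact (pow_left_inj₀ (abs_nonneg _) (by positivity) (by norm_num)).1 h2

theorem volDen_cov (hx : x ≠ 0)
    (hg : g x = (inversionJac x).transpose * g (inversion x) * inversionJac x) :
    volDen g x = (‖x‖ ^ 6)⁻¹ * volDen g (inversion x) := by
  unfold volDen
  have h1 : (g x).det = (inversionJac x).det ^ 2 * (g (inversion x)).det := by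
    rw [hg, Matrix.det_mul, Matrix.det_mul, Matrix.det_transpose]
    ring
  rw [h1, Real.sqrt_mul (sq_nonneg _), Real.sqrt_sq_eq_abs, det_abs hx]

theorem raise_neg (g : TensorField) (x : E3) (p : Cov) : raise g x (-p) = -raise g x p := by
  rw [raise_mul, raise_mul, Matrix.mulVec_neg]

theorem lsq_neg (g : TensorField) (x : E3) (p : Cov) : lsq g x (-p) = lsq g x p := by
  unfold lsq
  rw [ev_dot, ev_dot, Matrix.mulVec_neg, neg_dotProduct, dotProduct_neg, neg_neg]

theorem ev_neg_neg (B : Bil) (p : Cov) : ev B (-p) (-p) = ev B p p := by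
  rw [ev_dot, ev_dot, Matrix.mulVec_neg, neg_dotProduct, dotProduct_neg, neg_neg]

theorem inner_cov (a b : E3) : ⟪a, b⟫ = (a : Cov) ⬝ᵥ (b : Cov) := by
  rw [PiLp.inner_apply]
  simp only [dotProduct, RCLike.inner_apply, conj_trivial]
  refine Finset.sum_congr rfl fun i _ => ?_
  ring

end PXInv

open PXInv in
/-- The coefficients under the inversion. -/
theorem xinv_thm : XINV := by
  intro ε δ κ g h r hδ hd hm x hx1 hx2
  have hx0 : x ≠ 0 := by
    intro h0
    rw [h0, norm_zero] at hx1
    norm_num at hx1
  have hJ : IsUnit (inversionJac x).det := HSM2.jac_unit x hx0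
  obtain ⟨hg0, hh0⟩ := hm x hx1 hx2
  have hg : g x = (inversionJac x).transpose * g (inversion x) * inversionJac x := hg0.symm
  have hh : h x = -((inversionJac x).transpose * h (inversion x) * inversionJac x) := by
    have h1 : (inversionJac x).transpose * h (inversion x) * inversionJac x = -h x := hh0
    rw [h1, neg_neg]
  have hc : ∀ ξ : E3, ((-JT x ξ : E3) : Cov) =
      -((inversionJac x).transpose.mulVec (ξ : Cov)) := fun ξ => rfl
  have hl : ∀ ξ : E3, lsq g x (-JT x ξ : E3) = lsq g (inversion x) ξ := by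
    intro ξ
    rw [hc, lsq_neg, lsq_eq hJ hg]
  have hr : ∀ ξ : E3, raise g x (-JT x ξ : E3) =
      -((inversionJac x)⁻¹.mulVec (raise g (inversion x) ξ)) := by
    intro ξ
    rw [hc, raise_neg, raise_eq hJ hg]
  refine ⟨fun ξ η => ?_, fun ξ => ?_⟩
  · have h1 : ((cA ε δ κ g x (-JT x ξ) : E3) : Cov) =
        -((volDen g x * regA ε δ κ (lsq g (inversion x) ξ)) •
          ((inversionJac x)⁻¹.mulVec (raise g (inversion x) ξ))) := by
      funext i
      change volDen g x * regA ε δ κ (lsq g x (-JT x ξ : E3)) * raise g x (-JT x ξ : E3) i = _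
      rw [hl, hr]
      simp only [Pi.neg_apply, Pi.smul_apply, smul_eq_mul]
      ring
    have h2 : ((cA ε δ κ g (inversion x) ξ : E3) : Cov) =
        (volDen g (inversion x) * regA ε δ κ (lsq g (inversion x) ξ)) •
          (raise g (inversion x) ξ) := by
      funext i
      change volDen g (inversion x) * regA ε δ κ (lsq g (inversion x) ξ) *
        raise g (inversion x) ξ i = _
      simp only [Pi.smul_apply, smul_eq_mul]
    rw [inner_cov, inner_cov, h1, h2, jt_mul, neg_dotProduct, smul_dotProduct, smul_dotProduct,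
      dot_cancel hJ, volDen_cov hx0 hg]
    simp only [smul_eq_mul]
    ring
  · unfold cB
    rw [hl, hr, ev_neg_neg, ev_cov hJ hh, trg_cov hJ hg hh, volDen_cov hx0 hg]
    ring

end Pool.Agent.PFlow.PB
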