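import Pool.Agent.PFlow.StmtsPX

/-!
# Block PX, module XLCG: weak solutions which agree on an open set
-/

open MeasureTheory Filter Topology Set
open scoped ContDiff RealInnerProductSpace

namespace Pool.Agent.PFlow.PB

open Pool.Agent.PenroseSph Pool.Agent.PFlow

/-- XLCG. -/
theorem xlcg_thm (h1 : API1) (hc : CHAIN) : XLCG := by
  intro A B c L r hP U O u G w W hU hw hOU hwu
  refine ⟨hw, ?_⟩
  rintro φ Φ hφ ⟨K, hK, hKO, hφK⟩
  have h := hU.2 φ Φ hφ ⟨K, hK, hKO.trans hOU, hφK⟩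
  have hz := hc.zero φ Φ hφ
  have hd := hc.zero _ _ (h1.sub _ _ _ _ hw hU.1)
  have e1 : ∫ x, ⟪A x (W x), Φ x⟫ = ∫ x, ⟪A x (G x), Φ x⟫ := by
    refine integral_congr_ae ?_
    filter_upwards [hφK, hz, hd, hwu] with x h3 h4 h5 h6
    by_cases hx : x ∈ K
    · have h7 : W x - G x = 0 := h5 (by rw [h6 (hKO hx), sub_self])
      rw [sub_eq_zero.1 h7]
    · rw [h4 (h3 hx), inner_zero_right, inner_zero_right]
  have e2 : ∫ x, B x (W x) * φ x = ∫ x, B x (G x) * φ x := by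
    refine integral_congr_ae ?_
    filter_upwards [hφK, hd, hwu] with x h3 h5 h6
    by_cases hx : x ∈ K
    · have h7 : W x - G x = 0 := h5 (by rw [h6 (hKO hx), sub_self])
      rw [sub_eq_zero.1 h7]
    · rw [h3 hx, mul_zero, mul_zero]
  rw [e1, e2, h]

end Pool.Agent.PFlow.PB
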