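import Pool.Agent.PFlow.StmtsPX

/-!
# Block PX, module XLIM: existence of the sequence of reflected solutions and of its limit
-/

open MeasureTheory Filter Topology Set
open scoped ContDiff RealInnerProductSpace ENNReal

namespace Pool.Agent.PFlow.PB

open Pool.Agent.PenroseSph Pool.Agent.PFlow

namespace PXLim

theorem cont_of_holder {w : E3 → ℝ} {A : ℝ}
    (h : ∀ x y, ‖x - y‖ ≤ 1 → |w x - w y| ≤ A * ‖x - y‖ ^ (1 / 4 : ℝ)) : Continuous w := by
  rw [continuous_iff_continuousAt]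
  intro x
  unfold ContinuousAt
  rw [tendsto_iff_norm_sub_tendsto_zero]
  have h1 : Tendsto (fun y => A * ‖y - x‖ ^ (1 / 4 : ℝ)) (𝓝 x) (𝓝 0) := by
    have h2 : Tendsto (fun y => ‖y - x‖) (𝓝 x) (𝓝 0) := by
      have := (continuous_id.sub continuous_const).norm.tendsto x (f := fun y : E3 => ‖y - x‖)
      simpa using this
    have h3 := (h2.rpow_const (p := (1 / 4 : ℝ)) (Or.inr (by norm_num))).const_mul A
    rw [Real.zero_rpow (by norm_num), mul_zero] at h3
    exact h3
  have h4 : ∀ᶠ y in 𝓝 x, ‖y - x‖ ≤ 1 := by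
    filter_upwards [Metric.closedBall_mem_nhds x one_pos] with y hy
    rwa [mem_closedBall_iff_norm] at hy
  refine squeeze_zero' (Filter.Eventually.of_forall fun y => norm_nonneg _) ?_ h1
  filter_upwards [h4] with y hy
  rw [Real.norm_eq_abs]
  exact h y x hy

theorem h2_congr (h1 : API1) {u w : E3 → ℝ} {G : E3 → E3} {M : Fin 3 → E3 → E3}
    (h : H2 u G M) (hw : w =ᵐ[volume] u) : H2 w G M :=
  ⟨h1.congr _ _ _ _ h.h1 hw.symm (Filter.EventuallyEq.refl _ _), h.h2⟩

theorem sq_congr {u w : E3 → ℝ} (hw : w =ᵐ[volume] u) : sq w = sq u := by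
  apply integral_congr_ae
  filter_upwards [hw] with x hx
  rw [hx]

/-- The boundary function. -/
theorem exists_w0 (b : ℝ) (hb : 1 < b) : ∃ w₀ : E3 → ℝ, Test w₀ ∧ (∀ x, 0 ≤ w₀ x ∧ w₀ x ≤ 1) ∧
    (∀ x : E3, ‖x‖ ≤ 1 → w₀ x = 1) ∧ (∀ x : E3, b ≤ ‖x‖ → w₀ x = 0) := by
  let f : ContDiffBump (0 : E3) := ⟨1, b, one_pos, hb⟩
  refine ⟨f, ⟨f.contDiff, f.hasCompactSupport⟩, fun x => ⟨f.nonneg, f.le_one⟩, ?_, ?_⟩
  · intro x hx
    apply f.one_of_mem_closedBall
    rw [mem_closedBall_zero_iff]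
    exact hx
  · intro x hx
    apply f.zero_of_le_dist
    rw [dist_zero_right]
    exact hx

/-- The cut-off function. -/
theorem exists_zeta (R : ℝ) (hR : 8 ≤ R) : ∃ ζ : E3 → ℝ, Test ζ ∧ (∀ x, 0 ≤ ζ x ∧ ζ x ≤ 1) ∧
    (∀ x : E3, 2 / 5 ≤ ‖x‖ → ‖x‖ ≤ 3 * R / 2 → ζ x = 1) ∧
    tsupport ζ ⊆ Ann (1 / 3) (2 * R) := by
  let f : ContDiffBump (0 : E3) := ⟨3 * R / 2, 7 * R / 4, by linarith, by linarith⟩
  let k : ContDiffBump (0 : E3) := ⟨9 / 25, 2 / 5, by norm_num, by norm_num⟩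
  refine ⟨fun x => f x * (1 - k x), ⟨?_, ?_⟩, ?_, ?_, ?_⟩
  · exact f.contDiff.mul (contDiff_const.sub k.contDiff)
  · exact f.hasCompactSupport.mul_right
  · intro x
    have h1 : 0 ≤ f x := f.nonneg
    have h2 : f x ≤ 1 := f.le_one
    have h3 : 0 ≤ k x := k.nonneg
    have h4 : k x ≤ 1 := k.le_one
    constructor
    · exact mul_nonneg h1 (by linarith)
    · nlinarith
  · intro x hx1 hx2
    have h1 : f x = 1 := by
      apply f.one_of_mem_closedBall
      rw [mem_closedBall_zero_iff]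
      exact hx2
    have h2 : k x = 0 := by
      apply k.zero_of_le_dist
      rw [dist_zero_right]
      exact hx1
    simp only [h1, h2]
    norm_num
  · have hcl : IsClosed {x : E3 | 9 / 25 ≤ ‖x‖ ∧ ‖x‖ ≤ 7 * R / 4} :=
      (isClosed_le continuous_const continuous_norm).inter
        (isClosed_le continuous_norm continuous_const)
    have hsub : tsupport (fun x => f x * (1 - k x)) ⊆ {x : E3 | 9 / 25 ≤ ‖x‖ ∧ ‖x‖ ≤ 7 * R / 4} := by
      apply closure_minimal _ hcl
      intro x hx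
      rw [Function.mem_support] at hx
      constructor
      · by_contra hlt
        push Not at hlt
        apply hx
        have h2 : k x = 1 := by
          apply k.one_of_mem_closedBall
          rw [mem_closedBall_zero_iff]
          exact hlt.le
        rw [h2, sub_self, mul_zero]
      · by_contra hlt
        push Not at hlt
        apply hx
        have h2 : f x = 0 := by
          apply f.zero_of_le_dist
          rw [dist_zero_right]
          exact hlt.le
        rw [h2, zero_mul]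
    intro x hx
    obtain ⟨h3, h4⟩ := hsub hx
    exact ⟨by linarith, by linarith⟩

theorem norm_inversion (x : E3) : ‖inversion x‖ = ‖x‖⁻¹ := by
  unfold inversion
  rw [norm_smul, norm_inv, norm_pow, norm_norm]
  by_cases hx : ‖x‖ = 0
  · rw [hx]
    simp
  · field_simp

theorem inv_mem {x : E3} (hx : x ∈ Ann (1 / 2) 2) : inversion x ∈ Ann (1 / 2) 2 := by
  obtain ⟨h1, h2⟩ := hx
  have h0 : 0 < ‖x‖ := by linarith
  have hn := norm_inversion x
  refine ⟨?_, ?_⟩
  · rw [hn, one_div]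
    exact inv_strictAnti₀ h0 h2
  · rw [hn, inv_lt_comm₀ h0 two_pos, ← one_div]
    exact h1

theorem inv_cont : ContinuousOn inversion (Ann (1 / 2) 2) := by
  intro x hx
  have h0 : ‖x‖ ^ 2 ≠ 0 := by
    have : 0 < ‖x‖ := by linarith [hx.1]
    positivity
  apply ContinuousAt.continuousWithinAt
  exact ((continuous_norm.pow 2).continuousAt.inv₀ h0).smul continuousAt_id

theorem ann_open (a b : ℝ) : IsOpen (Ann a b) :=
  (isOpen_lt continuous_const continuous_norm).inter (isOpen_lt continuous_norm continuous_const)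

end PXLim

open PXLim in
/-- XLIM: existence of the sequence and its limit. -/
theorem xlim_thm (h1 : API1) (_hch : CHAIN) (hb : BRID) (hco : CONT) (hp : CPT) (he : XEXI)
    (hr : XREF) (hv : XCOV) (hl : XLCG) (hu : XUNIF) : XLIM := by
  intro ε R g h hε hε1 hR hd hm
  obtain ⟨w₀, hw₀, hw01, hwin, hwout⟩ := exists_w0 (2 * R) (by linarith)
  obtain ⟨ζ, hζ, hζ01, hζ1, hζs⟩ := exists_zeta R hR
  have hr2 : 0 < R / 2 := by linarith
  obtain ⟨C, hC⟩ := hu ε g h (R / 2) (Ann (1 / 3) (2 * R)) ζ hε hε1 hr2 hd (ann_open _ _) hζ hζ01 hζs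
  -- the solutions for fixed parameters
  have hex : ∀ δ : ℝ, 0 < δ → δ ≤ 1 → ∃ (u : E3 → ℝ) (G : E3 → E3) (v : E3 → ℝ) (V : E3 → E3)
      (M : Fin 3 → E3 → E3),
      WSolZ (cA ε δ δ g) (cB ε δ g h) (ZS (2 * R)) w₀ u G ∧ (∀ᵐ x, 0 ≤ u x ∧ u x ≤ 1) ∧
      LSol (cA ε δ δ g) (cB ε δ g h) (Ann (2 / 5) (3 * R / 2)) v V ∧ H2 v V M ∧ Continuous v ∧
      (∀ᵐ x : E3, 1 ≤ ‖x‖ → ‖x‖ < 3 * R / 2 → v x = u x) ∧
      (∀ x ∈ Ann (1 / 2) 2, v (inversion x) = 2 - v x) ∧
      sq v + sqv V + ∑ i, sqv (M i) ≤ C := by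
    intro δ hδ hδ1
    obtain ⟨c, L, hcoef⟩ := hb.coef ε δ δ g h (R / 2) hε hε1 hδ hδ hr2 hd
    obtain ⟨u, G, hsol, hbdd⟩ := he _ _ c L _ hcoef (ZS (2 * R)) w₀ hw₀ hw01
      ⟨2 * R, fun x hx => Or.inr hx⟩
    obtain ⟨y, Y, hy, hy2, hyu, hyi⟩ := hr ε δ δ R g h w₀ hε hε1 hδ hδ hR hd hm hwin hwout u G hsol hbdd
    have hyabs : ∀ᵐ x, |y x| ≤ 2 := by
      filter_upwards [hy2] with x hx
      rw [abs_le]
      exact ⟨by linarith [hx.1], hx.2⟩
    obtain ⟨Z, N, hZ, hZC⟩ := hC δ δ hδ hδ1 hδ hδ1 y Y hy hyabs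
    obtain ⟨C', _, hC'⟩ := hco
    obtain ⟨v, hv1, _, hv3⟩ := hC' _ _ _ hZ
    have hvc : Continuous v := cont_of_holder hv3
    have hvH : H2 v Z N := h2_congr h1 hZ hv1
    have hvy : ∀ᵐ x : E3, 2 / 5 ≤ ‖x‖ → ‖x‖ ≤ 3 * R / 2 → v x = y x := by
      filter_upwards [hv1] with x hx ha hb
      rw [hx, hζ1 x ha hb, one_pow, one_mul]
    refine ⟨u, G, v, Z, N, hsol, hbdd, ?_, hvH, hvc, ?_, ?_, ?_⟩
    · refine hl _ _ c L _ hcoef (Ann (1 / 3) (2 * R)) _ y Y v Z hy hvH.h1 ?_ ?_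
      · intro x hx
        exact ⟨by linarith [hx.1], by linarith [hx.2]⟩
      · filter_upwards [hvy] with x hx hx2
        exact hx hx2.1.le hx2.2.le
    · filter_upwards [hvy, hyu] with x hx hx2 ha hb
      rw [hx (by linarith) hb.le, hx2 ha]
    · -- reflection
      have hinv := hv.null _ hvy
      have hae : ∀ᵐ x : E3, x ∈ Ann (1 / 2) 2 → v (inversion x) = 2 - v x := by
        filter_upwards [hvy, hinv, hyi] with x hx hx2 hx3 hxa
        have hxi := inv_mem hxa
        rw [hx2 (by linarith [hxi.1]) (by linarith [hxi.2]),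
          hx3 ⟨by linarith [hxa.1], by linarith [hxa.2]⟩,
          hx (by linarith [hxa.1]) (by linarith [hxa.2])]
      have hres : (fun x => v (inversion x)) =ᵐ[volume.restrict (Ann (1 / 2) 2)]
          fun x => 2 - v x := by
        rw [Filter.EventuallyEq, ae_restrict_iff' (ann_open _ _).measurableSet]
        exact hae
      exact Measure.eqOn_open_of_ae_eq hres (ann_open _ _)
        (hvc.comp_continuousOn inv_cont) (continuous_const.sub hvc).continuousOn
    · rw [sq_congr hv1]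
      exact hZC
  have hδpos : ∀ n : ℕ, (0 : ℝ) < 1 / ((n : ℝ) + 1) := fun n => by positivity
  have hδle : ∀ n : ℕ, 1 / ((n : ℝ) + 1) ≤ (1 : ℝ) := by
    intro n
    rw [div_le_one (by positivity)]
    have : (0 : ℝ) ≤ n := Nat.cast_nonneg n
    linarith
  have hδt : Tendsto (fun n : ℕ => 1 / ((n : ℝ) + 1)) atTop (𝓝 0) :=
    tendsto_one_div_add_atTop_nhds_zero_nat
  choose u G v V M hsol hbdd hloc hH2 hcont hout hrefl hbound using
    fun n : ℕ => hex (1 / ((n : ℝ) + 1)) (hδpos n) (hδle n)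
  obtain ⟨s, w, F, N, hs, hw, hwc, hunif, hstrong, hae, hweak⟩ := hp v V M C hH2 hcont hbound
  refine ⟨w₀, fun n => 1 / ((s n : ℝ) + 1), fun n => 1 / ((s n : ℝ) + 1),
    fun n => u (s n), fun n => G (s n), fun n => v (s n), fun n => V (s n), fun n => M (s n),
    C, w, F, N, ?_⟩
  exact
    { eps_pos := hε
      eps_lt := hε1
      hR := hR
      data := hd
      test := hw₀
      w₀_in := hwin
      w₀_out := hwout
      δ_pos := fun n => hδpos (s n)
      δ_le := fun n => hδle (s n)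
      δ_tend := hδt.comp hs.tendsto_atTop
      κ_pos := fun n => hδpos (s n)
      κ_le := fun n => hδle (s n)
      κ_tend := hδt.comp hs.tendsto_atTop
      sol := fun n => hsol (s n)
      bdd := fun n => hbdd (s n)
      loc := fun n => hloc (s n)
      h2 := fun n => hH2 (s n)
      cont := fun n => hcont (s n)
      out := fun n => hout (s n)
      refl := fun n => hrefl (s n)
      bound := fun n => hbound (s n)
      h2w := hw
      contw := hwc
      unif := hunif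
      strong := hstrong
      ae := hae
      weak := hweak }

end Pool.Agent.PFlow.PB
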