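import Pool.Agent.PFlow.StmtsPX
import Pool.Agent.PFlow.P.Base

/-!
# Block PX, module XNDV: the equation in nondivergence form in an open set
-/

open MeasureTheory Filter Topology Set
open scoped ContDiff RealInnerProductSpace ENNReal

namespace Pool.Agent.PFlow.PB

open Pool.Agent.PenroseSph Pool.Agent.PFlow

theorem xndv_thm (h1 : API1) (hd : XDVF) : XNDV := by
  intro A B c L r hP O w W N hO hS hH
  obtain ⟨hFm, hkey⟩ := hd A B c L r hP w W N hH
  have hBb : ∀ x ξ, |B x ξ| ≤ L * ‖ξ‖ := by
    intro x ξ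
    have := hP.lipB x ξ 0
    rwa [hP.B_zero, sub_zero, sub_zero] at this
  have hBm : MemLp (fun x => B x (W x)) 2 := by
    refine MemLp.of_le_mul (c := L) hH.h1.memG ?_ (Eventually.of_forall fun x => hBb x (W x))
    exact hP.smoothB.continuous.comp_aestronglyMeasurable
      (aestronglyMeasurable_id.prodMk hH.h1.memG.1)
  have hRm : MemLp (fun x => opA A x (W x) (fun i => N i x) + B x (W x)) 2 := hFm.add hBm
  refine hO.ae_eq_zero_of_integral_contDiff_smul_eq_zero
    ((hRm.locallyIntegrable (by norm_num)).locallyIntegrableOn O) fun φ hφ hc hsupp => ?_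
  have hT : Test φ := ⟨hφ, hc⟩
  have hφm := test_memLp φ hT
  have e1 := hkey φ hT
  have e2 := hS.2 φ (gr φ) (h1.ofTest φ hT) ⟨tsupport φ, hc, hsupp,
    Eventually.of_forall fun x hx => image_eq_zero_of_notMem_tsupport hx⟩
  have e3 : ∫ x, φ x • (opA A x (W x) (fun i => N i x) + B x (W x)) =
      (∫ x, opA A x (W x) (fun i => N i x) * φ x) + ∫ x, B x (W x) * φ x := by
    rw [← integral_add (int_mul _ _ hFm hφm) (int_mul (fun x => B x (W x)) _ hBm hφm)]
    refine integral_congr_ae (Eventually.of_forall fun x => ?_)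
    simp only [smul_eq_mul]
    ring
  rw [e3]
  linarith

end Pool.Agent.PFlow.PB
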