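import Pool.Agent.PFlow.StmtsPX

/-!
XNOI: no islands, from the comparison principle.
-/

open MeasureTheory Filter Topology Set
open scoped ContDiff

namespace Pool.Agent.PFlow.PB

open Pool.Agent.PenroseSph Pool.Agent.PFlow

namespace PXNoIslAux

theorem pd_const_add (c : ℝ) (F : E3 → ℝ) (i : Fin 3) : pd i (fun y => c + F y) = pd i F := by
  funext x
  unfold pd
  rw [fderiv_const_add]

theorem opN_const_add (ε : ℝ) (g h : TensorField) (c : ℝ) (F : E3 → ℝ) (x : E3) :
    grad (fun y => c + F y) x = grad F x ∧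
      opN ε g h (fun y => c + F y) x = opN ε g h F x := by
  have h1 : grad (fun y => c + F y) x = grad F x := by
    funext i
    rw [grad, grad, pd_const_add]
  have h2 : hess2 (fun y => c + F y) x = hess2 F x := by
    ext i j
    rw [hess2, hess2, Matrix.of_apply, Matrix.of_apply, pd_const_add]
  exact ⟨h1, by rw [opN, opN, h1, h2]⟩

theorem contDiff_e (τ α : ℝ) : ContDiff ℝ 2 (fun y : E3 => τ * Real.exp (α * y 0)) := by
  have h1 : ContDiff ℝ 2 (fun y : E3 => y 0) :=
    (EuclideanSpace.proj (0 : Fin 3) : E3 →L[ℝ] ℝ).contDiff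
  exact contDiff_const.mul (contDiff_const.mul h1).exp

theorem limit {m v P : ℝ} (hP : 0 ≤ P) (h : ∀ τ > 0, m ≤ v + τ * P) : m ≤ v := by
  refine le_of_forall_pos_le_add fun η hη => ?_
  have h1 := h (η / (P + 1)) (by positivity)
  have h2 : η / (P + 1) * P ≤ η := by
    rw [div_mul_eq_mul_div, div_le_iff₀ (by positivity)]
    nlinarith
  linarith

end PXNoIslAux

open PXNoIslAux in
theorem xnoi_thm (hk : KEXP) : XNOI := by
  intro ε r U g h v hε hε1 hg hv hcmp D hD hDc hDs x hx
  obtain ⟨α, hα, hexp⟩ := hk ε g h r hε hε1 hg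
  obtain ⟨hsub', hsup'⟩ : (∀ K : Set E3, IsCompact K → K ⊆ U →
      ∀ f : E3 → ℝ, (∀ x ∈ K, ContDiffAt ℝ 2 f x) →
        (∀ x ∈ K, grad f x ≠ 0 ∧ 0 < opN ε g h f x) →
        (∀ x ∈ frontier K, f x ≤ v x) → ∀ x ∈ K, f x ≤ v x) ∧
      (∀ K : Set E3, IsCompact K → K ⊆ U →
        ∀ f : E3 → ℝ, (∀ x ∈ K, ContDiffAt ℝ 2 f x) →
          (∀ x ∈ K, grad f x ≠ 0 ∧ opN ε g h f x < 0) →
          (∀ x ∈ frontier K, v x ≤ f x) → ∀ x ∈ K, v x ≤ f x) :=
    ⟨fun K hK hKU f hf => (hcmp K hK hKU f hf).1, fun K hK hKU f hf => (hcmp K hK hKU f hf).2⟩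
  -- the frontier
  have hne : (frontier D).Nonempty := by
    rw [nonempty_frontier_iff]
    refine ⟨⟨x, hx⟩, ?_⟩
    intro h1
    rw [h1, closure_univ] at hDc
    exact noncompact_univ E3 hDc
  have hfc : IsCompact (frontier D) :=
    hDc.of_isClosed_subset isClosed_frontier frontier_subset_closure
  have hff : frontier (closure D) ⊆ frontier D := frontier_closure_subset
  have hxK : x ∈ closure D := subset_closure hx
  have hcont : Continuous fun y : E3 => Real.exp (α * y 0) := by
    have h1 : Continuous fun y : E3 => y 0 :=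
      (EuclideanSpace.proj (0 : Fin 3) : E3 →L[ℝ] ℝ).continuous
    exact (continuous_const.mul h1).rexp
  obtain ⟨E, hE⟩ := hDc.exists_bound_of_continuousOn hcont.continuousOn
  have hE' : ∀ y ∈ closure D, Real.exp (α * y 0) ≤ E := fun y hy =>
    (le_abs_self _).trans (hE y hy)
  have hP : 0 ≤ E - Real.exp (α * x 0) := sub_nonneg.mpr (hE' x hxK)
  constructor
  · obtain ⟨y, hy, hy'⟩ := hfc.exists_isMaxOn hne hv.continuousOn
    refine ⟨y, hy, limit hP fun τ hτ => ?_⟩
    have h1 := hsup' (closure D) hDc hDs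
      (fun z => (v y + τ * E) + (-τ) * Real.exp (α * z 0))
      (fun z _ => (contDiff_const.add (contDiff_e (-τ) α)).contDiffAt)
      (fun z _ => by
        obtain ⟨h2, h3, -⟩ := hexp z (-τ) (neg_ne_zero.mpr hτ.ne')
        obtain ⟨h4, h5⟩ := opN_const_add ε g h (v y + τ * E)
          (fun z => (-τ) * Real.exp (α * z 0)) z
        refine ⟨by rw [h4]; exact h2, ?_⟩
        rw [h5]
        by_contra h6
        push Not at h6
        nlinarith)
      (fun z hz => by
        have h2 : v z ≤ v y := hy' (hff hz)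
        have h3 := hE' z (frontier_subset_closure (hff hz))
        nlinarith) x hxK
    simp only at h1
    linarith
  · obtain ⟨y, hy, hy'⟩ := hfc.exists_isMinOn hne hv.continuousOn
    refine ⟨y, hy, limit hP fun τ hτ => ?_⟩
    have h1 := hsub' (closure D) hDc hDs
      (fun z => (v y - τ * E) + τ * Real.exp (α * z 0))
      (fun z _ => (contDiff_const.add (contDiff_e τ α)).contDiffAt)
      (fun z _ => by
        obtain ⟨h2, h3, -⟩ := hexp z τ hτ.ne'
        obtain ⟨h4, h5⟩ := opN_const_add ε g h (v y - τ * E)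
          (fun z => τ * Real.exp (α * z 0)) z
        refine ⟨by rw [h4]; exact h2, ?_⟩
        rw [h5]
        exact (mul_pos_iff_of_pos_left hτ).mp h3)
      (fun z hz => by
        have h2 : v y ≤ v z := hy' (hff hz)
        have h3 := hE' z (frontier_subset_closure (hff hz))
        nlinarith) x hxK
    simp only at h1
    linarith

end Pool.Agent.PFlow.PB
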