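import Pool.Agent.PFlow.StmtsPX
import Pool.Agent.PFlow.P.Base

/-!
# Block PX, module XODD: the odd part of a test function, continued by zero
-/

open MeasureTheory Filter Topology Set
open scoped ContDiff RealInnerProductSpace Manifold

namespace Pool.Agent.PFlow.PB

open Pool.Agent.PenroseSph Pool.Agent.PFlow

namespace PXOdd

/-- Smooth cutoff functions. -/
lemma cutoff {S O : Set E3} (hS : IsClosed S) (hO : IsOpen O) (hSO : S ⊆ O) :
    ∃ ζ : E3 → ℝ, ContDiff ℝ ∞ ζ ∧ (∀ x ∈ S, ζ x = 1) ∧ tsupport ζ ⊆ O ∧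
      ∀ x, 0 ≤ ζ x ∧ ζ x ≤ 1 := by
  obtain ⟨ζ, h0, h1, h2⟩ := exists_contMDiffMap_zero_one_nhds_of_isClosed (n := ⊤)
    (𝓘(ℝ, E3)) hO.isClosed_compl hS (by
      rw [Set.disjoint_left]
      exact fun x hx hxS => hx (hSO hxS))
  refine ⟨ζ, ζ.contMDiff.contDiff, fun x hx => ?_, fun x hx => ?_, fun x => h2 x⟩
  · exact (h1.filter_mono (nhds_le_nhdsSet hx)).self_of_nhds
  · by_contra hxO
    have h3 : ∀ᶠ y in 𝓝 x, ζ y = 0 := h0.filter_mono (nhds_le_nhdsSet hxO)
    exact (notMem_tsupport_iff_eventuallyEq.2 h3) hx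

lemma inv_contDiffAt {y : E3} (hy : y ≠ 0) : ContDiffAt ℝ ∞ inversion y := by
  have h0 : ‖y‖ ^ 2 ≠ 0 := pow_ne_zero 2 (norm_ne_zero_iff.2 hy)
  exact (((contDiff_norm_sq ℝ).contDiffAt (x := y)).inv h0).smul contDiffAt_id

lemma norm_inv' (y : E3) : ‖inversion y‖ = ‖y‖⁻¹ := by
  unfold inversion
  rw [norm_smul, norm_inv, norm_pow, norm_norm]
  rcases eq_or_ne ‖y‖ 0 with h | h
  · rw [h]; simp
  · field_simp

lemma inv_sphere {y : E3} (hy : ‖y‖ = 1) : inversion y = y := by
  unfold inversion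
  rw [hy]
  simp

lemma JT_sub (x ξ η : E3) : JT x (ξ - η) = JT x ξ - JT x η := by
  ext i
  simp [JT, vec, mul_sub, Finset.sum_sub_distrib]

lemma gr_zero {ζ : E3 → ℝ} {x : E3} (hx : x ∉ tsupport ζ) : gr ζ x = 0 := by
  ext i
  rw [gr_apply, pd_eq, fderiv_of_notMem_tsupport (𝕜 := ℝ) hx]
  simp

/-- An estimate in `L²`. -/
lemma est {F : Type*} [NormedAddCommGroup F] (S : Set E3) (u v : E3 → F) (hu : MemLp u 2)
    (hv : MemLp v 2) :
    ∫ x, ‖S.indicator (fun x => u x - v x) x‖ ^ 2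
      ≤ 2 * (∫ x, ‖u x‖ ^ 2) + 2 * ∫ x, ‖v x‖ ^ 2 := by
  have i1 := (int_sq u hu).const_mul 2
  have i2 := (int_sq v hv).const_mul 2
  rw [← integral_const_mul, ← integral_const_mul, ← integral_add i1 i2]
  refine integral_mono_of_nonneg (ae_of_all _ fun x => pow_nonneg (norm_nonneg _) 2) (i1.add i2)
    (ae_of_all _ fun x => ?_)
  show ‖S.indicator (fun x => u x - v x) x‖ ^ 2 ≤ 2 * ‖u x‖ ^ 2 + 2 * ‖v x‖ ^ 2
  by_cases hx : x ∈ S
  · rw [indicator_of_mem hx]
    have h := norm_sub_le (u x) (v x)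
    have h' : ‖u x - v x‖ ^ 2 ≤ (‖u x‖ + ‖v x‖) ^ 2 := pow_le_pow_left₀ (norm_nonneg _) h 2
    nlinarith [sq_nonneg (‖u x‖ - ‖v x‖)]
  · rw [indicator_of_notMem hx, norm_zero]
    have p1 : 0 ≤ ‖u x‖ ^ 2 := pow_nonneg (norm_nonneg _) 2
    have p2 : 0 ≤ ‖v x‖ ^ 2 := pow_nonneg (norm_nonneg _) 2
    linarith

lemma meas_ext : MeasurableSet {x : E3 | 1 < ‖x‖} :=
  measurableSet_lt measurable_const measurable_norm

/-- The limit. -/
lemma lim (h1 : API1) (hv : XCOV) (hi : XH1I) {a b : ℝ} (ha : 0 < a) (hab : a < b)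
    (f : E3 → ℝ) (F : E3 → E3) (hf : H1 f F) (hf0 : ∀ᵐ x, x ∉ Ann a b → f x = 0)
    (hF0 : ∀ᵐ x, x ∉ Ann a b → F x = 0)
    (fn : ℕ → E3 → ℝ) (Fn : ℕ → E3 → E3) (hn : ∀ n, H1 (fn n) (Fn n))
    (hn0 : ∀ n, ∀ᵐ x, x ∉ Ann a b → fn n x = 0) (hN0 : ∀ n, ∀ᵐ x, x ∉ Ann a b → Fn n x = 0)
    (t1 : Tendsto (fun n => sq (fun x => fn n x - f x)) atTop (𝓝 0))
    (t2 : Tendsto (fun n => sqv (fun x => Fn n x - F x)) atTop (𝓝 0))
    (ht : ∀ n, H1 ({x : E3 | 1 < ‖x‖}.indicator fun x => fn n x - fn n (inversion x))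
      ({x : E3 | 1 < ‖x‖}.indicator fun x => Fn n x - JT x (Fn n (inversion x)))) :
    H1 ({x : E3 | 1 < ‖x‖}.indicator fun x => f x - f (inversion x))
      ({x : E3 | 1 < ‖x‖}.indicator fun x => F x - JT x (F (inversion x))) := by
  have h := h1.sub _ _ _ _ hf (hi a b ha hab f F hf hf0)
  obtain ⟨C, hC, m1, m2⟩ := hv.mem a b ha hab
  refine h1.closed _ _ _ _ ht (h.memf.indicator meas_ext) (h.memG.indicator meas_ext) ?_ ?_
  · have l : Tendsto (fun n => (2 + 2 * C) * sq (fun x => fn n x - f x)) atTop (𝓝 0) := by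
      simpa using t1.const_mul (2 + 2 * C)
    refine squeeze_zero (fun n => sq_nonneg' _) (fun n => ?_) l
    have d := (hn n).memf.sub hf.memf
    have d' : MemLp (fun x => fn n x - f x) 2 := d
    obtain ⟨m3, m4⟩ := m1 (fun x => fn n x - f x) d' (by
      filter_upwards [hf0, hn0 n] with x hx hx' h'
      rw [hx h', hx' h', sub_zero])
    have e := est {x : E3 | 1 < ‖x‖} _ _ d' m3
    rw [sq_eq]
    rw [sq_eq, sq_eq] at m4
    calc ∫ x, ‖({x : E3 | 1 < ‖x‖}.indicator fun x => fn n x - fn n (inversion x)) x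
          - ({x : E3 | 1 < ‖x‖}.indicator fun x => f x - f (inversion x)) x‖ ^ 2
        = ∫ x, ‖{x : E3 | 1 < ‖x‖}.indicator
            (fun x => (fn n x - f x) - (fn n (inversion x) - f (inversion x))) x‖ ^ 2 := by
          congr 1
          funext x
          by_cases hx : x ∈ {x : E3 | 1 < ‖x‖}
          · rw [indicator_of_mem hx, indicator_of_mem hx, indicator_of_mem hx]
            congr 2
            ring
          · rw [indicator_of_notMem hx, indicator_of_notMem hx, indicator_of_notMem hx, sub_zero]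
      _ ≤ _ := e
      _ ≤ (2 + 2 * C) * sq (fun x => fn n x - f x) := by
          rw [sq_eq]
          linarith
  · have l : Tendsto (fun n => (2 + 2 * C) * sqv (fun x => Fn n x - F x)) atTop (𝓝 0) := by
      simpa using t2.const_mul (2 + 2 * C)
    refine squeeze_zero (fun n => sqv_nonneg' _) (fun n => ?_) l
    have d' : MemLp (fun x => Fn n x - F x) 2 := (hn n).memG.sub hf.memG
    obtain ⟨m3, m4⟩ := m2 (fun x => Fn n x - F x) d' (by
      filter_upwards [hF0, hN0 n] with x hx hx' h'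
      rw [hx h', hx' h', sub_zero])
    have e := est {x : E3 | 1 < ‖x‖} _ _ d' m3
    calc sqv (fun x => ({x : E3 | 1 < ‖x‖}.indicator
            fun x => Fn n x - JT x (Fn n (inversion x))) x
          - ({x : E3 | 1 < ‖x‖}.indicator fun x => F x - JT x (F (inversion x))) x)
        = ∫ x, ‖{x : E3 | 1 < ‖x‖}.indicator
            (fun x => (Fn n x - F x) - JT x (Fn n (inversion x) - F (inversion x))) x‖ ^ 2 := by
          unfold sqv
          congr 1
          funext x
          beta_reduce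
          by_cases hx : x ∈ {x : E3 | 1 < ‖x‖}
          · rw [indicator_of_mem hx, indicator_of_mem hx, indicator_of_mem hx]
            rw [JT_sub]
            congr 2
            abel
          · rw [indicator_of_notMem hx, indicator_of_notMem hx, indicator_of_notMem hx, sub_zero]
      _ ≤ _ := e
      _ ≤ (2 + 2 * C) * sqv (fun x => Fn n x - F x) := by
          unfold sqv at m4 ⊢
          linarith

/-- The composition of a test function with the inversion is smooth. -/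
lemma comp_smooth {g : E3 → ℝ} (hg : ContDiff ℝ ∞ g) {p q : ℝ} (hp : 0 < p) (hq : 0 < q)
    (h0 : ∀ x, x ∉ Ann p q → g x = 0) : ContDiff ℝ ∞ (fun x => g (inversion x)) := by
  rw [contDiff_iff_contDiffAt]
  intro x
  rcases eq_or_ne x 0 with rfl | hx
  · have h3 : (fun y => g (inversion y)) =ᶠ[𝓝 (0 : E3)] fun _ => 0 := by
      filter_upwards [Metric.ball_mem_nhds (0 : E3) (inv_pos.2 hq)] with z hz
      rw [mem_ball_zero_iff] at hz
      refine h0 _ fun hA => ?_
      have h4 : p < ‖inversion z‖ ∧ ‖inversion z‖ < q := hA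
      rw [norm_inv'] at h4
      have hz0 : 0 < ‖z‖ := by
        rcases (norm_nonneg z).eq_or_lt with h | h
        · rw [← h, inv_zero] at h4
          linarith [h4.1]
        · exact h
      have h5 := (inv_lt_comm₀ hz0 hq).1 h4.2
      linarith
    exact contDiffAt_const.congr_of_eventuallyEq h3
  · exact hg.contDiffAt.comp x (inv_contDiffAt hx)

/-- The composition of a test function with the inversion has compact support. -/
lemma comp_cpt {g : E3 → ℝ} {p q : ℝ} (hp : 0 < p)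
    (h0 : ∀ x, x ∉ Ann p q → g x = 0) : HasCompactSupport (fun x => g (inversion x)) := by
  refine HasCompactSupport.intro (isCompact_closedBall (0 : E3) p⁻¹) fun x hx => ?_
  rw [mem_closedBall_zero_iff, not_le] at hx
  refine h0 _ fun hA => ?_
  have h4 : p < ‖inversion x‖ ∧ ‖inversion x‖ < q := hA
  rw [norm_inv'] at h4
  have hx0 : 0 < ‖x‖ := (inv_pos.2 hp).trans hx
  have h5 := (inv_lt_comm₀ hp hx0).1 hx
  linarith [h4.1]

/-- The case of a test function. -/
lemma smooth_case (h1 : API1) (h2 : API2) (hi : XH1I) (ht : XODT) {p q : ℝ} (hp : 0 < p)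
    (hpq : p < q) (g : E3 → ℝ) (G : E3 → E3) (hg : Test g) (h0 : ∀ x, x ∉ Ann p q → g x = 0)
    (hG : H1 g G) :
    H1 ({x : E3 | 1 < ‖x‖}.indicator fun x => g x - g (inversion x))
      ({x : E3 | 1 < ‖x‖}.indicator fun x => G x - JT x (G (inversion x))) := by
  have c1 : ContDiff ℝ ∞ (fun x => g x - g (inversion x)) :=
    hg.smooth.sub (comp_smooth hg.smooth hp (hp.trans hpq) h0)
  have c2 : ContDiff ℝ 1 (fun x => g x - g (inversion x)) := c1.of_le (by exact_mod_cast le_top)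
  have c3 : HasCompactSupport (fun x => g x - g (inversion x)) := hg.cpt.sub (comp_cpt hp h0)
  have c4 := ht _ c2 c3 (fun x hx => by rw [inv_sphere hx, sub_self])
  have c5 := h2.ofC1 _ c2 c3
  have c6 := h1.sub _ _ _ _ hG (hi p q hp hpq g G hG (ae_of_all _ h0))
  have c7 := h1.unique _ _ _ c5 c6
  refine h1.congr _ _ _ _ c4 (EventuallyEq.refl _ _) ?_
  filter_upwards [c7] with x hx
  by_cases hxS : x ∈ {x : E3 | 1 < ‖x‖}
  · rw [indicator_of_mem hxS, indicator_of_mem hxS, hx]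
  · rw [indicator_of_notMem hxS, indicator_of_notMem hxS]

end PXOdd

open PXOdd in
/-- XODD. -/
theorem xodd_thm (h1 : API1) (h2 : API2) (hv : XCOV) (hi : XH1I) (ht : XODT) : XODD := by
  intro a b ha ha1 hb φ Φ hφ hφ0
  have ha' : 0 < a / 2 := by positivity
  have hab' : a / 2 < 2 * b := by linarith
  obtain ⟨η, hη, hη1, hηs, hη01⟩ := cutoff (S := {x : E3 | a ≤ ‖x‖ ∧ ‖x‖ ≤ b})
    (O := Ann (a / 2) (2 * b))
    ((isClosed_le continuous_const continuous_norm).inter
      (isClosed_le continuous_norm continuous_const))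
    ((isOpen_lt continuous_const continuous_norm).inter
      (isOpen_lt continuous_norm continuous_const))
    (fun x hx => ⟨by linarith [hx.1], by linarith [hx.2]⟩)
  have hη0 : ∀ x, x ∉ Ann (a / 2) (2 * b) → η x = 0 := fun x hx =>
    image_eq_zero_of_notMem_tsupport fun h => hx (hηs h)
  have hgη0 : ∀ x, x ∉ Ann (a / 2) (2 * b) → gr η x = 0 := fun x hx =>
    gr_zero fun h => hx (hηs h)
  have hηc : HasCompactSupport η := by
    refine HasCompactSupport.intro (isCompact_closedBall (0 : E3) (2 * b)) fun x hx => ?_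
    rw [mem_closedBall_zero_iff, not_le] at hx
    exact hη0 x fun h => absurd h.2 (not_lt.2 hx.le)
  have hηT : Test η := ⟨hη, hηc⟩
  have hηC : ContDiff ℝ 1 η := hη.of_le (by exact_mod_cast le_top)
  obtain ⟨C, hC⟩ : ∃ C, ∀ x, ‖gr η x‖ ≤ C :=
    (gr_cpt η hηc).exists_bound_of_continuous (h1.gr_cont η hηC)
  have b1 : ∀ x, |η x| ≤ max 1 C := fun x => by
    rw [abs_of_nonneg (hη01 x).1]
    exact (hη01 x).2.trans (le_max_left _ _)
  have b2 : ∀ x, ‖gr η x‖ ≤ max 1 C := fun x => (hC x).trans (le_max_right _ _)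
  set D : ℝ := max 1 C with hD
  have hD0 : 0 ≤ D := le_trans zero_le_one (le_max_left _ _)
  obtain ⟨φn, t0, t1, t2⟩ := hφ.approx
  have m1 := h2.mul φ Φ η D hφ hηC b1 b2
  have e1 : (fun x => η x * φ x) =ᵐ[volume] φ := by
    filter_upwards [hφ0] with x hx
    by_cases hA : x ∈ Ann a b
    · rw [hη1 x ⟨hA.1.le, hA.2.le⟩, one_mul]
    · rw [hx hA, mul_zero]
  have m2 : H1 φ (fun x => η x • Φ x + φ x • gr η x) :=
    h1.congr _ _ _ _ m1 e1 (EventuallyEq.refl _ _)
  have e2 : Φ =ᵐ[volume] fun x => η x • Φ x + φ x • gr η x := h1.unique φ Φ _ hφ m2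
  have m3 : ∀ n, H1 (fun x => η x * φn n x) (fun x => η x • gr (φn n) x + φn n x • gr η x) :=
    fun n => h2.mul _ _ η D (h1.ofTest _ (t0 n)) hηC b1 b2
  have hT : ∀ n, Test (fun x => η x * φn n x) := fun n => ⟨hη.mul (t0 n).smooth, hηc.mul_right⟩
  have key := lim h1 hv hi ha' hab' φ (fun x => η x • Φ x + φ x • gr η x) m2
    (by
      filter_upwards [hφ0] with x hx hA
      exact hx fun h => hA ⟨by linarith [h.1], by linarith [h.2]⟩)
    (ae_of_all _ fun x hx => by rw [hη0 x hx, hgη0 x hx, zero_smul, smul_zero, add_zero])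
    (fun n x => η x * φn n x) (fun n x => η x • gr (φn n) x + φn n x • gr η x) m3
    (fun n => ae_of_all _ fun x hx => by rw [hη0 x hx, zero_mul])
    (fun n => ae_of_all _ fun x hx => by
      rw [hη0 x hx, hgη0 x hx, zero_smul, smul_zero, add_zero])
    ?_ ?_ (fun n => smooth_case h1 h2 hi ht ha' hab' _ _ (hT n)
      (fun x hx => by rw [hη0 x hx, zero_mul]) (m3 n))
  · refine h1.congr _ _ _ _ key (EventuallyEq.refl _ _) ?_
    filter_upwards [e2, hv.null _ e2] with x hx hx'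
    by_cases hxS : x ∈ {x : E3 | 1 < ‖x‖}
    · rw [indicator_of_mem hxS, indicator_of_mem hxS, ← hx', ← hx]
    · rw [indicator_of_notMem hxS, indicator_of_notMem hxS]
  · have l : Tendsto (fun n => D ^ 2 * sq (fun x => φn n x - φ x)) atTop (𝓝 0) := by
      simpa using t1.const_mul (D ^ 2)
    refine squeeze_zero (fun n => sq_nonneg' _) (fun n => ?_) l
    have d' : MemLp (fun x => φn n x - φ x) 2 := (test_memLp _ (t0 n)).sub hφ.memf
    have i1 := (int_sq _ d').const_mul (D ^ 2)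
    rw [sq_eq, sq_eq, ← integral_const_mul]
    refine integral_mono_of_nonneg (ae_of_all _ fun x => pow_nonneg (norm_nonneg _) 2) i1 ?_
    filter_upwards [e1] with x hx
    show ‖η x * φn n x - φ x‖ ^ 2 ≤ D ^ 2 * ‖φn n x - φ x‖ ^ 2
    have e3 : η x * φn n x - φ x = η x * (φn n x - φ x) := by
      have : η x * φ x = φ x := hx
      rw [mul_sub, this]
    rw [e3, norm_mul, mul_pow]
    have := b1 x
    rw [← Real.norm_eq_abs] at this
    gcongr
  · have l : Tendsto (fun n => 2 * (D ^ 2 * sqv (fun x => gr (φn n) x - Φ x))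
        + 2 * (D ^ 2 * sq (fun x => φn n x - φ x))) atTop (𝓝 0) := by
      simpa using ((t2.const_mul (D ^ 2)).const_mul 2).add ((t1.const_mul (D ^ 2)).const_mul 2)
    refine squeeze_zero (fun n => sqv_nonneg' _) (fun n => ?_) l
    have d1 : MemLp (fun x => φn n x - φ x) 2 := (test_memLp _ (t0 n)).sub hφ.memf
    have d2 : MemLp (fun x => gr (φn n) x - Φ x) 2 :=
      (h1.ofTest _ (t0 n)).memG.sub hφ.memG
    have i1 := ((int_sq _ d1).const_mul (D ^ 2)).const_mul 2
    have i2 := ((int_sq _ d2).const_mul (D ^ 2)).const_mul 2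
    rw [sq_eq]
    unfold sqv
    rw [← integral_const_mul, ← integral_const_mul, ← integral_const_mul, ← integral_const_mul,
      ← integral_add i2 i1]
    refine integral_mono_of_nonneg (ae_of_all _ fun x => pow_nonneg (norm_nonneg _) 2) (i2.add i1)
      (ae_of_all _ fun x => ?_)
    show ‖(η x • gr (φn n) x + φn n x • gr η x) - (η x • Φ x + φ x • gr η x)‖ ^ 2
      ≤ 2 * (D ^ 2 * ‖gr (φn n) x - Φ x‖ ^ 2) + 2 * (D ^ 2 * ‖φn n x - φ x‖ ^ 2)
    have e3 : (η x • gr (φn n) x + φn n x • gr η x) - (η x • Φ x + φ x • gr η x)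
        = η x • (gr (φn n) x - Φ x) + (φn n x - φ x) • gr η x := by
      rw [smul_sub, sub_smul]
      abel
    rw [e3]
    have h3 := norm_add_le (η x • (gr (φn n) x - Φ x)) ((φn n x - φ x) • gr η x)
    rw [norm_smul, norm_smul] at h3
    have h4 : ‖η x‖ * ‖gr (φn n) x - Φ x‖ ≤ D * ‖gr (φn n) x - Φ x‖ := by
      have := b1 x
      rw [← Real.norm_eq_abs] at this
      gcongr
    have h5 : ‖φn n x - φ x‖ * ‖gr η x‖ ≤ D * ‖φn n x - φ x‖ := by
      rw [mul_comm]
      have := b2 x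
      gcongr
    have h6 : ‖η x • (gr (φn n) x - Φ x) + (φn n x - φ x) • gr η x‖
        ≤ D * ‖gr (φn n) x - Φ x‖ + D * ‖φn n x - φ x‖ := by linarith
    have h7 := pow_le_pow_left₀ (norm_nonneg _) h6 2
    nlinarith [sq_nonneg (D * ‖gr (φn n) x - Φ x‖ - D * ‖φn n x - φ x‖)]

end Pool.Agent.PFlow.PB
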