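import Pool.Agent.PFlow.StmtsPX
import Pool.Agent.PFlow.P.Chain

/-!
# Block PX, module XODT: a function which vanishes on the unit sphere, continued by zero
-/

open MeasureTheory Filter Topology Set
open scoped ContDiff RealInnerProductSpace

namespace Pool.Agent.PFlow.PB

open Pool.Agent.PenroseSph Pool.Agent.PFlow

namespace PXOddT

/-- The function `t S(t² - 1)`. -/
noncomputable def P (t : ℝ) : ℝ := t * Real.smoothTransition (t ^ 2 - 1)

theorem P_smooth : ContDiff ℝ 1 P :=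
  contDiff_id.mul (Real.smoothTransition.contDiff.comp ((contDiff_id.pow 2).sub contDiff_const))

theorem P_zero {t : ℝ} (h : t ^ 2 ≤ 1) : P t = 0 := by
  unfold P
  rw [Real.smoothTransition.zero_of_nonpos (by linarith), mul_zero]

theorem P_id {t : ℝ} (h : 2 ≤ t ^ 2) : P t = t := by
  unfold P
  rw [Real.smoothTransition.one_of_one_le (by linarith), mul_one]

theorem P_sub (t : ℝ) : |P t - t| ≤ |t| := by
  have h1 := Real.smoothTransition.nonneg (t ^ 2 - 1)
  have h2 := Real.smoothTransition.le_one (t ^ 2 - 1)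
  have e : P t - t = t * (Real.smoothTransition (t ^ 2 - 1) - 1) := by
    unfold P
    ring
  rw [e, abs_mul]
  refine mul_le_of_le_one_right (abs_nonneg _) ?_
  rw [abs_le]
  constructor <;> linarith

theorem P_deriv_one {t : ℝ} (h : 2 < t ^ 2) : deriv P t = 1 := by
  have h1 : P =ᶠ[𝓝 t] id := by
    have h2 : ∀ᶠ s in 𝓝 t, 2 < s ^ 2 :=
      (continuous_pow 2).continuousAt.eventually (lt_mem_nhds h)
    filter_upwards [h2] with s hs
    exact P_id hs.le
  rw [h1.deriv_eq, deriv_id]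

theorem P_deriv_zero : deriv P 0 = 0 := by
  have h1 : P =ᶠ[𝓝 0] fun _ => 0 := by
    have h2 : ∀ᶠ s : ℝ in 𝓝 0, s ^ 2 < 1 :=
      (continuous_pow 2).continuousAt.eventually (gt_mem_nhds (by norm_num))
    filter_upwards [h2] with s hs
    exact P_zero hs.le
  rw [h1.deriv_eq, deriv_const]

theorem P_bdd : ∃ C, 1 ≤ C ∧ ∀ t, |deriv P t| ≤ C := by
  obtain ⟨C, hC⟩ := (isCompact_Icc (a := (-2 : ℝ)) (b := 2)).exists_bound_of_continuousOn
    (f := deriv P) (P_smooth.continuous_deriv (by norm_num)).continuousOn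
  refine ⟨max C 1, le_max_right _ _, fun t => ?_⟩
  by_cases ht : t ∈ Icc (-2 : ℝ) 2
  · exact (hC t ht).trans (le_max_left _ _)
  · have h : 2 < t ^ 2 := by
      by_contra hcon
      push Not at hcon
      exact ht ⟨by nlinarith, by nlinarith⟩
    rw [P_deriv_one h, abs_one]
    exact le_max_right _ _

/-- The truncation at the height `1/(k+1)`. -/
noncomputable def Q (k : ℕ) (t : ℝ) : ℝ := ((k : ℝ) + 1)⁻¹ * P (((k : ℝ) + 1) * t)

theorem Q_smooth (k : ℕ) : ContDiff ℝ 1 (Q k) :=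
  contDiff_const.mul (P_smooth.comp (contDiff_const.mul contDiff_id))

theorem Q_zero (k : ℕ) {t : ℝ} (h : (((k : ℝ) + 1) * t) ^ 2 ≤ 1) : Q k t = 0 := by
  unfold Q
  rw [P_zero h, mul_zero]

theorem Q_sub (k : ℕ) (t : ℝ) : |Q k t - t| ≤ |t| := by
  have hk : (0 : ℝ) < (k : ℝ) + 1 := by positivity
  have e : Q k t - t = ((k : ℝ) + 1)⁻¹ * (P (((k : ℝ) + 1) * t) - ((k : ℝ) + 1) * t) := by
    unfold Q
    field_simp
  rw [e, abs_mul, abs_of_pos (inv_pos.2 hk), inv_mul_le_iff₀ hk]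
  refine (P_sub _).trans ?_
  rw [abs_mul, abs_of_pos hk]

theorem Q_deriv (k : ℕ) (t : ℝ) : deriv (Q k) t = deriv P (((k : ℝ) + 1) * t) := by
  have hk : (0 : ℝ) < (k : ℝ) + 1 := by positivity
  have h1 : HasDerivAt P (deriv P (((k : ℝ) + 1) * t)) (((k : ℝ) + 1) * t) :=
    (P_smooth.differentiable (by norm_num) _).hasDerivAt
  have h2 : HasDerivAt (fun s : ℝ => ((k : ℝ) + 1) * s) ((k : ℝ) + 1) t := by
    simpa using (hasDerivAt_id t).const_mul ((k : ℝ) + 1)
  have h3 := (h1.comp t h2).const_mul (((k : ℝ) + 1)⁻¹)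
  have h4 : deriv (Q k) t = _ := h3.deriv
  rw [h4]
  field_simp

theorem ev_large {t : ℝ} (ht : t ≠ 0) : ∀ᶠ k : ℕ in atTop, 2 < (((k : ℝ) + 1) * t) ^ 2 := by
  have h1 : Tendsto (fun k : ℕ => (k : ℝ) + 1) atTop atTop :=
    tendsto_atTop_add_const_right _ _ tendsto_natCast_atTop_atTop
  have h2 := h1.eventually_gt_atTop (2 / t ^ 2)
  filter_upwards [h2, h1.eventually_ge_atTop 1] with k hk hk1
  have ht2 : 0 < t ^ 2 := by positivity
  rw [div_lt_iff₀ ht2] at hk
  rw [mul_pow]
  nlinarith [mul_le_mul_of_nonneg_left hk1 (mul_nonneg (zero_le_one.trans hk1) ht2.le)]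

theorem Q_tend (t : ℝ) : Tendsto (fun k => Q k t) atTop (𝓝 t) := by
  by_cases ht : t = 0
  · have e : ∀ k, Q k t = t := fun k => by
      rw [Q_zero k (by rw [ht]; norm_num), ht]
    simp only [e]
    exact tendsto_const_nhds
  · refine tendsto_const_nhds.congr' ?_
    filter_upwards [ev_large ht] with k hk
    have hk' : (0 : ℝ) < (k : ℝ) + 1 := by positivity
    unfold Q
    rw [P_id hk.le]
    field_simp

theorem Q_deriv_tend {t : ℝ} (ht : t ≠ 0) : Tendsto (fun k => deriv (Q k) t) atTop (𝓝 1) := by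
  refine tendsto_const_nhds.congr' ?_
  filter_upwards [ev_large ht] with k hk
  rw [Q_deriv, P_deriv_one hk]

theorem gr_congr {f g : E3 → ℝ} {x : E3} (h : f =ᶠ[𝓝 x] g) : gr f x = gr g x := by
  ext i
  simp only [gr_apply, pd_eq, h.fderiv_eq]

theorem gr_zero (x : E3) : gr (fun _ => 0) x = 0 := by
  ext i
  simp only [gr_apply, pd_eq]
  simp

/-- The exterior of the unit ball. -/
def O : Set E3 := {x : E3 | 1 < ‖x‖}

theorem O_open : IsOpen O := isOpen_lt continuous_const continuous_norm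

variable {ψ : E3 → ℝ}

/-- The approximation of `1_{|x|>1} ψ`. -/
noncomputable def f (ψ : E3 → ℝ) (k : ℕ) : E3 → ℝ := O.indicator fun x => Q k (ψ x)

theorem f_out (k : ℕ) {x : E3} (hx : x ∈ O) : f ψ k =ᶠ[𝓝 x] fun y => Q k (ψ y) := by
  filter_upwards [O_open.mem_nhds hx] with y hy
  exact indicator_of_mem hy _

theorem f_in (hψ : Continuous ψ) (h0 : ∀ x : E3, ‖x‖ = 1 → ψ x = 0) (k : ℕ) {x : E3}
    (hx : x ∉ O) : f ψ k =ᶠ[𝓝 x] fun _ => 0 := by
  rcases lt_or_eq_of_le (not_lt.1 hx : ‖x‖ ≤ 1) with h | h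
  · have h1 : ∀ᶠ y : E3 in 𝓝 x, ‖y‖ < 1 :=
      continuous_norm.continuousAt.eventually (gt_mem_nhds h)
    filter_upwards [h1] with y hy
    have hy' : y ∉ O := fun hy' => lt_asymm hy hy'
    exact indicator_of_notMem hy' _
  · have h1 : ∀ᶠ y : E3 in 𝓝 x, (((k : ℝ) + 1) * ψ y) ^ 2 < 1 := by
      have hc : Continuous fun y => (((k : ℝ) + 1) * ψ y) ^ 2 :=
        (continuous_const.mul hψ).pow 2
      refine hc.continuousAt.eventually (gt_mem_nhds ?_)
      show (((k : ℝ) + 1) * ψ x) ^ 2 < 1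
      rw [h0 x h]
      norm_num
    filter_upwards [h1] with y hy
    unfold f indicator
    split_ifs
    · exact Q_zero k hy.le
    · rfl

theorem f_smooth (hψ : ContDiff ℝ 1 ψ) (h0 : ∀ x : E3, ‖x‖ = 1 → ψ x = 0) (k : ℕ) :
    ContDiff ℝ 1 (f ψ k) := by
  rw [contDiff_iff_contDiffAt]
  intro x
  by_cases hx : x ∈ O
  · exact (((Q_smooth k).comp hψ).contDiffAt).congr_of_eventuallyEq (f_out k hx)
  · exact (contDiff_const.contDiffAt).congr_of_eventuallyEq (f_in hψ.continuous h0 k hx)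

theorem f_cpt (hc : HasCompactSupport ψ) (k : ℕ) : HasCompactSupport (f ψ k) := by
  refine hc.mono fun x hx => ?_
  rw [Function.mem_support] at hx ⊢
  intro h
  refine hx ?_
  unfold f indicator
  split_ifs
  · show Q k (ψ x) = 0
    rw [h]
    exact Q_zero k (by norm_num)
  · rfl

theorem gr_f (hψ : ContDiff ℝ 1 ψ) (h0 : ∀ x : E3, ‖x‖ = 1 → ψ x = 0) (k : ℕ) (x : E3) :
    gr (f ψ k) x = O.indicator (fun x => deriv (Q k) (ψ x) • gr ψ x) x := by
  by_cases hx : x ∈ O
  · rw [indicator_of_mem hx, gr_congr (f_out k hx)]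
    exact gr_comp (Q k) (Q_smooth k) ψ x (hψ.differentiable (by norm_num) x)
  · rw [indicator_of_notMem hx, gr_congr (f_in hψ.continuous h0 k hx), gr_zero]

end PXOddT

open PXOddT in
/-- XODT. -/
theorem xodt_thm (h1 : API1) (h2 : API2) (hc : CHAIN) : XODT := by
  intro ψ hψ hcs h0
  have hH := h2.ofC1 ψ hψ hcs
  have hm : MeasurableSet O := O_open.measurableSet
  have hf : MemLp (O.indicator ψ) 2 := hH.memf.indicator hm
  have hG : MemLp (O.indicator (gr ψ)) 2 := hH.memG.indicator hm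
  have hk : ∀ k, H1 (f ψ k) (gr (f ψ k)) := fun k =>
    h2.ofC1 _ (f_smooth hψ h0 k) (f_cpt hcs k)
  obtain ⟨C, hC1, hC⟩ := P_bdd
  refine h1.closed _ _ (fun k => f ψ k) (fun k => gr (f ψ k)) hk hf hG ?_ ?_
  · simp only [sq_eq]
    refine dom_tend _ (fun x => ‖ψ x‖) (fun k => ((hk k).memf.sub hf).1) hH.memf.norm
      (fun k => Eventually.of_forall fun x => ?_) (Eventually.of_forall fun x => ?_)
    · show ‖f ψ k x - O.indicator ψ x‖ ≤ _
      unfold f indicator
      split_ifs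
      · exact Q_sub k _
      · simp
    · show Tendsto (fun k => f ψ k x - O.indicator ψ x) atTop (𝓝 0)
      unfold f indicator
      split_ifs
      · have := (Q_tend (ψ x)).sub_const (ψ x)
        rwa [sub_self] at this
      · simp
  · show Tendsto (fun k => ∫ x, ‖gr (f ψ k) x - O.indicator (gr ψ) x‖ ^ 2) atTop (𝓝 0)
    refine dom_tend _ (fun x => (C + 1) * ‖gr ψ x‖) (fun k => ((hk k).memG.sub hG).1)
      (hH.memG.norm.const_mul _) (fun k => Eventually.of_forall fun x => ?_) ?_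
    · show ‖gr (f ψ k) x - O.indicator (gr ψ) x‖ ≤ _
      rw [gr_f hψ h0]
      unfold indicator
      split_ifs
      · rw [add_mul, one_mul]
        refine (norm_sub_le _ _).trans (add_le_add_left ?_ _)
        rw [norm_smul, Real.norm_eq_abs, Q_deriv]
        exact mul_le_mul_of_nonneg_right (hC _) (norm_nonneg _)
      · rw [sub_zero, norm_zero]
        positivity
    · filter_upwards [hc.zero ψ (gr ψ) hH] with x hx
      show Tendsto (fun k => gr (f ψ k) x - O.indicator (gr ψ) x) atTop (𝓝 0)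
      simp only [gr_f hψ h0]
      unfold indicator
      split_ifs
      · by_cases h : ψ x = 0
        · simp [hx h]
        · have := ((Q_deriv_tend h).smul_const (gr ψ x)).sub_const (gr ψ x)
          rwa [one_smul, sub_self] at this
      · simp

end Pool.Agent.PFlow.PB
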