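import Pool.Agent.PFlow.StmtsPX
import Pool.Agent.PFlow.P.Order

/-!
# Block PX, module XORD: comparison for the problem with the additional term
-/

open MeasureTheory Filter Topology Set
open scoped ContDiff RealInnerProductSpace ENNReal

namespace Pool.Agent.PFlow.PB

open Pool.Agent.PenroseSph Pool.Agent.PFlow

namespace PXOrder

open OrderP Step

/-- The common argument, with test functions which vanish on `Z`. -/
lemma core (hc : CHAIN) {c L m k : ℝ} (hc0 : 0 < c) (hm : L ^ 2 / c + 1 ≤ m) (hk : 0 ≤ k)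
    {w : E3 → ℝ} {W a : E3 → E3} {b : E3 → ℝ} (hw : H1 w W) (ha : MemLp a 2) (hb : MemLp b 2)
    {Z : Set E3} (hZ : ∀ᵐ x, x ∈ Z → w x ≤ k)
    (hE : ∀ φ Φ, H1 φ Φ → (∀ᵐ x, x ∈ Z → φ x = 0) → ∫ x, ⟪a x, Φ x⟫ = ∫ x, b x * φ x)
    (hA : ∀ᵐ x, c * ‖W x‖ ^ 2 ≤ ⟪a x, W x⟫)
    (hB : ∀ᵐ x, k < w x → b x ≤ L * ‖W x‖ - m * (w x - k)) : ∀ᵐ x, w x ≤ k := by
  have hd : ∀ t, deriv (fun t => Psi (t - k)) t = psi (t - k) := by
    intro t
    have := ((hasDeriv_Psi (t - k)).comp t ((hasDerivAt_id t).sub_const k)).deriv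
    rw [mul_one] at this
    exact this
  have hH := hc.lip w W (fun t => Psi (t - k)) 1 hw
    (contDiff_Psi.comp (contDiff_id.sub contDiff_const)) (Psi_nonpos (by linarith)) (by
      intro t
      rw [hd, abs_of_nonneg (psi_nonneg _)]
      exact psi_le_one _)
  simp only [hd] at hH
  have hint := hE _ _ hH (by
    filter_upwards [hZ] with x hx hxZ
    exact Psi_nonpos (by linarith [hx hxZ]))
  have i1 := int_inner ha hH.memG
  have i2 := int_mul _ _ hb hH.memf
  have hzero : ∫ x, (⟪a x, psi (w x - k) • W x⟫ - b x * Psi (w x - k)) = 0 := by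
    rw [integral_sub i1 i2, hint, sub_self]
  have hpt : ∀ᵐ x, 0 ≤ ⟪a x, psi (w x - k) • W x⟫ - b x * Psi (w x - k) ∧
      (k < w x → 0 < ⟪a x, psi (w x - k) • W x⟫ - b x * Psi (w x - k)) := by
    filter_upwards [hA, hB] with x hx1 hx2
    have hpos : k < w x → 0 < ⟪a x, psi (w x - k) • W x⟫ - b x * Psi (w x - k) := by
      intro hkx
      have h1 : 0 < w x - k := by linarith
      have h2 := key (d := ‖W x‖) hc0 hm h1
      have h3 := hx2 hkx
      have h4 := psi_pos h1
      have h5 := Psi_pos h1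
      rw [real_inner_smul_right]
      have h6 : c * ‖W x‖ ^ 2 * psi (w x - k) ≤ psi (w x - k) * ⟪a x, W x⟫ := by
        rw [mul_comm]
        exact mul_le_mul_of_nonneg_left hx1 h4.le
      have h7 : b x * Psi (w x - k) ≤ (L * ‖W x‖ - m * (w x - k)) * Psi (w x - k) :=
        mul_le_mul_of_nonneg_right h3 h5.le
      nlinarith
    refine ⟨?_, hpos⟩
    by_cases hkx : k < w x
    · exact (hpos hkx).le
    · rw [not_lt] at hkx
      rw [psi_nonpos (by linarith), Psi_nonpos (by linarith)]
      simp
  have hnn : 0 ≤ᵐ[volume] fun x => ⟪a x, psi (w x - k) • W x⟫ - b x * Psi (w x - k) := by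
    filter_upwards [hpt] with x hx
    exact hx.1
  have hz := (integral_eq_zero_iff_of_nonneg_ae hnn (i1.sub i2)).mp hzero
  filter_upwards [hpt, hz] with x hx hx0
  by_contra hcon
  rw [not_le] at hcon
  have := hx.2 hcon
  change _ = (0 : ℝ) at hx0
  linarith

end PXOrder

open OrderP Step in
/-- XORD: comparison for the problem with the additional term. -/
theorem xord_thm (h1 : API1) (hc : CHAIN) : XORD where
  mono := by
    intro A B c L r hP Z w₀ _ m hm v₁ v₂ u₁ u₂ G₁ G₂ hv₁ hv₂ hs₁ hs₂ hv
    obtain ⟨hu₁, hz₁, he₁⟩ := hs₁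
    obtain ⟨hu₂, hz₂, he₂⟩ := hs₂
    have hmp : 0 < m := by
      have := hP.c_pos
      have : 0 ≤ L ^ 2 / c := by positivity
      linarith
    have hm' : L ^ 2 / c + 1 ≤ m := by linarith
    have ma₁ := memA hP hu₁.memG
    have ma₂ := memA hP hu₂.memG
    have mb₁ : MemLp (fun x => B x (G₁ x) - m * (u₁ x - v₁ x)) 2 :=
      (memB hP hu₁.memG).sub ((hu₁.memf.sub hv₁).const_mul m)
    have mb₂ : MemLp (fun x => B x (G₂ x) - m * (u₂ x - v₂ x)) 2 :=
      (memB hP hu₂.memG).sub ((hu₂.memf.sub hv₂).const_mul m)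
    have := PXOrder.core hc (L := L) hP.c_pos hm' le_rfl (h1.sub _ _ _ _ hu₁ hu₂) (ma₁.sub ma₂)
      (mb₁.sub mb₂) (Z := Z) (by
        filter_upwards [hz₁, hz₂] with x hx1 hx2 hxZ
        change u₁ x - u₂ x ≤ 0
        rw [hx1 hxZ, hx2 hxZ, sub_self]) (by
        intro φ Φ hφ hφZ
        have e1 : ∫ x, ⟪((fun x => A x (G₁ x)) - fun x => A x (G₂ x)) x, Φ x⟫
            = ∫ x, (⟪A x (G₁ x), Φ x⟫ - ⟪A x (G₂ x), Φ x⟫) := by
          refine integral_congr_ae (Eventually.of_forall fun x => ?_)
          simp only [Pi.sub_apply]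
          rw [inner_sub_left]
        rw [e1, integral_sub (int_inner ma₁ hφ.memG) (int_inner ma₂ hφ.memG), he₁ φ Φ hφ hφZ,
          he₂ φ Φ hφ hφZ, ← integral_sub (int_mul _ _ mb₁ hφ.memf) (int_mul _ _ mb₂ hφ.memf)]
        refine integral_congr_ae (Eventually.of_forall fun x => ?_)
        simp only [Pi.sub_apply]
        ring) (Eventually.of_forall fun x => hP.mono x _ _) (by
        filter_upwards [hv] with x hx hpos
        simp only [Pi.sub_apply]
        have h2 := (le_abs_self _).trans (hP.lipB x (G₁ x) (G₂ x))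
        have h5 : 0 ≤ m * (v₂ x - v₁ x) := mul_nonneg hmp.le (by linarith)
        nlinarith)
    filter_upwards [this] with x hx
    linarith
  nonneg := by
    intro A B c L r hP Z w₀ _ hw₀ m hm v u G hv hs hvn
    obtain ⟨hu, hz, he⟩ := hs
    have hmp : 0 < m := by
      have := hP.c_pos
      have : 0 ≤ L ^ 2 / c := by positivity
      linarith
    have hm' : L ^ 2 / c + 1 ≤ m := by linarith
    have ma := memA hP hu.memG
    have mb : MemLp (fun x => B x (G x) - m * (u x - v x)) 2 :=
      (memB hP hu.memG).sub ((hu.memf.sub hv).const_mul m)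
    have := PXOrder.core hc (L := L) hP.c_pos hm' le_rfl (h1.smul (-1) _ _ hu) ma.neg mb.neg
      (Z := Z) (by
        filter_upwards [hz] with x hx hxZ
        rw [hx hxZ]
        have := hw₀ x
        linarith) (by
        intro φ Φ hφ hφZ
        have e1 : ∫ x, ⟪(-fun x => A x (G x)) x, Φ x⟫ = - ∫ x, ⟪A x (G x), Φ x⟫ := by
          rw [← integral_neg]
          refine integral_congr_ae (Eventually.of_forall fun x => ?_)
          simp only [Pi.neg_apply]
          rw [inner_neg_left]
        rw [e1, he φ Φ hφ hφZ, ← integral_neg]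
        refine integral_congr_ae (Eventually.of_forall fun x => ?_)
        simp only [Pi.neg_apply]
        ring) (Eventually.of_forall fun x => by
          have h2 := hP.mono x (G x) 0
          rw [hP.A_zero, sub_zero, sub_zero] at h2
          simp only [Pi.neg_apply]
          rw [neg_one_smul, inner_neg_neg, norm_neg]
          exact h2) (by
        filter_upwards [hvn] with x hx hpos
        simp only [Pi.neg_apply]
        rw [neg_one_smul, norm_neg]
        have h2 := (neg_abs_le _).trans' (neg_le_neg (hP.lipB x (G x) 0))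
        rw [hP.B_zero, sub_zero, sub_zero] at h2
        have h5 : 0 ≤ m * v x := mul_nonneg hmp.le hx
        nlinarith)
    filter_upwards [this] with x hx
    linarith
  le_one := by
    intro A B c L r hP Z w₀ _ hw₀ m hm v u G hv hs hv1
    obtain ⟨hu, hz, he⟩ := hs
    have hmp : 0 < m := by
      have := hP.c_pos
      have : 0 ≤ L ^ 2 / c := by positivity
      linarith
    have hm' : L ^ 2 / c + 1 ≤ m := by linarith
    have ma := memA hP hu.memG
    have mb : MemLp (fun x => B x (G x) - m * (u x - v x)) 2 :=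
      (memB hP hu.memG).sub ((hu.memf.sub hv).const_mul m)
    exact PXOrder.core hc (L := L) hP.c_pos hm' zero_le_one hu ma mb (Z := Z) (by
        filter_upwards [hz] with x hx hxZ
        rw [hx hxZ]
        exact hw₀ x) he
      (Eventually.of_forall fun x => by
          have h2 := hP.mono x (G x) 0
          rw [hP.A_zero, sub_zero, sub_zero] at h2
          exact h2) (by
        filter_upwards [hv1] with x hx hpos
        have h2 := (le_abs_self _).trans (hP.lipB x (G x) 0)
        rw [hP.B_zero, sub_zero, sub_zero] at h2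
        have h5 : 0 ≤ m * (1 - v x) := mul_nonneg hmp.le (by linarith)
        nlinarith)

end Pool.Agent.PFlow.PB
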