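import Pool.Agent.PFlow.StmtsPX
import Pool.Agent.PFlow.P.Base

/-!
# Block PX, XPRD: the product with the square of a cut-off function
-/

open MeasureTheory Filter Topology Set
open scoped ContDiff RealInnerProductSpace

namespace Pool.Agent.PFlow.PB

open Pool.Agent.PenroseSph Pool.Agent.PFlow

namespace PXPrd

theorem pd_test {f : E3 → ℝ} (hf : Test f) (i : Fin 3) : Test (pd i f) where
  smooth := by
    have h1 : ContDiff ℝ ∞ (fderiv ℝ f) := hf.smooth.fderiv_right (m := ∞) le_rfl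
    exact h1.clm_apply contDiff_const
  cpt := hf.cpt.fderiv_apply (𝕜 := ℝ) _

theorem sq_test {f : E3 → ℝ} (hf : Test f) : Test (fun x => f x ^ 2) where
  smooth := hf.smooth.pow 2
  cpt := by
    refine hf.cpt.mono ?_
    intro x hx
    rw [Function.mem_support] at hx ⊢
    intro h0
    apply hx
    rw [h0]
    ring

theorem gr_bdd {f : E3 → ℝ} (hf : Test f) : ∃ C : ℝ, ∀ x, ‖gr f x‖ ≤ C :=
  (gr_cont f hf.one).bounded_above_of_compact_support (gr_cpt f hf.cpt)

theorem bdd {f : E3 → ℝ} (hf : Test f) : ∃ C : ℝ, ∀ x, |f x| ≤ C := by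
  obtain ⟨C, hC⟩ := hf.smooth.continuous.bounded_above_of_compact_support hf.cpt
  exact ⟨C, fun x => by rw [← Real.norm_eq_abs]; exact hC x⟩

theorem gr_sq {f : E3 → ℝ} (hf : Test f) (x : E3) :
    gr (fun x => f x ^ 2) x = (2 * f x) • gr f x := by
  have hd : DifferentiableAt ℝ f x := hf.smooth.differentiable (by simp) x
  ext i
  rw [gr_apply, pd_eq, PiLp.smul_apply, gr_apply, pd_eq, smul_eq_mul]
  have h1 : HasFDerivAt (fun x => f x ^ 2) ((2 * f x) • fderiv ℝ f x) x := by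
    have h2 := hd.hasFDerivAt.pow 2
    have h3 : (2 • f x ^ (2 - 1)) • fderiv ℝ f x = (2 * f x) • fderiv ℝ f x := by
      congr 1
      simp
    rw [h3] at h2
    exact h2
  rw [h1.fderiv]
  rfl

theorem gr_off {f : E3 → ℝ} {x : E3} (hx : ∀ᶠ y in 𝓝 x, f y = 0) : gr f x = 0 := by
  have h1 : f =ᶠ[𝓝 x] fun _ => 0 := hx
  ext i
  rw [gr_apply, pd_eq, h1.fderiv_eq, fderiv_fun_const]
  rfl

/-- Second derivatives of the square vanish off the support. -/
theorem hs_off {f : E3 → ℝ} {x : E3} (hx : x ∉ tsupport f) (i : Fin 3) :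
    gr (pd i (fun x => f x ^ 2)) x = 0 := by
  have h0 : ∀ᶠ y in 𝓝 x, f y = 0 := notMem_tsupport_iff_eventuallyEq.mp hx
  apply gr_off
  filter_upwards [h0.eventually_nhds] with y hy
  have h1 : ∀ᶠ z in 𝓝 y, (fun x => f x ^ 2) z = 0 := by
    filter_upwards [hy] with z hz
    rw [hz]
    ring
  have h2 := gr_off h1
  rw [← gr_apply, h2]
  rfl

end PXPrd

open PXPrd in
theorem xprd_thm (h1 : API1) (h2 : API2) : XPRD := by
  intro ζ hζ hζ1
  have hη := sq_test hζ
  obtain ⟨C₁, hC₁⟩ := gr_bdd hζ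
  obtain ⟨C₂, hC₂⟩ := gr_bdd hη
  have hpd := fun i => pd_test hη i
  choose C₃ hC₃ using fun i => gr_bdd (hpd i)
  choose C₄ hC₄ using fun i => bdd (hpd i)
  have hC₁0 : 0 ≤ C₁ := (norm_nonneg _).trans (hC₁ 0)
  have hC₃0 : ∀ i, 0 ≤ C₃ i := fun i => (norm_nonneg _).trans (hC₃ i 0)
  have hind : ∀ x : E3, 0 ≤ (tsupport ζ).indicator (fun _ => (1 : ℝ)) x := fun x =>
    indicator_nonneg (fun _ _ => zero_le_one) x
  refine ⟨4 * C₁ + 2 * ∑ i, C₃ i, by
    have := Finset.sum_nonneg fun i (_ : i ∈ Finset.univ) => hC₃0 i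
    positivity, fun w W N hw hw2 => ?_⟩
  -- the function
  have e1 : H1 (fun x => ζ x ^ 2 * w x) (fun x => ζ x ^ 2 • W x + w x •
      gr (fun x => ζ x ^ 2) x) := by
    refine h2.mul w W (fun x => ζ x ^ 2) (max 1 C₂) hw.h1 hη.one (fun x => ?_) (fun x => ?_)
    · obtain ⟨a, b⟩ := hζ1 x
      refine le_trans ?_ (le_max_left _ _)
      rw [abs_of_nonneg (by positivity)]
      nlinarith
    · exact (hC₂ x).trans (le_max_right _ _)
  -- its derivatives
  have e2 : ∀ i, H1 (fun x => (ζ x ^ 2 • W x + w x • gr (fun x => ζ x ^ 2) x) i)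
      (fun x => (ζ x ^ 2 • N i x + W x i • gr (fun x => ζ x ^ 2) x) +
        (pd i (fun x => ζ x ^ 2) x • W x + w x • gr (pd i (fun x => ζ x ^ 2)) x)) := by
    intro i
    have a1 := h2.mul (fun x => W x i) (N i) (fun x => ζ x ^ 2) (max 1 C₂) (hw.h2 i) hη.one
      (fun x => by
        obtain ⟨a, b⟩ := hζ1 x
        refine le_trans ?_ (le_max_left _ _)
        rw [abs_of_nonneg (by positivity)]
        nlinarith) (fun x => (hC₂ x).trans (le_max_right _ _))
    have a2 := h2.mul w W (pd i (fun x => ζ x ^ 2)) (max (C₄ i) (C₃ i)) hw.h1 (hpd i).one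
      (fun x => (hC₄ i x).trans (le_max_left _ _)) (fun x => (hC₃ i x).trans (le_max_right _ _))
    have a3 := h1.add _ _ _ _ a1 a2
    have a4 : (fun x => (ζ x ^ 2 • W x + w x • gr (fun x => ζ x ^ 2) x) i) =
        fun x => ζ x ^ 2 * W x i + pd i (fun x => ζ x ^ 2) x * w x := by
      funext x
      rw [PiLp.add_apply, PiLp.smul_apply, PiLp.smul_apply, gr_apply, smul_eq_mul, smul_eq_mul,
        mul_comm (w x)]
    rw [a4]
    exact a3
  refine ⟨_, _, ⟨e1, e2⟩, ?_, ?_⟩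
  · filter_upwards [hw2] with x hx
    rw [add_sub_cancel_left, gr_sq hζ, norm_smul, norm_smul, Real.norm_eq_abs, Real.norm_eq_abs]
    obtain ⟨a, b⟩ := hζ1 x
    have hs := Finset.sum_nonneg fun i (_ : i ∈ Finset.univ) => hC₃0 i
    by_cases hxs : x ∈ tsupport ζ
    · rw [indicator_of_mem hxs, mul_one, abs_of_nonneg (by positivity : 0 ≤ 2 * ζ x)]
      have b1 : 2 * ζ x * ‖gr ζ x‖ ≤ 2 * C₁ := by
        have := hC₁ x
        have := norm_nonneg (gr ζ x)
        nlinarith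
      have b2 : |w x| * (2 * ζ x * ‖gr ζ x‖) ≤ 2 * (2 * C₁) :=
        mul_le_mul hx b1 (by positivity) (by norm_num)
      linarith
    · have b1 : ζ x = 0 := image_eq_zero_of_notMem_tsupport hxs
      rw [b1, indicator_of_notMem hxs]
      simp
  · filter_upwards [hw2] with x hx
    intro i
    obtain ⟨a, b⟩ := hζ1 x
    have hs := Finset.sum_nonneg fun i (_ : i ∈ Finset.univ) => hC₃0 i
    have hsi : C₃ i ≤ ∑ i, C₃ i :=
      Finset.single_le_sum (fun i _ => hC₃0 i) (Finset.mem_univ i)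
    have c1 : ‖gr (fun x => ζ x ^ 2) x‖ ≤ 2 * C₁ * ζ x := by
      rw [gr_sq hζ, norm_smul, Real.norm_eq_abs, abs_of_nonneg (by positivity : 0 ≤ 2 * ζ x)]
      have := hC₁ x
      nlinarith
    have c2 : |W x i| ≤ ‖W x‖ := by
      rw [← Real.norm_eq_abs]
      exact PiLp.norm_apply_le (W x) i
    have c3 : |pd i (fun x => ζ x ^ 2) x| ≤ 2 * C₁ * ζ x := by
      rw [← gr_apply, ← Real.norm_eq_abs]
      exact (PiLp.norm_apply_le (gr (fun x => ζ x ^ 2) x) i).trans c1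
    have c4 : ‖gr (pd i (fun x => ζ x ^ 2)) x‖ ≤
        (∑ i, C₃ i) * (tsupport ζ).indicator (fun _ => (1 : ℝ)) x := by
      by_cases hxs : x ∈ tsupport ζ
      · rw [indicator_of_mem hxs, mul_one]
        exact (hC₃ i x).trans hsi
      · rw [hs_off hxs, norm_zero, indicator_of_notMem hxs, mul_zero]
    have d0 : (ζ x ^ 2 • N i x + W x i • gr (fun x => ζ x ^ 2) x) +
        (pd i (fun x => ζ x ^ 2) x • W x + w x • gr (pd i (fun x => ζ x ^ 2)) x) -
        ζ x ^ 2 • N i x = W x i • gr (fun x => ζ x ^ 2) x +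
        (pd i (fun x => ζ x ^ 2) x • W x + w x • gr (pd i (fun x => ζ x ^ 2)) x) := by
      abel
    rw [d0]
    refine (norm_add_le _ _).trans ?_
    have d1 : ‖W x i • gr (fun x => ζ x ^ 2) x‖ ≤ ‖W x‖ * (2 * C₁ * ζ x) := by
      rw [norm_smul, Real.norm_eq_abs]
      exact mul_le_mul c2 c1 (norm_nonneg _) (norm_nonneg _)
    have d2 : ‖pd i (fun x => ζ x ^ 2) x • W x‖ ≤ 2 * C₁ * ζ x * ‖W x‖ := by
      rw [norm_smul, Real.norm_eq_abs]
      exact mul_le_mul_of_nonneg_right c3 (norm_nonneg _)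
    have d3 : ‖w x • gr (pd i (fun x => ζ x ^ 2)) x‖ ≤
        2 * ((∑ i, C₃ i) * (tsupport ζ).indicator (fun _ => (1 : ℝ)) x) := by
      rw [norm_smul, Real.norm_eq_abs]
      exact mul_le_mul hx c4 (norm_nonneg _) (by norm_num)
    have d4 := norm_add_le (pd i (fun x => ζ x ^ 2) x • W x)
      (w x • gr (pd i (fun x => ζ x ^ 2)) x)
    have d5 : 0 ≤ (∑ i, C₃ i) * (ζ x * ‖W x‖) := by positivity
    have d6 : 0 ≤ C₁ * (tsupport ζ).indicator (fun _ => (1 : ℝ)) x := mul_nonneg hC₁0 (hind x)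
    nlinarith

end Pool.Agent.PFlow.PB
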