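import Pool.Agent.PFlow.StmtsPX
import Pool.Agent.PFlow.E.HSM2
import Pool.Agent.PFlow.P.Base

/-!
# Block PX, module XREF: the reflected function is a weak solution
-/

open MeasureTheory Filter Topology Set
open scoped ContDiff RealInnerProductSpace

namespace Pool.Agent.PFlow.PB

open Pool.Agent.PenroseSph Pool.Agent.PFlow

namespace PXRef

/-! ### The inversion -/

theorem jac_inv {x : E3} (hx : x ≠ 0) :
    inversionJac (inversion x) = (‖x‖ ^ 2) ^ 2 • inversionJac x := by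
  have h0 : ‖x‖ ≠ 0 := norm_ne_zero_iff.2 hx
  ext a i
  have h1 : ∀ k : Fin 3, inversion x k = (‖x‖ ^ 2)⁻¹ * x k := fun k => rfl
  simp only [inversionJac, Matrix.of_apply, Matrix.smul_apply, smul_eq_mul, h1,
    HSM2.norm_inversion x hx]
  field_simp

theorem jac_mul {x : E3} (hx : x ≠ 0) : inversionJac (inversion x) * inversionJac x = 1 := by
  have h0 : ‖x‖ ≠ 0 := norm_ne_zero_iff.2 hx
  rw [jac_inv hx, Matrix.smul_mul, HSM2.jac_sq x hx, smul_smul]
  have : (‖x‖ ^ 2) ^ 2 * (‖x‖ ^ 2)⁻¹ ^ 2 = 1 := by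
    field_simp
  rw [this, one_smul]

theorem JT_JT {x : E3} (hx : x ≠ 0) (v : E3) : JT x (JT (inversion x) v) = v := by
  ext i
  have h1 : ∀ b, ∑ a, inversionJac (inversion x) b a * inversionJac x a i =
      (1 : Bil) b i := by
    intro b
    rw [← jac_mul hx, Matrix.mul_apply]
  show ∑ a, inversionJac x a i * (∑ b, inversionJac (inversion x) b a * v b) = v i
  calc ∑ a, inversionJac x a i * (∑ b, inversionJac (inversion x) b a * v b)
      = ∑ a, ∑ b, inversionJac (inversion x) b a * inversionJac x a i * v b := by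
        refine Finset.sum_congr rfl fun a _ => ?_
        rw [Finset.mul_sum]
        exact Finset.sum_congr rfl fun b _ => by ring
    _ = ∑ b, ∑ a, inversionJac (inversion x) b a * inversionJac x a i * v b := Finset.sum_comm
    _ = ∑ b, (1 : Bil) b i * v b := by
        refine Finset.sum_congr rfl fun b _ => ?_
        rw [← Finset.sum_mul, h1]
    _ = v i := by
        rw [Finset.sum_eq_single i]
        · rw [Matrix.one_apply_eq, one_mul]
        · intro b _ hb
          rw [Matrix.one_apply_ne hb, zero_mul]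
        · intro h
          exact absurd (Finset.mem_univ i) h

theorem inv_inv (x : E3) : inversion (inversion x) = x := by
  by_cases hx : x = 0
  · subst hx
    simp [inversion]
  · exact HSM2.inversion_inversion x hx

theorem norm_inv (x : E3) : ‖inversion x‖ = ‖x‖⁻¹ := by
  by_cases hx : x = 0
  · subst hx
    simp [inversion]
  · exact HSM2.norm_inversion x hx

theorem JT_zero (x : E3) : JT x 0 = 0 := by
  ext i
  show ∑ a, inversionJac x a i * (0 : E3) a = 0
  simp

/-! ### Integrability -/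

theorem memA {A : E3 → E3 → E3} {B : E3 → E3 → ℝ} {c L r : ℝ} (hP : PCoef A B c L r)
    {G : E3 → E3} (hG : MemLp G 2) : MemLp (fun x => A x (G x)) 2 := by
  refine hG.of_le_mul (c := L) ?_ (ae_of_all _ fun x => ?_)
  · exact hP.smoothA.continuous.comp_aestronglyMeasurable
      (aestronglyMeasurable_id.prodMk hG.1)
  · have := hP.lipA x (G x) 0
    rwa [hP.A_zero x, sub_zero, sub_zero] at this

theorem memB {A : E3 → E3 → E3} {B : E3 → E3 → ℝ} {c L r : ℝ} (hP : PCoef A B c L r)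
    {G : E3 → E3} (hG : MemLp G 2) : MemLp (fun x => B x (G x)) 2 := by
  refine hG.of_le_mul (c := L) ?_ (ae_of_all _ fun x => ?_)
  · exact hP.smoothB.continuous.comp_aestronglyMeasurable
      (aestronglyMeasurable_id.prodMk hG.1)
  · have := hP.lipB x (G x) 0
    rwa [hP.B_zero x, sub_zero, sub_zero] at this

theorem int_inner {X Y : E3 → E3} (hX : MemLp X 2) (hY : MemLp Y 2) :
    Integrable (fun x => ⟪X x, Y x⟫) := by
  refine (hX.norm.integrable_mul hY.norm).mono' (hX.1.inner hY.1) (ae_of_all _ fun x => ?_)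
  exact norm_inner_le_norm (X x) (Y x)

theorem int_mulr {f g : E3 → ℝ} (hf : MemLp f 2) (hg : MemLp g 2) :
    Integrable (fun x => f x * g x) := hf.integrable_mul hg

/-- The cut-off function. -/
noncomputable def cut : ContDiffBump (0 : E3) where
  rIn := 3
  rOut := 4
  rIn_pos := by norm_num
  rIn_lt_rOut := by norm_num

theorem cut_test : Test (cut : E3 → ℝ) := ⟨cut.contDiff, cut.hasCompactSupport⟩

theorem cut_one {x : E3} (hx : ‖x‖ ≤ 3) : cut x = 1 :=
  cut.one_of_mem_closedBall (by rwa [Metric.mem_closedBall, dist_zero_right])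

theorem cut_zero {x : E3} (hx : 4 ≤ ‖x‖) : cut x = 0 :=
  cut.zero_of_le_dist (by rwa [dist_zero_right])

theorem gr_cut {x : E3} (hx : ‖x‖ < 3) : gr (cut : E3 → ℝ) x = 0 := by
  have h1 : (cut : E3 → ℝ) =ᶠ[𝓝 x] fun _ => 1 := by
    have h2 : ∀ᶠ y in 𝓝 x, ‖y‖ < 3 := (continuous_norm.tendsto x).eventually_lt_const hx
    filter_upwards [h2] with y hy
    exact cut_one hy.le
  ext i
  show pd i (cut : E3 → ℝ) x = 0
  unfold pd
  rw [h1.fderiv_eq]
  simp

theorem ae_ne_one : ∀ᵐ x : E3, ‖x‖ ≠ 1 := by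
  have h := Measure.addHaar_sphere (volume : Measure E3) 0 1
  refine measure_mono_null ?_ h
  intro x hx
  have h3 : ¬ ‖x‖ ≠ 1 := hx
  rw [Metric.mem_sphere, dist_zero_right]
  exact not_not.1 h3

theorem isOpen_Ann (a b : ℝ) : IsOpen (Ann a b) :=
  (isOpen_lt continuous_const continuous_norm).inter
    (isOpen_lt continuous_norm continuous_const)

end PXRef

open PXRef in
/-- XREF. -/
theorem xref_thm (h1 : API1) (h2 : API2) (hc : CHAIN) (hb : BRID) (hn : XINV) (hv : XCOV)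
    (hi : XH1I) (ho : XODD) : XREF := by
  intro ε δ κ R g h w₀ hε hε1 hδ hκ hR hd hmir hw1 hw0 u G hs h01
  obtain ⟨c, L, hP⟩ := hb.coef ε δ κ g h (R / 2) hε hε1 hδ hκ (by linarith) hd
  obtain ⟨hu, huZ, hweak⟩ := hs
  set A := cA ε δ κ g with hA
  set B := cB ε δ g h with hB
  have huin : ∀ᵐ x : E3, ‖x‖ ≤ 1 → u x = 1 := by
    filter_upwards [huZ] with x hx h3
    rw [hx (Or.inl h3), hw1 x h3]
  -- bounds of the cut-off function
  obtain ⟨C, hC1, hC2⟩ : ∃ C, (∀ x, |(cut : E3 → ℝ) x| ≤ C) ∧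
      ∀ x, ‖gr (cut : E3 → ℝ) x‖ ≤ C := by
    obtain ⟨C1, hC1⟩ := (gr_cpt _ cut_test.cpt).exists_bound_of_continuous
      (gr_cont _ cut_test.one)
    refine ⟨max C1 1, fun x => ?_, fun x => (hC1 x).trans (le_max_left _ _)⟩
    rw [abs_of_nonneg cut.nonneg]
    exact cut.le_one.trans (le_max_right _ _)
  obtain ⟨f, hf⟩ : ∃ f : E3 → ℝ, f = fun x => cut x * u x - cut x := ⟨_, rfl⟩
  obtain ⟨F, hF⟩ : ∃ F : E3 → E3, F = fun x =>
      (cut x • G x + u x • gr (cut : E3 → ℝ) x) - gr (cut : E3 → ℝ) x := ⟨_, rfl⟩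
  have hfx : ∀ x, f x = cut x * u x - cut x := fun x => by rw [hf]
  have hFx : ∀ x, F x = (cut x • G x + u x • gr (cut : E3 → ℝ) x) - gr (cut : E3 → ℝ) x :=
    fun x => by rw [hF]
  have hfF : H1 f F := by
    rw [hf, hF]
    exact h1.sub _ _ _ _ (h2.mul u G cut C hu cut_test.one hC1 hC2) (h1.ofTest _ cut_test)
  have hf0 : ∀ᵐ x : E3, x ∉ Ann (1 / 2) 5 → f x = 0 := by
    filter_upwards [huin] with x hx hxA
    rw [hfx]
    by_cases h3 : ‖x‖ ≤ 1
    · rw [hx h3]
      ring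
    · have h4 : 5 ≤ ‖x‖ := by
        by_contra h5
        push Not at h5 h3
        exact hxA ⟨by linarith, h5⟩
      rw [cut_zero (by linarith)]
      ring
  have hq := hi (1 / 2) 5 (by norm_num) (by norm_num) f F hfF hf0
  obtain ⟨y, hyd⟩ : ∃ y : E3 → ℝ, y = fun x => u x - f (inversion x) := ⟨_, rfl⟩
  obtain ⟨Y, hYd⟩ : ∃ Y : E3 → E3, Y = fun x => G x - JT x (F (inversion x)) := ⟨_, rfl⟩
  have hyx : ∀ x, y x = u x - f (inversion x) := fun x => by rw [hyd]
  have hYx : ∀ x, Y x = G x - JT x (F (inversion x)) := fun x => by rw [hYd]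
  have hy : H1 y Y := by
    rw [hyd, hYd]
    exact h1.sub _ _ _ _ hu hq
  -- the values of `y`
  have hf1 : ∀ᵐ x : E3, 1 ≤ ‖x‖ → f (inversion x) = 0 := by
    filter_upwards [hv.null _ huin] with x hx h3
    have h4 : ‖inversion x‖ ≤ 1 := by
      rw [norm_inv]
      exact inv_le_one_of_one_le₀ h3
    rw [hfx, hx h4]
    ring
  have hyout : ∀ᵐ x : E3, 1 ≤ ‖x‖ → y x = u x := by
    filter_upwards [hf1] with x hx h3
    rw [hyx, hx h3, sub_zero]
  have hyin : ∀ᵐ x : E3, 1 / 3 < ‖x‖ → ‖x‖ < 1 → y x = 2 - u (inversion x) := by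
    filter_upwards [huin] with x hx h3 h4
    have h5 : ‖inversion x‖ ≤ 3 := by
      rw [norm_inv]
      rw [inv_le_comm₀ (by linarith) (by norm_num)]
      linarith
    rw [hyx, hx h4.le, hfx, cut_one h5]
    ring
  have hy02 : ∀ᵐ x, 0 ≤ y x ∧ y x ≤ 2 := by
    filter_upwards [huin, hyout, h01, hv.null _ h01] with x h3 h4 h5 h6
    by_cases h7 : 1 ≤ ‖x‖
    · rw [h4 h7]
      exact ⟨h5.1, by linarith [h5.2]⟩
    · push Not at h7
      rw [hyx, h3 h7.le, hfx]
      have h8 : 0 ≤ cut (inversion x) := cut.nonneg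
      have h9 : cut (inversion x) ≤ 1 := cut.le_one
      constructor
      · nlinarith [h6.1, h6.2]
      · nlinarith [h6.1, h6.2]
  have hyrefl : ∀ᵐ x : E3, x ∈ Ann (1 / 3) 3 → y (inversion x) = 2 - y x := by
    filter_upwards [hyout, hyin, hv.null _ hyout, hv.null _ hyin, ae_ne_one] with
      x h3 h4 h5 h6 h7 h8
    have hx0 : 0 < ‖x‖ := by
      have := h8.1
      linarith
    rcases lt_or_gt_of_ne h7 with h9 | h9
    · have h10 : 1 ≤ ‖inversion x‖ := by
        rw [norm_inv]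
        exact (one_le_inv₀ hx0).2 h9.le
      rw [h5 h10, h4 h8.1 h9]
      ring
    · have h10 : ‖inversion x‖ < 1 := by
        rw [norm_inv]
        exact inv_lt_one_of_one_lt₀ h9
      have h11 : 1 / 3 < ‖inversion x‖ := by
        rw [norm_inv, lt_inv_comm₀ (by norm_num) hx0]
        have := h8.2
        linarith
      rw [h6 h11 h10, h3 h9.le, inv_inv]
  -- the gradient of `y`
  have hYout : ∀ᵐ x : E3, 1 ≤ ‖x‖ → Y x = G x := by
    filter_upwards [hf1, hc.zero _ _ hq] with x h3 h4 h5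
    rw [hYx, h4 (h3 h5), sub_zero]
  have hGin : ∀ᵐ x : E3, ‖x‖ ≤ 1 → G x = 0 := by
    filter_upwards [huin, hc.zero _ _ (h1.sub _ _ _ _ hu (h1.ofTest _ cut_test))] with x h3 h4 h5
    have h6 := h4 (by rw [h3 h5, cut_one (by linarith), sub_self])
    rwa [gr_cut (by linarith), sub_zero] at h6
  have hYin : ∀ᵐ x : E3, 1 / 3 < ‖x‖ → ‖x‖ < 1 → Y x = -JT x (G (inversion x)) := by
    filter_upwards [hGin] with x h3 h4 h5
    have h6 : ‖inversion x‖ < 3 := by
      rw [norm_inv]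
      rw [inv_lt_comm₀ (by linarith) (by norm_num)]
      linarith
    rw [hYx, h3 h5.le, hFx, cut_one h6.le, gr_cut h6, one_smul, smul_zero, add_zero, sub_zero,
      zero_sub]
  refine ⟨y, Y, ⟨hy, ?_⟩, hy02, hyout, hyrefl⟩
  rintro φ Φ hφ ⟨K, hK, hKU, hφK⟩
  have hφA : ∀ᵐ x, x ∉ Ann (1 / 3) (2 * R) → φ x = 0 := by
    filter_upwards [hφK] with x hx h3
    exact hx fun h4 => h3 (hKU h4)
  have hΦA : ∀ᵐ x, x ∉ Ann (1 / 3) (2 * R) → Φ x = 0 := by
    filter_upwards [hφA, hc.zero φ Φ hφ] with x h3 h4 h5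
    exact h4 (h3 h5)
  have hψ := ho (1 / 3) (2 * R) (by norm_num) (by norm_num) (by linarith) φ Φ hφ hφA
  obtain ⟨O, hO⟩ : ∃ O : Set E3, O = {x : E3 | 1 < ‖x‖} := ⟨_, rfl⟩
  rw [← hO] at hψ
  have hOx : ∀ x, x ∈ O ↔ 1 < ‖x‖ := fun x => by rw [hO]; rfl
  have hOm : MeasurableSet O := by
    rw [hO]
    exact (isOpen_lt continuous_const continuous_norm).measurableSet
  have hfar : ∀ x : E3, 3 ≤ ‖x‖ → inversion x ∉ Ann (1 / 3) (2 * R) := by
    rintro x hx ⟨h8, -⟩
    rw [norm_inv, lt_inv_comm₀ (by norm_num) (by linarith)] at h8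
    linarith
  have hψZ : ∀ᵐ x, x ∈ ZS (2 * R) → O.indicator (fun x => φ x - φ (inversion x)) x = 0 := by
    filter_upwards [hφA, hv.null _ hφA] with x h3 h4 h5
    by_cases h6 : x ∈ O
    · rw [indicator_of_mem h6]
      have h7 : 2 * R ≤ ‖x‖ := by
        rcases h5 with h5 | h5
        · exact absurd ((hOx x).1 h6) (not_lt.2 h5)
        · exact h5
      rw [h3 (fun h8 => absurd h8.2 (not_lt.2 h7)), h4 (hfar x (by linarith)), sub_zero]
    · exact indicator_of_notMem h6 _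
  have e0 := hweak _ _ hψ hψZ
  -- the integrands
  have mAG := memA hP hu.memG
  have mBG := memB hP hu.memG
  have mAY := memA hP hy.memG
  have mBY := memB hP hy.memG
  obtain ⟨D1, hD1⟩ : ∃ D1 : E3 → ℝ, D1 = fun x => ⟪A x (G x), Φ x⟫ - B x (G x) * φ x := ⟨_, rfl⟩
  obtain ⟨kk, hkk⟩ : ∃ kk : E3 → ℝ, kk = fun x =>
    ⟪A x (G x), JT x (Φ (inversion x))⟫ - B x (G x) * φ (inversion x) := ⟨_, rfl⟩
  obtain ⟨D, hD⟩ : ∃ D : E3 → ℝ, D = fun x => ⟪A x (Y x), Φ x⟫ - B x (Y x) * φ x := ⟨_, rfl⟩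
  obtain ⟨E0, hE0⟩ : ∃ E0 : E3 → ℝ, E0 = fun x =>
    ⟪A x (G x), O.indicator (fun x => Φ x - JT x (Φ (inversion x))) x⟫ -
      B x (G x) * O.indicator (fun x => φ x - φ (inversion x)) x := ⟨_, rfl⟩
  have iD1 : Integrable D1 := by
    rw [hD1]
    exact (int_inner mAG hφ.memG).sub (int_mulr mBG hφ.memf)
  have iD : Integrable D := by
    rw [hD]
    exact (int_inner mAY hφ.memG).sub (int_mulr mBY hφ.memf)
  have iE0 : Integrable E0 := by
    rw [hE0]
    exact (int_inner mAG hψ.memG).sub (int_mulr mBG hψ.memf)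
  have hE0z : ∫ x, E0 x = 0 := by
    rw [hE0]
    rw [integral_sub (int_inner mAG hψ.memG) (int_mulr mBG hψ.memf), e0, sub_self]
  have hE0O : ∀ x ∈ O, E0 x = D1 x - kk x := by
    intro x hx
    simp only [hE0, hD1, hkk]
    rw [indicator_of_mem hx, indicator_of_mem hx, inner_sub_right]
    ring
  have hE0c : ∀ x, x ∉ O → E0 x = 0 := by
    intro x hx
    simp only [hE0]
    rw [indicator_of_notMem hx, indicator_of_notMem hx, inner_zero_right]
    ring
  have ikk : IntegrableOn kk O := by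
    refine (iD1.integrableOn.sub iE0.integrableOn).congr_fun (fun x hx => ?_) hOm
    show D1 x - E0 x = kk x
    rw [hE0O x hx]
    ring
  have f1 : ∫ x in O, kk x = ∫ x in O, D1 x := by
    have f2 : ∫ x in O, E0 x = 0 := by
      rw [setIntegral_eq_integral_of_forall_compl_eq_zero hE0c, hE0z]
    have f3 : ∫ x in O, E0 x = ∫ x in O, (D1 x - kk x) :=
      setIntegral_congr_fun hOm hE0O
    rw [f3, integral_sub iD1.integrableOn ikk] at f2
    linarith
  -- the integral outside of the unit ball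
  have g1 : ∫ x in O, D x = ∫ x in O, D1 x := by
    refine setIntegral_congr_ae hOm ?_
    filter_upwards [hYout] with x hx hxO
    simp only [hD, hD1]
    rw [hx ((hOx x).1 hxO).le]
  -- the integral inside
  have g2 : ∫ x in Oᶜ, D x = ∫ x in Ann (1 / 3) 1, D x := by
    refine setIntegral_eq_of_subset_of_ae_sdiff_eq_zero hOm.compl.nullMeasurableSet ?_ ?_
    · intro x hx hxO
      exact absurd ((hOx x).1 hxO) (not_lt.2 hx.2.le)
    · filter_upwards [hφA, hΦA, ae_ne_one] with x h3 h4 h5 h6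
      have h7 : ‖x‖ < 1 := by
        refine lt_of_le_of_ne ?_ h5
        have := h6.1
        rw [mem_compl_iff, hOx, not_lt] at this
        exact this
      have h8 : x ∉ Ann (1 / 3) (2 * R) := fun h9 => h6.2 ⟨h9.1, h7⟩
      simp only [hD]
      rw [h3 h8, h4 h8, inner_zero_right, mul_zero, sub_zero]
  have g3 : ∫ x in Ann (1 / 3) 1, D x =
      ∫ x in Ann (1 / 3) 1, -((‖x‖ ^ 6)⁻¹ * kk (inversion x)) := by
    refine setIntegral_congr_ae (isOpen_Ann _ _).measurableSet ?_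
    filter_upwards [hYin] with x hx hxA
    have hx0 : x ≠ 0 := by
      rw [← norm_pos_iff]
      have := hxA.1
      linarith
    obtain ⟨k1, k2⟩ := hn ε δ κ g h (R / 2) hδ hd hmir x (by linarith [hxA.1])
      (by linarith [hxA.2])
    simp only [hD, hkk]
    rw [hx hxA.1 hxA.2, hB, k2 (G (inversion x)), inv_inv]
    have h3 : ⟪A x (-JT x (G (inversion x))), Φ x⟫ =
        -((‖x‖ ^ 6)⁻¹ * ⟪A (inversion x) (G (inversion x)), JT (inversion x) (Φ x)⟫) := by
      have h4 := k1 (G (inversion x)) (JT (inversion x) (Φ x))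
      rw [JT_JT hx0] at h4
      exact h4
    rw [h3]
    ring
  have hAnn : Ann (1 : ℝ)⁻¹ (1 / 3 : ℝ)⁻¹ = Ann 1 3 := by norm_num
  have g4 : ∫ x in O, kk x = ∫ x in Ann 1 3, kk x := by
    refine setIntegral_eq_of_subset_of_ae_sdiff_eq_zero hOm.nullMeasurableSet ?_ ?_
    · intro x hx
      exact (hOx x).2 hx.1
    · filter_upwards [hv.null _ hφA, hv.null _ hΦA] with x h3 h4 h6
      have h7 : 3 ≤ ‖x‖ := by
        by_contra h8
        exact h6.2 ⟨(hOx x).1 h6.1, not_le.1 h8⟩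
      simp only [hkk]
      rw [h3 (hfar x h7), h4 (hfar x h7), JT_zero, inner_zero_right, mul_zero, sub_zero]
  have g5 := (hv.int (1 / 3) 1 (by norm_num) (by norm_num) kk (by
    rw [hAnn]
    exact ikk.mono_set fun x hx => (hOx x).2 hx.1)).2
  rw [hAnn] at g5
  have g6 : ∫ x, D x = 0 := by
    rw [← integral_add_compl hOm iD, g1, g2, g3, integral_neg, g5, ← g4, f1]
    ring
  rw [hD, integral_sub (int_inner mAY hφ.memG) (int_mulr mBY hφ.memf)] at g6
  linarith

end Pool.Agent.PFlow.PB
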