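import Pool.Agent.PFlow.StmtsPX

/-!
# XSUB: comparison for the limit, on compact sets
-/

open MeasureTheory Filter Topology Set
open scoped ContDiff RealInnerProductSpace

namespace Pool.Agent.PFlow.PB

open Pool.Agent.PenroseSph Pool.Agent.PFlow

namespace PXSubL

lemma pd_add_const (f : E3 → ℝ) (d : ℝ) (i : Fin 3) : pd i (fun x => f x + d) = pd i f := by
  funext x
  simp only [pd, fderiv_add_const]

lemma gr_add_const (f : E3 → ℝ) (d : ℝ) : gr (fun x => f x + d) = gr f := by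
  funext x
  simp only [gr, pd_add_const]

lemma hs_add_const (f : E3 → ℝ) (d : ℝ) (i : Fin 3) : hs (fun x => f x + d) i = hs f i := by
  funext x
  simp only [hs, pd_add_const]

lemma key (hb : BRID) (hc : XCCPT) {ε R : ℝ} {g h : TensorField} {w₀ : E3 → ℝ} {δ κ : ℕ → ℝ}
    {u : ℕ → E3 → ℝ} {G : ℕ → E3 → E3} {v : ℕ → E3 → ℝ} {V : ℕ → E3 → E3}
    {M : ℕ → Fin 3 → E3 → E3} {C : ℝ} {w : E3 → ℝ} {F : E3 → E3} {N : Fin 3 → E3 → E3}
    (H : LimX ε R g h w₀ δ κ u G v V M C w F N) (s : ℝ) (hs1 : s = 1 ∨ s = -1)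
    (K : Set E3) (hK : IsCompact K) (hKU : K ⊆ Ann (2 / 5) (3 * R / 2)) (f : E3 → ℝ)
    (hf : ∀ x ∈ K, ContDiffAt ℝ 2 f x)
    (σ δ₀ : ℝ) (hσ : 0 < σ) (hδ₀ : 0 < δ₀)
    (hop : ∀ δ κ : ℝ, 0 < δ → δ ≤ δ₀ → 0 < κ → κ ≤ δ₀ → ∀ x ∈ K,
      σ ≤ s * (opL ε δ κ g x (grad f x) (hess2 f x) + cB ε δ g h x (vec (grad f x))))
    (hfr : ∀ x ∈ frontier K, s * (f x - w x) ≤ 0) : ∀ x ∈ K, s * (f x - w x) ≤ 0 := by
  intro x hx
  refine le_of_forall_pos_le_add fun η hη => ?_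
  have hss : s * s = 1 := by
    rcases hs1 with h | h <;> rw [h] <;> norm_num
  have hsa : |s| = 1 := by
    rcases hs1 with h | h <;> rw [h] <;> norm_num
  have e1 : ∀ᶠ n in atTop, δ n < δ₀ := H.δ_tend.eventually_lt_const hδ₀
  have e2 : ∀ᶠ n in atTop, κ n < δ₀ := H.κ_tend.eventually_lt_const hδ₀
  have e3 : ∀ᶠ n in atTop, ∀ y ∈ K, dist (w y) (v n y) < η / 2 :=
    (Metric.tendstoUniformlyOn_iff.mp (H.unif K hK)) (η / 2) (by linarith)
  obtain ⟨n, h1, h2, h3⟩ := (e1.and (e2.and e3)).exists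
  have h3' : ∀ y ∈ K, |s * (v n y - w y)| ≤ η / 2 := by
    intro y hy
    rw [abs_mul, hsa, one_mul, abs_sub_comm, ← Real.dist_eq]
    exact (h3 y hy).le
  have hR0 : 0 < R / 2 := by
    have := H.hR
    linarith
  obtain ⟨c, L, hP⟩ := hb.coef ε (δ n) (κ n) g h (R / 2) H.eps_pos H.eps_lt (H.δ_pos n)
    (H.κ_pos n) hR0 H.data
  have hfr' : frontier K ⊆ K := hK.isClosed.frontier_subset
  have main := hc _ _ c L (R / 2) hP (Ann (2 / 5) (3 * R / 2)) (v n) (V n) (H.loc n) (H.cont n)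
    s hs1 K (fun y => f y + (-(s * (η / 2)))) hK hKU
    (fun y hy => (hf y hy).add contDiffAt_const) σ hσ ?_ ?_ x hx
  · have h4 := abs_le.mp (h3' x hx)
    have e4 : s * (f x + -(s * (η / 2)) - v n x) =
        s * (f x - w x) - s * (v n x - w x) - (s * s) * (η / 2) := by ring
    rw [e4, hss] at main
    linarith [h4.1, h4.2]
  · intro y hy _
    rw [gr_add_const]
    simp only [hs_add_const]
    obtain ⟨j1, j2⟩ := hb.jet f y (hf y hy)
    rw [hb.op ε (δ n) (κ n) g h (R / 2) H.eps_pos H.eps_lt (H.δ_pos n) (H.κ_pos n) H.data, j1, j2]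
    have h5 := hop (δ n) (κ n) (H.δ_pos n) h1.le (H.κ_pos n) h2.le y hy
    have h7 : (vec (grad f y)).ofLp = grad f y := rfl
    rw [h7]
    exact h5
  · intro y hy
    have h4 := abs_le.mp (h3' y (hfr' hy))
    have h5 := hfr y hy
    have e4 : s * (f y + -(s * (η / 2)) - v n y) =
        s * (f y - w y) - s * (v n y - w y) - (s * s) * (η / 2) := by ring
    rw [e4, hss]
    linarith [h4.1, h4.2]

end PXSubL

open PXSubL in
/-- XSUB: comparison for the limit, on compact sets. -/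
theorem xsub_thm (hb : BRID) (hc : XCCPT) (hk : KPOS) : XSUB := by
  intro ε R g h w₀ δ κ u G v V M C w F N H K hK hKs f hf
  constructor
  · intro hpos hfr x hx
    obtain ⟨σ, δ₀, hσ, hδ₀, hop⟩ :=
      (hk ε g h (R / 2) H.eps_pos H.eps_lt H.data K f hK hf).1 hpos
    have main := key hb hc H 1 (Or.inl rfl) K hK hKs f hf σ δ₀ hσ hδ₀ ?_ ?_ x hx
    · linarith
    · intro δ' κ' k1 k2 k3 k4 y hy
      rw [one_mul]
      exact hop δ' κ' k1 k2 k3 k4 y hy
    · intro y hy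
      have := hfr y hy
      linarith
  · intro hneg hfr x hx
    obtain ⟨σ, δ₀, hσ, hδ₀, hop⟩ :=
      (hk ε g h (R / 2) H.eps_pos H.eps_lt H.data K f hK hf).2 hneg
    have main := key hb hc H (-1) (Or.inr rfl) K hK hKs f hf σ δ₀ hσ hδ₀ ?_ ?_ x hx
    · linarith
    · intro δ' κ' k1 k2 k3 k4 y hy
      have := hop δ' κ' k1 k2 k3 k4 y hy
      linarith
    · intro y hy
      have := hfr y hy
      linarith

end Pool.Agent.PFlow.PB
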