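import Pool.Agent.PFlow.P.AllP
import Pool.Agent.PFlow.PX.Byp
import Pool.Agent.PFlow.PX.CCpt
import Pool.Agent.PFlow.PX.CKey
import Pool.Agent.PFlow.PX.CmL
import Pool.Agent.PFlow.PX.Cmp
import Pool.Agent.PFlow.PX.Cov
import Pool.Agent.PFlow.PX.Crd
import Pool.Agent.PFlow.PX.DQ
import Pool.Agent.PFlow.PX.Dvf
import Pool.Agent.PFlow.PX.EqL
import Pool.Agent.PFlow.PX.Exi
import Pool.Agent.PFlow.PX.Fin
import Pool.Agent.PFlow.PX.FluxL
import Pool.Agent.PFlow.PX.H1I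
import Pool.Agent.PFlow.PX.HTw
import Pool.Agent.PFlow.PX.Inv
import Pool.Agent.PFlow.PX.LCg
import Pool.Agent.PFlow.PX.Lim
import Pool.Agent.PFlow.PX.Lips
import Pool.Agent.PFlow.PX.NDv
import Pool.Agent.PFlow.PX.NoIsl
import Pool.Agent.PFlow.PX.Odd
import Pool.Agent.PFlow.PX.OddT
import Pool.Agent.PFlow.PX.Order
import Pool.Agent.PFlow.PX.Prd
import Pool.Agent.PFlow.PX.Ptw
import Pool.Agent.PFlow.PX.Ref
import Pool.Agent.PFlow.PX.Step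
import Pool.Agent.PFlow.PX.SubL
import Pool.Agent.PFlow.PX.Unif

/-!
# Block PX, assembly: the function `u` exists on an exterior region
-/

namespace Pool.Agent.PFlow.PB

open Pool.Agent.PFlow

theorem pXSTEP : XSTEP := xstep_thm pAPI1 pZAR
theorem pXORD : XORD := xord_thm pAPI1 pCHAIN
theorem pXLIPS : XLIPS := xlips_thm pAPI1
theorem pXEXI : XEXI := xexi_thm pAPI1 pXSTEP pXORD pXLIPS
theorem pXCKEY : XCKEY := xckey_thm pAPI1 pAPI2 pCHAIN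
theorem pXCCPT : XCCPT := xccpt_thm pAPI1 pAPI2 pXCKEY
theorem pXCMP : XCMP := xcmp_thm pAPI1 pAPI2 pCHAIN pXCKEY
theorem pXINV : XINV := xinv_thm
theorem pXCOV : XCOV := xcov_thm
theorem pXH1I : XH1I := xh1i_thm pAPI1 pAPI2 pXCOV
theorem pXODT : XODT := xodt_thm pAPI1 pAPI2 pCHAIN
theorem pXODD : XODD := xodd_thm pAPI1 pAPI2 pXCOV pXH1I pXODT
theorem pXREF : XREF := xref_thm pAPI1 pAPI2 pCHAIN pBRID pXINV pXCOV pXH1I pXODD
theorem pXLCG : XLCG := xlcg_thm pAPI1 pCHAIN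
theorem pXDQ : XDQ := xdq_thm pAPI1 pAPI2 pDQR
theorem pXHTW : XHTW := xhtw_thm pAPI1 pAPI2 pXDQ
theorem pXDVF : XDVF := xdvf_thm pAPI1 pAPI2 pDENS
theorem pXNDV : XNDV := xndv_thm pAPI1 pXDVF
theorem pXCRD : XCRD := xcrd_thm pAPI1 pCID kBND kSM
theorem pXPRD : XPRD := xprd_thm pAPI1 pAPI2
theorem pXPTW : XPTW := xptw_thm kBND kTN
theorem pXBYP : XBYP := xbyp_thm pAPI1 pAPI2
theorem pXUNIF : XUNIF :=
  xunif_thm pAPI1 pBRID kCOR pXHTW pXLCG pXNDV pXPRD pXPTW pXBYP pXCRD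
theorem pXLIM : XLIM :=
  xlim_thm pAPI1 pCHAIN pBRID pCONT pCPT pXEXI pXREF pXCOV pXLCG pXUNIF
theorem pXEQL : XEQL := xeql_thm pBRID pXNDV pLIMEQ pSYMM kLIMU kSMO kTN
theorem pXFLX : XFLX := xflx_thm pAPI1 pAPI2 pLIMW kLIM kSMO kTN
theorem pXSUB : XSUB := xsub_thm pBRID pXCCPT kPOS
theorem pXNOI : XNOI := xnoi_thm kEXP
theorem pXCML : XCML := xcml_thm pBRID pXCMP kPOS

end Pool.Agent.PFlow.PB

namespace Pool.Agent.PFlow

open PB

/-- **Block PX**: the interface statement `Stmt_PX`, without hypotheses. -/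
theorem PX : Stmt_PX := xfin_thm pXEQL pXFLX pXSUB pXNOI pXCML pHTWOON pXLIM

end Pool.Agent.PFlow
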