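import Pool.Agent.PFlow.StmtsPX
import Pool.Agent.PFlow.P.Step

/-!
# Block PX, module XSTEP: the strongly monotone problem with boundary values
-/

open MeasureTheory Filter Topology Set
open scoped ContDiff RealInnerProductSpace ENNReal

namespace Pool.Agent.PFlow.PB

open Pool.Agent.PenroseSph Pool.Agent.PFlow

namespace PXStep

open Step

/-- The closed subspace of the pairs `(φ, Φ)` in `H¹` with `φ = 0` on `Z`. -/
def SZ (h1 : API1) (Z : Set E3) : Submodule ℝ X where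
  carrier := {p | p ∈ S h1 ∧ ∀ᵐ x, x ∈ Z → p.fst x = 0}
  zero_mem' := by
    refine ⟨(S h1).zero_mem, ?_⟩
    filter_upwards [Lp.coeFn_zero ℝ 2 (volume : Measure E3)] with x hx _
    exact hx
  add_mem' := by
    intro p q hp hq
    refine ⟨(S h1).add_mem hp.1 hq.1, ?_⟩
    filter_upwards [Lp.coeFn_add p.fst q.fst, hp.2, hq.2] with x hx h1 h2 hZ
    have h3 : (p + q).fst x = p.fst x + q.fst x := hx
    rw [h3, h1 hZ, h2 hZ, add_zero]
  smul_mem' := by
    intro c p hp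
    refine ⟨(S h1).smul_mem c hp.1, ?_⟩
    filter_upwards [Lp.coeFn_smul c p.fst, hp.2] with x hx h1 hZ
    have h3 : (c • p).fst x = c • p.fst x := hx
    rw [h3, h1 hZ, smul_zero]

lemma mem_SZ (h1 : API1) (Z : Set E3) (p : X) :
    p ∈ SZ h1 Z ↔ p ∈ S h1 ∧ ∀ᵐ x, x ∈ Z → p.fst x = 0 := Iff.rfl

lemma closed_SZ (h1 : API1) (Z : Set E3) : IsClosed (SZ h1 Z : Set X) := by
  refine IsSeqClosed.isClosed fun p q hp hq => ?_
  have hpS : ∀ n, p n ∈ S h1 := fun n => (hp n).1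
  have hpZ : ∀ n, ∀ᵐ x, x ∈ Z → (p n).fst x = 0 := fun n => (hp n).2
  refine ⟨(closed_S h1).mem_of_tendsto hq (Eventually.of_forall hpS), ?_⟩
  have hf : Tendsto (fun n => (p n).fst) atTop (𝓝 q.fst) :=
    ((WithLp.continuous_fst 2 _ _).tendsto q).comp hq
  have hm : TendstoInMeasure (volume : Measure E3) (fun n => ((p n).fst : E3 → ℝ)) atTop
      (q.fst : E3 → ℝ) := tendstoInMeasure_of_tendsto_Lp hf
  obtain ⟨ns, -, hns⟩ := hm.exists_seq_tendsto_ae
  filter_upwards [hns, ae_all_iff.mpr hpZ] with x h2 h3 hZ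
  refine tendsto_nhds_unique h2 ?_
  have h4 : (fun i => ((p (ns i)).fst : E3 → ℝ) x) = fun _ => (0 : ℝ) := by
    funext i
    exact h3 (ns i) hZ
  rw [h4]
  exact tendsto_const_nhds

lemma pen_one (r : ℝ) : Pen (fun _ => 1) (fun _ => 0) 1 1 r where
  contΘ := continuous_const
  contθ := continuous_const
  nonneg := fun _ => le_rfl
  le := fun _ => zero_le_one
  bdd := fun _ => le_rfl
  t₀_pos := one_pos
  outΘ := fun _ _ => le_rfl
  outθ := fun _ _ => rfl

end PXStep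

open PXStep Step in
/-- Module XSTEP. -/
theorem xstep_thm (h1 : API1) (hz : ZAR) : XSTEP := by
  intro A B c L r hP Z w₀ hw₀ m hm v hv
  have hL : 0 < L := hP.c_pos.trans_le hP.c_le
  have hp := pen_one r
  have hLc : 0 ≤ L ^ 2 / c := div_nonneg (sq_nonneg _) hP.c_pos.le
  have hm1 : L ^ 2 / c + 1 ≤ m - 1 := by linarith
  have hm0 : 0 ≤ m - 1 := by linarith
  have hmne : m - 1 ≠ 0 := by
    intro h
    rw [h] at hm1
    linarith
  have hv1 : MemLp (fun x => m / (m - 1) * v x) 2 := hv.const_mul _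
  have hW0 : H1 w₀ (gr w₀) := h1.ofTest w₀ hw₀
  let W : X := WithLp.toLp 2 (hW0.memf.toLp, hW0.memG.toLp)
  have hWS : W ∈ S h1 := by
    show H1 _ _
    exact h1.congr _ _ _ _ hW0 hW0.memf.coeFn_toLp.symm hW0.memG.coeFn_toLp.symm
  have : CompleteSpace (SZ h1 Z) := (closed_SZ h1 Z).completeSpace_coe
  have key : ∀ p q : SZ h1 Z,
      ⟪(SZ h1 Z).orthogonalProjectionOnto (N hP hp (m - 1) hv1 ((p : X) + W)), q⟫
      = ⟪N hP hp (m - 1) hv1 ((p : X) + W), (q : X)⟫ :=
    fun p q => (SZ h1 Z).inner_orthogonalProjectionOnto_eq_of_mem_right q _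
  obtain ⟨p, hp0⟩ := hz (SZ h1 Z)
    (fun p => (SZ h1 Z).orthogonalProjectionOnto (N hP hp (m - 1) hv1 ((p : X) + W)))
    (min (c / 2) 1) (2 * (L + 1 + (m - 1))) (lt_min (half_pos hP.c_pos) one_pos)
    (by
      intro p q
      have h2 := mono_N hP hp hm1 hv1 ((p : X) + W) ((q : X) + W)
      rw [add_sub_add_right_eq_sub] at h2
      rw [inner_sub_left, key, key, ← inner_sub_left]
      exact h2)
    (by
      intro p q
      show ‖(SZ h1 Z).orthogonalProjectionOnto (N hP hp (m - 1) hv1 ((p : X) + W))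
        - (SZ h1 Z).orthogonalProjectionOnto (N hP hp (m - 1) hv1 ((q : X) + W))‖ ≤ _
      rw [← map_sub]
      have h2 := lip_N hP hp hm0 hv1 ((p : X) + W) ((q : X) + W)
      rw [add_sub_add_right_eq_sub] at h2
      exact ((SZ h1 Z).norm_orthogonalProjectionOnto_apply_le _).trans h2) 0
  refine ⟨((p : X) + W).fst, ((p : X) + W).snd, (S h1).add_mem p.2.1 hWS, ?_, ?_⟩
  · filter_upwards [Lp.coeFn_add (p : X).fst W.fst, p.2.2, hW0.memf.coeFn_toLp] with x hx h2 h3 hZ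
    have h4 : ((p : X) + W).fst x = (p : X).fst x + W.fst x := hx
    have h5 : W.fst x = w₀ x := h3
    rw [h4, h5, h2 hZ, zero_add]
  intro φ Φ hφ hφZ
  have hq : WithLp.toLp 2 (hφ.memf.toLp, hφ.memG.toLp) ∈ SZ h1 Z := by
    refine ⟨?_, ?_⟩
    · show H1 _ _
      exact h1.congr _ _ _ _ hφ hφ.memf.coeFn_toLp.symm hφ.memG.coeFn_toLp.symm
    · filter_upwards [hφ.memf.coeFn_toLp, hφZ] with x hx h2 hZ
      show (hφ.memf.toLp : Lp ℝ 2 (volume : Measure E3)) x = 0
      rw [hx, h2 hZ]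
  have h0 := key p ⟨_, hq⟩
  rw [hp0, inner_zero_left, inner_N] at h0
  have h2 : (∫ x, -(B x (((p : X) + W).snd x) - 1 * ((p : X) + W).fst x + 0
      - (m - 1) * (((p : X) + W).fst x - m / (m - 1) * v x))
        * (WithLp.toLp 2 (hφ.memf.toLp, hφ.memG.toLp) : X).fst x)
      = - ∫ x, (B x (((p : X) + W).snd x) - m * (((p : X) + W).fst x - v x)) * φ x := by
    rw [← integral_neg]
    refine integral_congr_ae ?_
    filter_upwards [hφ.memf.coeFn_toLp] with x hx
    show _ * (hφ.memf.toLp : Lp ℝ 2 (volume : Measure E3)) x = _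
    rw [hx]
    have h5 : (m - 1) * (m / (m - 1) * v x) = m * v x := by
      rw [← mul_assoc, mul_div_cancel₀ _ hmne]
    have h6 : (m - 1) * (((p : X) + W).fst x - m / (m - 1) * v x)
        = (m - 1) * ((p : X) + W).fst x - m * v x := by
      rw [mul_sub, h5]
    rw [h6]
    ring
  have h3 : (∫ x, ⟪A x (((p : X) + W).snd x),
      (WithLp.toLp 2 (hφ.memf.toLp, hφ.memG.toLp) : X).snd x⟫)
      = ∫ x, ⟪A x (((p : X) + W).snd x), Φ x⟫ := by
    refine integral_congr_ae ?_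
    filter_upwards [hφ.memG.coeFn_toLp] with x hx
    show ⟪_, (hφ.memG.toLp : Lp E3 2 (volume : Measure E3)) x⟫ = _
    rw [hx]
  rw [h2, h3] at h0
  linarith

end Pool.Agent.PFlow.PB
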